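import Pool.Agent.T9h50.TR.Fld
import Pool.Agent.T9h50.TB.Esc2

/-!
# Escape of the light body
-/

set_option autoImplicit false

open scoped NNReal ComplexConjugate Topology
open Complex Set Filter
open Pool.Agent.T9h50.TB (E kd kd_lip kd_eq norm_kd_le kd_rot ip dtm ip_self lagr abs_ip_le abs_dtm_le
  RR Hb hasDerivAt_re hasDerivAt_im hasDerivAt_ip hasDerivAt_dtm hasDerivAt_inv_norm le_of_deriv
  forall_pos_of_step kd_congr)

namespace Pool.Agent.T9h50.TR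

/-- component in a fixed direction -/
noncomputable def cmp (z : ℂ) : ℝ := 8 / 17 * z.re + -(15 / 17) * z.im

lemma cmp_add (z w : ℂ) : cmp (z + w) = cmp z + cmp w := by simp only [cmp, Complex.add_re, Complex.add_im]; ring

lemma cmp_smul (c : ℝ) (z : ℂ) : cmp (c • z) = c * cmp z := by
  simp only [cmp, Complex.smul_re, Complex.smul_im, smul_eq_mul]; ring

lemma abs_cmp_le (z : ℂ) : |cmp z| ≤ ‖z‖ := by
  have h : cmp z = ip ⟨8 / 17, -(15 / 17)⟩ z := by simp only [cmp, ip]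
  have h1 : ‖(⟨8 / 17, -(15 / 17)⟩ : ℂ)‖ ≤ 1 := by
    have : ‖(⟨8 / 17, -(15 / 17)⟩ : ℂ)‖ ^ 2 ≤ 1 := by
      rw [← ip_self, ip]; norm_num
    nlinarith [norm_nonneg (⟨8 / 17, -(15 / 17)⟩ : ℂ)]
  rw [h]
  refine (abs_ip_le _ _).trans ?_
  nlinarith [norm_nonneg z]

lemma hasDerivAt_cmp {f : ℝ → ℂ} {f' : ℂ} {t : ℝ} (h : HasDerivAt f f' t) :
    HasDerivAt (fun s => cmp (f s)) (cmp f') t :=
  ((hasDerivAt_re h).const_mul _).fun_add ((hasDerivAt_im h).const_mul _)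

variable {P0 : Par}

/-- the difference of the attractions by the light body -/
lemma tidal {Y : ℝ} (hA : P0.dA ≤ Y) (hY : P0.dC ≤ Y) {a b : ℂ} (ha : Y ≤ ‖a‖) (hc : Y ≤ ‖a + b‖) :
    ‖kd P0.dA a - kd P0.dC (a + b)‖ ≤ 2 / Y ^ 3 * ‖b‖ := by
  rw [kd_congr hA ha, kd_congr hY hc]
  have hY0 : 0 < Y := P0.dC0.trans_le hY
  have := kd_lip hY0 a (a + b)
  have e : a - (a + b) = -b := by ring
  rwa [e, norm_neg] at this

/-- the acceleration of `R` -/
lemma norm_accR {m : Fin 3 → ℝ} (h0 : 0 ≤ m 0) (h1 : 0 < m 1) (h2 : 0 < m 2) {Y : ℝ} (hA : P0.dA ≤ Y) (hY : P0.dC ≤ Y)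
    {a b : ℂ} (ha : Y ≤ ‖a‖) (hc : Y ≤ ‖a + b‖) :
    ‖FA P0 m a b + (m 2 / (m 1 + m 2) : ℝ) • FB P0 m a b‖ ≤ (m 0 + m 1 + m 2) / Y ^ 2 := by
  have hY0 : 0 < Y := P0.dC0.trans_le hY
  have hM : 0 < m 1 + m 2 := by linarith
  set c1 := m 0 + m 1 - m 2 / (m 1 + m 2) * m 0 with hc1
  set c2 := m 2 + m 2 / (m 1 + m 2) * m 0 with hc2
  have e : FA P0 m a b + (m 2 / (m 1 + m 2) : ℝ) • FB P0 m a b = -(c1 • kd P0.dA a) - c2 • kd P0.dC (a + b) := by
    have e1 : (m 2 / (m 1 + m 2)) * (m 1 + m 2) = m 2 := by field_simp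
    have e2 : (m 2 / (m 1 + m 2) : ℝ) • ((m 1 + m 2 : ℝ) • kd P0.dB b) = (m 2 : ℝ) • kd P0.dB b := by
      rw [smul_smul, e1]
    rw [FA, FB, smul_sub, e2]
    simp only [smul_sub, smul_smul, c1, c2, sub_smul, add_smul]
    abel
  have hc10 : 0 ≤ c1 := by
    have : m 2 / (m 1 + m 2) ≤ 1 := by rw [div_le_one hM]; linarith
    nlinarith
  have hc20 : 0 ≤ c2 := by positivity
  have k1 : ‖kd P0.dA a‖ ≤ 1 / Y ^ 2 := by
    rw [kd_congr hA ha]; exact norm_kd_le hY0 a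
  have k2 : ‖kd P0.dC (a + b)‖ ≤ 1 / Y ^ 2 := by
    rw [kd_congr hY hc]; exact norm_kd_le hY0 _
  rw [e]
  calc _ ≤ ‖c1 • kd P0.dA a‖ + ‖c2 • kd P0.dC (a + b)‖ := by
        refine (norm_sub_le _ _).trans ?_
        rw [norm_neg]
    _ = c1 * ‖kd P0.dA a‖ + c2 * ‖kd P0.dC (a + b)‖ := by
        rw [norm_smul, norm_smul, Real.norm_of_nonneg hc10, Real.norm_of_nonneg hc20]
    _ ≤ c1 * (1 / Y ^ 2) + c2 * (1 / Y ^ 2) := by gcongr
    _ = _ := by rw [hc1, hc2]; ring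

/-- the conditions which are preserved -/
structure Cnd (m : Fin 3 → ℝ) (a b p q : ℂ) : Prop where
  v : 60 / 100 ≤ cmp (RR m p q)
  b1 : 97 / 100 ≤ ‖b‖
  b2 : ‖b‖ ≤ 103 / 100
  q : ‖q‖ ≤ 18 / 10

set_option maxHeartbeats 1000000 in
/-- one step of the continuous induction -/
theorem cnd_improve {m : Fin 3 → ℝ} (hm : NearM (1 / 10 ^ 6) m) (hdA : P0.dA ≤ 2) (hdC0 : P0.dC ≤ 2)
    (hdB : P0.dB ≤ 97 / 100) {A B P Q : ℝ → ℂ} {T0 T : ℝ}
    (hT : T0 ≤ T)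
    (hA : ∀ t ∈ Icc T0 T, HasDerivAt A (P t) t) (hB : ∀ t ∈ Icc T0 T, HasDerivAt B (Q t) t)
    (hP : ∀ t ∈ Icc T0 T, HasDerivAt P (FA P0 m (A t) (B t)) t)
    (hQ : ∀ t ∈ Icc T0 T, HasDerivAt Q (FB P0 m (A t) (B t)) t)
    (hX : 3491 / 1000 ≤ cmp (RR m (A T0) (B T0))) (hV : 1577 / 1000 ≤ cmp (RR m (P T0) (Q T0)))
    (hh : Hb m (B T0) (Q T0) ≤ -(14999 / 10 ^ 4)) (hl : 17319 / 10 ^ 4 ≤ dtm (B T0) (Q T0))
    (hc : ∀ t ∈ Icc T0 T, Cnd m (A t) (B t) (P t) (Q t)) :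
    (cmp (RR m (A T0) (B T0)) + 60 / 100 * (T - T0) ≤ cmp (RR m (A T) (B T))) ∧
    (60 / 100 < cmp (RR m (P T) (Q T)) ∧ 97 / 100 < ‖B T‖ ∧ ‖B T‖ < 103 / 100 ∧ ‖Q T‖ < 18 / 10) ∧
    (2 ≤ ‖A T‖ ∧ 2 ≤ ‖A T + B T‖) := by
  obtain ⟨⟨m0, m0'⟩, ⟨m1, m1'⟩, ⟨m2, m2'⟩⟩ := hm.bounds
  norm_num at m0 m0' m1 m1' m2 m2'
  have hM : 0 < m 1 + m 2 := by linarith
  set μ : ℝ := m 2 / (m 1 + m 2) with hμ
  have hμ0 : 0 < μ := by rw [hμ]; apply div_pos <;> linarith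
  have hμ1 : μ ≤ 501 / 1000 := by rw [hμ, div_le_iff₀ hM]; linarith
  have hμ2 : 499 / 1000 ≤ μ := by rw [hμ, le_div_iff₀ hM]; linarith
  -- monotonicity of X
  have hR : ∀ t ∈ Icc T0 T, HasDerivAt (fun s => cmp (RR m (A s) (B s))) (cmp (RR m (P t) (Q t))) t := by
    intro t ht
    exact hasDerivAt_cmp ((hA t ht).fun_add ((hB t ht).const_smul μ))
  have hRV : ∀ t ∈ Icc T0 T, HasDerivAt (fun s => cmp (RR m (P s) (Q s)))
      (cmp (RR m (FA P0 m (A t) (B t)) (FB P0 m (A t) (B t)))) t := by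
    intro t ht
    exact hasDerivAt_cmp ((hP t ht).fun_add ((hQ t ht).const_smul μ))
  have hXt : ∀ t ∈ Icc T0 T, cmp (RR m (A T0) (B T0)) + 60 / 100 * (t - T0) ≤ cmp (RR m (A t) (B t)) := by
    intro t ht
    have h1 := le_of_deriv (f := fun s => cmp (RR m (A s) (B s)) - 60 / 100 * (s - T0))
      (f' := fun s => cmp (RR m (P s) (Q s)) - 60 / 100 * 1) ht.1
      (fun s hs => (hR s ⟨hs.1, hs.2.trans ht.2⟩).fun_sub
        (((hasDerivAt_id s).sub_const T0).const_mul (60 / 100)))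
      (fun s hs => by linarith [(hc s ⟨hs.1, hs.2.trans ht.2⟩).v])
    simp only [sub_self, mul_zero, sub_zero] at h1
    linarith
  set Y : ℝ → ℝ := fun t => cmp (RR m (A t) (B t)) - 52 / 100 with hY
  have hY0 : ∀ t ∈ Icc T0 T, 2971 / 1000 ≤ Y t := by
    intro t ht
    have h1 := hXt t ht
    have h2 := ht.1
    simp only [hY]
    linarith
  have hYd : ∀ t ∈ Icc T0 T, HasDerivAt Y (cmp (RR m (P t) (Q t))) t := by
    intro t ht
    exact (hR t ht).sub_const _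
  have hdC : ∀ t ∈ Icc T0 T, P0.dC ≤ Y t := fun t ht => by
    have := hY0 t ht
    linarith
  have hdA' : ∀ t ∈ Icc T0 T, P0.dA ≤ Y t := fun t ht => by
    have := hY0 t ht
    linarith
  have hYa : ∀ t ∈ Icc T0 T, Y t ≤ ‖A t‖ := by
    intro t ht
    have h1 : cmp (RR m (A t) (B t)) ≤ ‖RR m (A t) (B t)‖ := (le_abs_self _).trans (abs_cmp_le _)
    have h2 : ‖RR m (A t) (B t)‖ ≤ ‖A t‖ + μ * ‖B t‖ := by
      rw [RR]
      refine (norm_add_le _ _).trans ?_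
      rw [norm_smul, Real.norm_of_nonneg hμ0.le]
    have h3 := (hc t ht).b2
    have h4 : μ * ‖B t‖ ≤ 501 / 1000 * (103 / 100) := by gcongr
    simp only [hY]
    linarith
  have hYc : ∀ t ∈ Icc T0 T, Y t ≤ ‖A t + B t‖ := by
    intro t ht
    have h1 : cmp (RR m (A t) (B t)) ≤ ‖RR m (A t) (B t)‖ := (le_abs_self _).trans (abs_cmp_le _)
    have h2 : ‖RR m (A t) (B t)‖ ≤ ‖A t + B t‖ + (1 - μ) * ‖B t‖ := by
      have e : RR m (A t) (B t) = (A t + B t) - (1 - μ) • B t := by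
        rw [RR, sub_smul, one_smul]; ring
      rw [e]
      refine (norm_sub_le _ _).trans ?_
      rw [norm_smul, Real.norm_of_nonneg (by linarith)]
    have h3 := (hc t ht).b2
    have h4 : (1 - μ) * ‖B t‖ ≤ 501 / 1000 * (103 / 100) := by
      apply mul_le_mul (by linarith) h3 (norm_nonneg _) (by norm_num)
    simp only [hY]
    linarith
  -- energy of R
  set Mt := m 0 + m 1 + m 2 with hMt
  have hTT : T ∈ Icc T0 T := ⟨hT, le_rfl⟩
  have hT0 : T0 ∈ Icc T0 T := ⟨le_rfl, hT⟩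
  have hW : cmp (RR m (P T0) (Q T0)) ^ 2 / 2 - Mt * (Y T0)⁻¹ ≤
      cmp (RR m (P T) (Q T)) ^ 2 / 2 - Mt * (Y T)⁻¹ := by
    refine le_of_deriv (f := fun s => cmp (RR m (P s) (Q s)) ^ 2 / 2 - Mt * (Y s)⁻¹)
      (f' := fun s => (((2 : ℕ) : ℝ) * cmp (RR m (P s) (Q s)) ^ (2 - 1) *
        cmp (RR m (FA P0 m (A s) (B s)) (FB P0 m (A s) (B s)))) / 2 -
        Mt * (-cmp (RR m (P s) (Q s)) / Y s ^ 2)) hT (fun s hs => ?_) (fun s hs => ?_)
    · have hYs : Y s ≠ 0 := by have := hY0 s hs; linarith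
      exact (((hRV s hs).pow 2).div_const 2).fun_sub (((hYd s hs).fun_inv hYs).const_mul Mt)
    · have hv := (hc s hs).v
      have hacc := norm_accR (m := m) (by linarith) (by linarith) (by linarith) (hdA' s hs) (hdC s hs) (hYa s hs) (hYc s hs)
      have h1 := (abs_le.1 ((abs_cmp_le _).trans hacc)).1
      have hYs : 0 < Y s := by have := hY0 s hs; linarith
      simp only [Nat.cast_ofNat, Nat.add_one_sub_one, pow_one]
      have e : 2 * cmp (RR m (P s) (Q s)) * cmp (RR m (FA P0 m (A s) (B s)) (FB P0 m (A s) (B s))) / 2 -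
          Mt * (-cmp (RR m (P s) (Q s)) / Y s ^ 2) = cmp (RR m (P s) (Q s)) *
          (cmp (RR m (FA P0 m (A s) (B s)) (FB P0 m (A s) (B s))) + Mt / Y s ^ 2) := by ring
      rw [e]
      apply mul_nonneg (by linarith)
      have h2 : -(Mt / Y s ^ 2) ≤ cmp (RR m (FA P0 m (A s) (B s)) (FB P0 m (A s) (B s))) := h1
      linarith
  -- energy of the binary
  have hBne : ∀ t ∈ Icc T0 T, B t ≠ 0 := fun t ht => by
    have := (hc t ht).b1
    intro h0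
    rw [h0, norm_zero] at this
    norm_num at this
  have hkB : ∀ t ∈ Icc T0 T, kd P0.dB (B t) = ((‖B t‖ ^ 3)⁻¹ : ℝ) • B t := fun t ht => by
    apply kd_eq
    have := (hc t ht).b1
    linarith
  have hFB : ∀ t ∈ Icc T0 T, FB P0 m (A t) (B t) = (m 0 : ℝ) • (kd P0.dA (A t) - kd P0.dC (A t + B t)) -
      ((m 1 + m 2) * (‖B t‖ ^ 3)⁻¹ : ℝ) • B t := fun t ht => by
    rw [FB, hkB t ht, smul_sub, smul_smul]
  have htid : ∀ t ∈ Icc T0 T, ‖kd P0.dA (A t) - kd P0.dC (A t + B t)‖ ≤ 206 / 100 / Y t ^ 3 := by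
    intro t ht
    have hYs : 0 < Y t := by have := hY0 t ht; linarith
    refine (tidal (hdA' t ht) (hdC t ht) (hYa t ht) (hYc t ht)).trans ?_
    have := (hc t ht).b2
    calc 2 / Y t ^ 3 * ‖B t‖ ≤ 2 / Y t ^ 3 * (103 / 100) := by gcongr
      _ = 206 / 100 / Y t ^ 3 := by ring
  have ipadd : ∀ (u v w : ℂ) (c d : ℝ), ip u (c • v - d • w) = c * ip u v - d * ip u w := by
    intro u v w c d
    simp only [ip, Complex.sub_re, Complex.sub_im, Complex.smul_re, Complex.smul_im, smul_eq_mul]; ring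
  have dtadd : ∀ (u v w : ℂ) (c d : ℝ), dtm u (c • v - d • w) = c * dtm u v - d * dtm u w := by
    intro u v w c d
    simp only [dtm, Complex.sub_re, Complex.sub_im, Complex.smul_re, Complex.smul_im, smul_eq_mul]; ring
  have hH : Hb m (B T) (Q T) + 1 / 10000 * ((Y T) ^ 2)⁻¹ ≤ Hb m (B T0) (Q T0) + 1 / 10000 * ((Y T0) ^ 2)⁻¹ := by
    have key := le_of_deriv (f := fun s => -(Hb m (B s) (Q s) + 1 / 10000 * ((Y s) ^ 2)⁻¹))
      (f' := fun s => -((ip (FB P0 m (A s) (B s)) (Q s) + ip (Q s) (FB P0 m (A s) (B s))) / 2 -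
        (m 1 + m 2) * (-(ip (B s) (Q s)) / ‖B s‖ ^ 3) + 1 / 10000 *
        (-(((2 : ℕ) : ℝ) * (Y s) ^ (2 - 1) * cmp (RR m (P s) (Q s))) / ((Y s) ^ 2) ^ 2))) hT
      (fun s hs => ?_) (fun s hs => ?_)
    · linarith
    · have hYs : Y s ≠ 0 := by have := hY0 s hs; linarith
      have d1 := hasDerivAt_ip (hQ s hs) (hQ s hs)
      have e1 : (fun s => ip (Q s) (Q s)) = fun s => ‖Q s‖ ^ 2 := by funext s; exact ip_self _
      rw [e1] at d1
      have d2 := hasDerivAt_inv_norm (hB s hs) (hBne s hs)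
      have d3 := ((hYd s hs).fun_pow 2).fun_inv (pow_ne_zero 2 hYs)
      exact (((d1.div_const 2).fun_sub (d2.const_mul (m 1 + m 2))).fun_add (d3.const_mul (1 / 10000))).fun_neg
    · have hYs : 0 < Y s := by have := hY0 s hs; linarith
      have hv := (hc s hs).v
      have hq := (hc s hs).q
      have c1 : ip (FB P0 m (A s) (B s)) (Q s) = ip (Q s) (FB P0 m (A s) (B s)) := by simp only [ip]; ring
      have c2 : ip (B s) (Q s) = ip (Q s) (B s) := by simp only [ip]; ring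
      rw [c1, c2, hFB s hs, ipadd]
      have h1 : |ip (Q s) (kd P0.dA (A s) - kd P0.dC (A s + B s))| ≤ 18 / 10 * (206 / 100 / Y s ^ 3) :=
        (abs_ip_le _ _).trans (mul_le_mul hq (htid s hs) (norm_nonneg _) (by norm_num))
      have h2 := (abs_le.1 h1).2
      have e2 : -((m 0 * ip (Q s) (kd P0.dA (A s) - kd P0.dC (A s + B s)) -
          (m 1 + m 2) * (‖B s‖ ^ 3)⁻¹ * ip (Q s) (B s) +
          (m 0 * ip (Q s) (kd P0.dA (A s) - kd P0.dC (A s + B s)) -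
          (m 1 + m 2) * (‖B s‖ ^ 3)⁻¹ * ip (Q s) (B s))) / 2 -
          (m 1 + m 2) * (-(ip (Q s) (B s)) / ‖B s‖ ^ 3) + 1 / 10000 *
          (-(((2 : ℕ) : ℝ) * (Y s) ^ (2 - 1) * cmp (RR m (P s) (Q s))) / ((Y s) ^ 2) ^ 2)) =
          1 / 10000 * (2 * cmp (RR m (P s) (Q s)) / Y s ^ 3) -
          m 0 * ip (Q s) (kd P0.dA (A s) - kd P0.dC (A s + B s)) := by
        push_cast
        field_simp
        ring
      rw [e2]
      have h3 : m 0 * ip (Q s) (kd P0.dA (A s) - kd P0.dC (A s + B s)) ≤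
          1 / 10 ^ 6 * (18 / 10 * (206 / 100 / Y s ^ 3)) := by
        have h4 : m 0 * ip (Q s) (kd P0.dA (A s) - kd P0.dC (A s + B s)) ≤
            m 0 * (18 / 10 * (206 / 100 / Y s ^ 3)) := by
          apply mul_le_mul_of_nonneg_left h2; linarith
        refine h4.trans ?_
        gcongr
        linarith
      have h5 : 1 / 10000 * (2 * (60 / 100) / Y s ^ 3) ≤
          1 / 10000 * (2 * cmp (RR m (P s) (Q s)) / Y s ^ 3) := by gcongr
      have h6 : (1 : ℝ) / 10 ^ 6 * (18 / 10 * (206 / 100 / Y s ^ 3)) ≤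
          1 / 10000 * (2 * (60 / 100) / Y s ^ 3) := by
        have e7 : (1 : ℝ) / 10 ^ 6 * (18 / 10 * (206 / 100 / Y s ^ 3)) =
          (1 / 10 ^ 6 * (18 / 10 * (206 / 100))) / Y s ^ 3 := by ring
        have e8 : (1 : ℝ) / 10000 * (2 * (60 / 100) / Y s ^ 3) = (1 / 10000 * (2 * (60 / 100))) / Y s ^ 3 := by
          ring
        rw [e7, e8]
        apply div_le_div_of_nonneg_right _ (by positivity)
        norm_num
      linarith
  have hLl : dtm (B T0) (Q T0) - 1 / 10000 * ((Y T0) ^ 2)⁻¹ ≤ dtm (B T) (Q T) - 1 / 10000 * ((Y T) ^ 2)⁻¹ := by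
    refine le_of_deriv (f := fun s => dtm (B s) (Q s) - 1 / 10000 * ((Y s) ^ 2)⁻¹)
      (f' := fun s => (dtm (Q s) (Q s) + dtm (B s) (FB P0 m (A s) (B s))) - 1 / 10000 *
        (-(((2 : ℕ) : ℝ) * (Y s) ^ (2 - 1) * cmp (RR m (P s) (Q s))) / ((Y s) ^ 2) ^ 2)) hT
      (fun s hs => ?_) (fun s hs => ?_)
    · have hYs : Y s ≠ 0 := by have := hY0 s hs; linarith
      have d1 := hasDerivAt_dtm (hB s hs) (hQ s hs)
      have d3 := ((hYd s hs).fun_pow 2).fun_inv (pow_ne_zero 2 hYs)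
      exact d1.fun_sub (d3.const_mul (1 / 10000))
    · have hYs : 0 < Y s := by have := hY0 s hs; linarith
      have hv := (hc s hs).v
      have hb := (hc s hs).b2
      have c1 : dtm (Q s) (Q s) = 0 := by simp only [dtm]; ring
      have c2 : dtm (B s) (B s) = 0 := by simp only [dtm]; ring
      rw [c1, hFB s hs, dtadd, c2]
      have h1 : |dtm (B s) (kd P0.dA (A s) - kd P0.dC (A s + B s))| ≤ 103 / 100 * (206 / 100 / Y s ^ 3) :=
        (abs_dtm_le _ _).trans (mul_le_mul hb (htid s hs) (norm_nonneg _) (by norm_num))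
      have h2 := (abs_le.1 h1).1
      have e2 : (0 + (m 0 * dtm (B s) (kd P0.dA (A s) - kd P0.dC (A s + B s)) -
          (m 1 + m 2) * (‖B s‖ ^ 3)⁻¹ * 0)) - 1 / 10000 *
          (-(((2 : ℕ) : ℝ) * (Y s) ^ (2 - 1) * cmp (RR m (P s) (Q s))) / ((Y s) ^ 2) ^ 2) =
          1 / 10000 * (2 * cmp (RR m (P s) (Q s)) / Y s ^ 3) +
          m 0 * dtm (B s) (kd P0.dA (A s) - kd P0.dC (A s + B s)) := by
        push_cast
        field_simp
        ring
      rw [e2]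
      have h3 : -(1 / 10 ^ 6 * (103 / 100 * (206 / 100 / Y s ^ 3))) ≤
          m 0 * dtm (B s) (kd P0.dA (A s) - kd P0.dC (A s + B s)) := by
        have h4 : m 0 * (-(103 / 100 * (206 / 100 / Y s ^ 3))) ≤
            m 0 * dtm (B s) (kd P0.dA (A s) - kd P0.dC (A s + B s)) := by
          apply mul_le_mul_of_nonneg_left h2; linarith
        refine le_trans ?_ h4
        have h5 : m 0 * (103 / 100 * (206 / 100 / Y s ^ 3)) ≤
            1 / 10 ^ 6 * (103 / 100 * (206 / 100 / Y s ^ 3)) := by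
          gcongr
          linarith
        linarith
      have h5 : 1 / 10000 * (2 * (60 / 100) / Y s ^ 3) ≤
          1 / 10000 * (2 * cmp (RR m (P s) (Q s)) / Y s ^ 3) := by gcongr
      have h6 : (1 : ℝ) / 10 ^ 6 * (103 / 100 * (206 / 100 / Y s ^ 3)) ≤
          1 / 10000 * (2 * (60 / 100) / Y s ^ 3) := by
        have e7 : (1 : ℝ) / 10 ^ 6 * (103 / 100 * (206 / 100 / Y s ^ 3)) =
          (1 / 10 ^ 6 * (103 / 100 * (206 / 100))) / Y s ^ 3 := by ring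
        have e8 : (1 : ℝ) / 10000 * (2 * (60 / 100) / Y s ^ 3) = (1 / 10000 * (2 * (60 / 100))) / Y s ^ 3 := by
          ring
        rw [e7, e8]
        apply div_le_div_of_nonneg_right _ (by positivity)
        norm_num
      linarith
  -- conclusions
  have hYT := hY0 T hTT
  have hYT0 := hY0 T0 hT0
  have hYTpos : 0 < Y T := by linarith
  have hYT0pos : 0 < Y T0 := by linarith
  have i1 : (Y T0)⁻¹ ≤ 1000 / 2971 := by
    rw [inv_le_comm₀ hYT0pos (by norm_num)]; norm_num; linarith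
  have i2 : ((Y T0) ^ 2)⁻¹ ≤ (1000 / 2971) ^ 2 := by
    rw [← inv_pow]; gcongr
  have i3 : 0 ≤ ((Y T) ^ 2)⁻¹ := by positivity
  have i4 : 0 ≤ (Y T)⁻¹ := by positivity
  have hHT : Hb m (B T) (Q T) ≤ -(14998 / 10 ^ 4) := by
    norm_num at i2 hh ⊢
    linarith
  have hLT : 17318 / 10000 ≤ dtm (B T) (Q T) := by
    norm_num at i2 hl ⊢
    linarith
  have hWT : 45 / 100 ≤ cmp (RR m (P T) (Q T)) ^ 2 := by
    have j1 : Mt * (Y T0)⁻¹ ≤ 30001 / 10000 * (1000 / 2971) := by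
      apply mul_le_mul (by rw [hMt]; linarith) i1 (by positivity) (by norm_num)
    have j2 : (1577 / 1000 : ℝ) ^ 2 ≤ cmp (RR m (P T0) (Q T0)) ^ 2 := by gcongr
    have j3 : 0 ≤ Mt * (Y T)⁻¹ := by apply mul_nonneg _ i4; rw [hMt]; linarith
    norm_num at j1 j2 ⊢
    linarith
  have hVT := (hc T hTT).v
  set r := ‖B T‖ with hr
  have hr1 := (hc T hTT).b1
  have hr2 := (hc T hTT).b2
  rw [← hr] at hr1 hr2
  have hr0 : 0 < r := by linarith
  have hlr : dtm (B T) (Q T) ^ 2 ≤ r ^ 2 * ‖Q T‖ ^ 2 := by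
    rw [hr, ← lagr]; nlinarith [sq_nonneg (ip (B T) (Q T))]
  have hll : (17318 / 10000 : ℝ) ^ 2 ≤ dtm (B T) (Q T) ^ 2 := by gcongr
  have hQ2 : ‖Q T‖ ^ 2 = 2 * (Hb m (B T) (Q T) + (m 1 + m 2) * (1 / r)) := by
    rw [Hb, ← hr]; ring
  have hmain : (17318 / 10000 : ℝ) ^ 2 ≤ 2 * (-(14998 / 10 ^ 4)) * r ^ 2 + 2 * (3000002 / 10 ^ 6) * r := by
    have k1 : r ^ 2 * ‖Q T‖ ^ 2 = 2 * Hb m (B T) (Q T) * r ^ 2 + 2 * (m 1 + m 2) * r := by
      rw [hQ2]; field_simp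
    have k2 : 2 * Hb m (B T) (Q T) * r ^ 2 ≤ 2 * (-(14998 / 10 ^ 4)) * r ^ 2 := by gcongr
    have k3 : 2 * (m 1 + m 2) * r ≤ 2 * (3000002 / 10 ^ 6) * r := by
      apply mul_le_mul_of_nonneg_right _ hr0.le
      linarith
    linarith
  refine ⟨hXt T hTT, ⟨?_, ?_, ?_, ?_⟩, ?_, ?_⟩
  · nlinarith
  · rcases lt_or_eq_of_le hr1 with h | h
    · exact h
    · exfalso
      rw [← h] at hmain
      norm_num at hmain
  · rcases lt_or_eq_of_le hr2 with h | h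
    · exact h
    · exfalso
      rw [h] at hmain
      norm_num at hmain
  · have k4 : 1 / r ≤ 100 / 97 := by
      rw [div_le_div_iff₀ hr0 (by norm_num)]; linarith
    have k5 : (m 1 + m 2) * (1 / r) ≤ 3000002 / 10 ^ 6 * (100 / 97) := by
      apply mul_le_mul (by linarith) k4 (by positivity) (by norm_num)
    have k6 : ‖Q T‖ ^ 2 < (18 / 10) ^ 2 := by
      rw [hQ2]
      norm_num at hHT k5 ⊢
      linarith
    exact lt_of_pow_lt_pow_left₀ 2 (by norm_num) k6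
  · linarith [hYa T hTT]
  · linarith [hYc T hTT]

end Pool.Agent.T9h50.TR
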