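import Pool.Agent.T9h50.TR.Loc

/-!
# The departure from the relative equilibrium
-/

set_option autoImplicit false
set_option exponentiation.threshold 3000

open scoped NNReal ComplexConjugate Topology
open Complex Set Filter

namespace Pool.Agent.T9h50.TR

open Pool.Agent.T9h50.TL (Spl lin bvp apriori)

open Pool.Agent.T9h50.TB (E kd kd_eq ip dtm ip_self)

lemma exp_al' : Real.exp (alW * (-24)) ≤ 6 / 10 ^ 12 := by
  have h1 := Real.exp_one_gt_d9
  have e : Real.exp (alW * (-24)) ≤ (Real.exp 1 ^ 26)⁻¹ := by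
    rw [← Real.exp_nat_mul, ← Real.exp_neg]
    apply Real.exp_le_exp.2
    have := alW_gt
    norm_num at this ⊢
    linarith
  refine e.trans ?_
  have h2 : (2.7182818283 : ℝ) ^ 26 ≤ Real.exp 1 ^ 26 := by gcongr
  refine (inv_anti₀ (by norm_num) h2).trans ?_
  norm_num

lemma exp_800 : 1 / 10 ^ 400 ≤ Real.exp (4 / 5 * (-1000)) := by
  have h1 := Real.exp_one_lt_d9
  have e : Real.exp (4 / 5 * (-1000)) = (Real.exp 1 ^ 800)⁻¹ := by
    rw [← Real.exp_nat_mul, ← Real.exp_neg]; congr 1; norm_num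
  rw [e, ← one_div]
  apply one_div_le_one_div_of_le (by positivity)
  calc Real.exp 1 ^ 800 ≤ 3 ^ 800 := by
        gcongr; linarith
    _ ≤ 10 ^ 400 := by norm_num

lemma exp_150 : Real.exp (-150) ≤ 1 / 10 ^ 65 := by
  have h1 := Real.exp_one_gt_d9
  have e : Real.exp (-150) = (Real.exp 1 ^ 150)⁻¹ := by
    rw [← Real.exp_nat_mul, ← Real.exp_neg]; congr 1; norm_num
  rw [e]
  have h2 : (2.7182818283 : ℝ) ^ 150 ≤ Real.exp 1 ^ 150 := by gcongr
  refine (inv_anti₀ (by norm_num) h2).trans ?_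
  norm_num

/-- the defect of the curve in terms of a slower exponential function -/
lemma defect_le {s : ℝ} (hs : s ≤ 0) :
    2 / 10 ^ 52 * Real.exp (alW * (s + -24)) + 6 / 10 ^ 21 * Real.exp (4 * alW * (s + -24)) ≤
      1.21 / 10 ^ 63 * Real.exp (4 / 5 * s) := by
  have ha := alW_gt
  have h1 : Real.exp (alW * (s + -24)) ≤ 6 / 10 ^ 12 * Real.exp (4 / 5 * s) := by
    have e : Real.exp (alW * (s + -24)) = Real.exp (alW * -24) * Real.exp (alW * s) := by
      rw [← Real.exp_add]; congr 1; ring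
    rw [e]
    have h2 : Real.exp (alW * s) ≤ Real.exp (4 / 5 * s) := by
      apply Real.exp_le_exp.2
      norm_num at ha
      nlinarith
    exact mul_le_mul exp_al' h2 (Real.exp_pos _).le (by norm_num)
  have h3 : Real.exp (4 / 5 * s) ≤ 1 := Real.exp_le_one_iff.2 (by linarith)
  have h0 := Real.exp_pos (4 / 5 * s)
  have h4 : Real.exp (4 * alW * (s + -24)) ≤ (6 / 10 ^ 12) ^ 4 * Real.exp (4 / 5 * s) := by
    rw [← exp_four]
    have h5 : Real.exp (alW * (s + -24)) ^ 4 ≤ (6 / 10 ^ 12 * Real.exp (4 / 5 * s)) ^ 4 := by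
      gcongr
    refine h5.trans ?_
    rw [mul_pow]
    have h6 : Real.exp (4 / 5 * s) ^ 4 ≤ Real.exp (4 / 5 * s) := by
      calc Real.exp (4 / 5 * s) ^ 4 ≤ Real.exp (4 / 5 * s) ^ 1 :=
            pow_le_pow_of_le_one h0.le h3 (by norm_num)
        _ = _ := pow_one _
    gcongr
  calc _ ≤ 2 / 10 ^ 52 * (6 / 10 ^ 12 * Real.exp (4 / 5 * s)) +
        6 / 10 ^ 21 * ((6 / 10 ^ 12) ^ 4 * Real.exp (4 / 5 * s)) := by gcongr
    _ = (2 / 10 ^ 52 * (6 / 10 ^ 12) + 6 / 10 ^ 21 * (6 / 10 ^ 12) ^ 4) * Real.exp (4 / 5 * s) := by ring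
    _ ≤ _ := by
        apply mul_le_mul_of_nonneg_right _ h0.le
        norm_num

theorem loc {κ : ℝ} {m : Fin 3 → ℝ} {γ : ℝ → E} (h : Frm κ m γ) {V : Set E} (hV : V ∈ 𝓝 (γ 0)) :
    ∃ x ∈ V, ∃ T : ℝ, 0 ≤ T ∧ ∃ y : ℝ → E, y 0 = x ∧
      (∀ t ∈ Icc 0 T, HasDerivAt y (fld P0 m (y t)) t) ∧ (∀ t ∈ Icc 0 T, Far P0 0 (y t)) ∧
      ∃ u : ℂ, ‖u‖ = 1 ∧ ‖u • y T - cE0 (-24)‖ ≤ 6 / 10 ^ 58 := by
  have hκ0 := h.κ0
  have hκ1 : κ ≤ 1 / 10 ^ 65 * (1 / 10 ^ 400) := h.κ1.trans (by norm_num)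
  have hκ2 : κ ≤ 1 / 10 ^ 65 := h.κ1.trans (by norm_num)
  obtain ⟨r, hr0, hr⟩ := Metric.mem_nhds_iff.1 hV
  set R : ℝ := 8 / 10 ^ 11 with hR
  -- the length of the time interval
  obtain ⟨T, hT1, hT2⟩ : ∃ T : ℝ, 1000 ≤ T ∧ Real.exp (19 / 20 * (0 - T)) < r := by
    have h1 : Tendsto (fun T : ℝ => Real.exp (19 / 20 * (0 - T))) atTop (𝓝 0) := by
      apply Real.tendsto_exp_atBot.comp
      have h2 : Tendsto (fun T : ℝ => -(19 / 20) * T) atTop atBot :=
        tendsto_id.const_mul_atTop_of_neg (by norm_num)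
      refine h2.congr fun T => ?_
      show -(19 / 20) * T = 19 / 20 * (0 - T)
      ring
    exact ((eventually_ge_atTop (1000 : ℝ)).and (h1.eventually_lt_const hr0)).exists
  have hT0 : 0 ≤ T := by linarith
  -- the boundary value problem
  set c : ℝ → E := fun t => cE0 (t - T + -24) with hc
  set c' : ℝ → E := fun t => cE0' (t - T + -24) with hc'
  have hcd : ∀ t, HasDerivAt c (c' t) t := by
    intro t
    have h1 : HasDerivAt (fun s : ℝ => s - T + -24) 1 t := by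
      simpa using ((hasDerivAt_id t).sub_const T).add_const (-24)
    have := (hasDerivAt_cE0 (t - T + -24)).scomp t h1
    rw [one_smul] at this
    exact this
  have hcn : ∀ t, t ≤ T → ‖c t - xre‖ ≤ 2 / 100 * Real.exp (alW * (t - T + -24)) := fun t ht =>
    cE0_near (by linarith)
  have hexp24 : ∀ t, t ≤ T → Real.exp (alW * (t - T + -24)) ≤ 6 / 10 ^ 12 := by
    intro t ht
    refine le_trans (Real.exp_le_exp.2 ?_) exp_al'
    have := alW_gt
    norm_num at this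
    nlinarith
  set zT : ℂ := (Sm (c T - xre)).1 with hzT
  have hzTn : 8 * ‖zT‖ ≤ R := by
    have h1 : ‖zT‖ ≤ ‖Sm (c T - xre)‖ := norm_fst_le _
    have h2 := Sm_bound (c T - xre)
    have h3 := hcn T le_rfl
    have h4 := hexp24 T le_rfl
    rw [hR]
    norm_num at h3 h4 ⊢
    linarith
  set N : ℝ → ℂ × FF → ℂ × FF := fun t w => Sm (NE m γ t (SiF w)) with hN
  have hρ0 : (1 : ℝ) / 10 ^ 8 ≤ 1 / 400 := by norm_num
  have hρr : 4 * κ + 113 * R ≤ 1 / 10 ^ 8 := by
    rw [hR]; norm_num at hκ2 ⊢; linarith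
  have hNlip : ∀ t ∈ Icc 0 T, ∀ x y : ℂ × FF, ‖x‖ ≤ R → ‖y‖ ≤ R → ‖N t x - N t y‖ ≤ 8 / 1000 * ‖x - y‖ := by
    intro t ht x y hx hy
    have b1 : ‖SiF x‖ ≤ 113 * R := (SiF_bound x).trans (by gcongr)
    have b2 : ‖SiF y‖ ≤ 113 * R := (SiF_bound y).trans (by gcongr)
    have b3 := NE_lip h ht.1 hρ0 hρr b1 b2
    have b4 : ‖SiF x - SiF y‖ ≤ 113 * ‖x - y‖ := by rw [SiF_sub]; exact SiF_bound _
    simp only [hN]
    rw [← map_sub]
    refine (Sm_bound _).trans ?_
    calc 80 * ‖NE m γ t (SiF x) - NE m γ t (SiF y)‖ ≤ 80 * ((24 * κ + 80 * (1 / 10 ^ 8)) * ‖SiF x - SiF y‖) := by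
          gcongr
      _ ≤ 80 * ((24 * (1 / 10 ^ 65) + 80 * (1 / 10 ^ 8)) * (113 * ‖x - y‖)) := by gcongr
      _ = (80 * (24 * (1 / 10 ^ 65) + 80 * (1 / 10 ^ 8)) * 113) * ‖x - y‖ := by ring
      _ ≤ _ := by
          apply mul_le_mul_of_nonneg_right _ (norm_nonneg _)
          norm_num
  have hNc : ContinuousOn (fun p : ℝ × (ℂ × FF) => N p.1 p.2) (Icc 0 T ×ˢ univ) := by
    have h1 : Continuous (fun p : ℝ × (ℂ × FF) => (p.1, SiF p.2)) :=
      continuous_fst.prodMk (continuous_SiF.comp continuous_snd)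
    have h2 := (NE_cont h (T := T)).comp h1.continuousOn (s := Icc 0 T ×ˢ univ)
      (fun p hp => ⟨hp.1, mem_univ _⟩)
    exact Sm.continuous.comp_continuousOn h2
  obtain ⟨w, w1, w2, w3, w4⟩ := bvp (ν := 19 / 20) (spl (by norm_num) (by norm_num) le_rfl) hT0
    (by rw [hR]; norm_num) (ε := 8 / 1000) (by norm_num) (by norm_num) hzTn
    (fun t _ => by simp only [hN, SiF_zero, NE_zero, map_zero]) hNc hNlip
  have hw1 : ∀ t ∈ Icc 0 T, ‖w t‖ ≤ R := by
    intro t ht
    refine (w4 t ht).trans ?_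
    have : Real.exp (19 / 20 * (t - T)) ≤ 1 := Real.exp_le_one_iff.2 (by linarith [ht.2])
    have hR0 : 0 ≤ R := by rw [hR]; norm_num
    exact mul_le_of_le_one_right hR0 this
  set D : ℝ → E := fun t => SiF (w t) with hD
  have hDd : ∀ t ∈ Icc 0 T, HasDerivAt D (Gf (D t) + NE m γ t (D t)) t := by
    intro t ht
    have k := (SiC.hasFDerivAt (x := w t)).comp_hasDerivAt t (w3 t ht)
    refine k.congr_deriv ?_
    rw [map_add, SiC_apply, SiC_apply, Si_lin]
    simp only [hN, Si_S]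
    rfl
  have hDn : ∀ t ∈ Icc 0 T, ‖D t‖ ≤ 113 * R := fun t ht => (SiF_bound _).trans (by
    have := hw1 t ht
    gcongr)
  set y : ℝ → E := fun t => γ t + conj (vf γ t) • D t with hy
  have hyd : ∀ t ∈ Icc 0 T, HasDerivAt y (fld P0 m (y t)) t := fun t ht => sol_of_D h hDd ht
  have hvy : ∀ t, 0 ≤ t → vf γ t • y t = vf γ t • γ t + D t := by
    intro t ht
    have hvv : vf γ t * conj (vf γ t) = 1 := by
      rw [Complex.mul_conj, Complex.normSq_eq_norm_sq, h.vn ht]; norm_num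
    simp only [hy]
    rw [smul_add, smul_smul, hvv, one_smul]
  -- the difference with the curve
  set wd : ℝ → ℂ × FF := fun t => w t - Sm (c t - xre) with hwd
  set wd' : ℝ → ℂ × FF := fun t => (lin lam MC LC (w t) + N t (w t)) - Sm (c' t) with hwd'
  have hsub : Icc (T - 1000) T ⊆ Icc 0 T := Icc_subset_Icc (by linarith) le_rfl
  have hwdd : ∀ t ∈ Icc (T - 1000) T, HasDerivAt wd (wd' t) t := by
    intro t ht
    have k1 := (Sm.hasFDerivAt (x := c t - xre)).comp_hasDerivAt t ((hcd t).sub_const xre)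
    exact (w3 t (hsub ht)).sub k1
  have hSd : ∀ t, D t - (c t - xre) = SiF (wd t) := by
    intro t
    simp only [hD, hwd]
    rw [← SiF_sub, Si_S]
  have hest : ∀ t ∈ Icc (T - 1000) T, ‖wd' t - lin lam MC LC (wd t)‖ ≤ 8 / 1000 * ‖wd t‖ +
      1 / 10 ^ 61 * Real.exp (4 / 5 * (t - T)) := by
    intro t ht
    have ht0 := (hsub ht)
    have e : wd' t - lin lam MC LC (wd t) = Sm (NE m γ t (D t) - (c' t - Gf (c t - xre))) := by
      simp only [hwd', hwd, hN]
      rw [lin_sub', ← Sm_G, map_sub, map_sub]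
      abel
    have hd := (cE0_defect (t := t - T + -24) (by linarith [ht.2])).1
    have hcr : ‖c t - xre‖ ≤ 1 / 10 ^ 8 := by
      have h3 := hcn t ht.2
      have h4 := hexp24 t ht.2
      norm_num at h3 h4 ⊢
      linarith
    have k := NE_cmp h ht0.1 hρ0 hρr (hDn t ht0) hcr hd
    rw [hSd] at k
    have k2 := SiF_bound (wd t)
    have k3 := defect_le (s := t - T) (by linarith [ht.2])
    have k4 : 1 / 10 ^ 400 ≤ Real.exp (4 / 5 * (t - T)) :=
      exp_800.trans (Real.exp_le_exp.2 (by linarith [ht.1]))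
    have k5 : κ ≤ 1 / 10 ^ 65 * Real.exp (4 / 5 * (t - T)) := hκ1.trans (by gcongr)
    rw [e]
    refine (Sm_bound _).trans ?_
    have k6 : 24 * κ * (113 * R) ≤ κ := by
      have : 24 * (113 * R) ≤ 1 := by rw [hR]; norm_num
      nlinarith
    have k7 := norm_nonneg (wd t)
    norm_num at k k2 k3 k5 k6 ⊢
    linarith
  have hAd : ‖(wd T).1‖ ≤ 0 := by
    have : (wd T).1 = 0 := by
      simp only [hwd, Prod.fst_sub]
      rw [w1, hzT, sub_self]
    rw [this, norm_zero]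
  have hBd : ‖(wd (T - 1000)).2‖ ≤ 1 / 10 ^ 61 * Real.exp (4 / 5 * ((T - 1000) - T)) := by
    have hm : T - 1000 ∈ Icc 0 T := ⟨by linarith, by linarith⟩
    have k1 := w4 _ hm
    have k2 := Sm_bound (c (T - 1000) - xre)
    have k3 := hcn (T - 1000) (by linarith)
    have e0 : T - 1000 - T = -1000 := by ring
    rw [e0] at k1 k3 ⊢
    have k4 : Real.exp (19 / 20 * -1000) = Real.exp (4 / 5 * -1000) * Real.exp (-150) := by
      rw [← Real.exp_add]; congr 1; norm_num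
    have k5 : Real.exp (alW * (-1000 + -24)) ≤ Real.exp (4 / 5 * -1000) * Real.exp (-150) := by
      rw [← Real.exp_add]
      apply Real.exp_le_exp.2
      have := alW_gt
      norm_num at this ⊢
      linarith
    have k6 := exp_150
    have k7 := Real.exp_pos (4 / 5 * -1000)
    have k8 : Real.exp (4 / 5 * -1000) * Real.exp (-150) ≤ Real.exp (4 / 5 * -1000) * (1 / 10 ^ 65) := by
      gcongr
    have k9 : ‖(wd (T - 1000)).2‖ ≤ ‖w (T - 1000)‖ + ‖Sm (c (T - 1000) - xre)‖ :=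
      (norm_snd_le _).trans (norm_sub_le _ _)
    rw [k4] at k1
    refine k9.trans ?_
    have k10 : ‖w (T - 1000)‖ ≤ 8 / 10 ^ 11 * (Real.exp (4 / 5 * -1000) * (1 / 10 ^ 65)) :=
      k1.trans (mul_le_mul_of_nonneg_left k8 (by norm_num))
    have k11 : ‖Sm (c (T - 1000) - xre)‖ ≤ 80 * (2 / 100 * (Real.exp (4 / 5 * -1000) * (1 / 10 ^ 65))) :=
      k2.trans (mul_le_mul_of_nonneg_left (k3.trans (mul_le_mul_of_nonneg_left (k5.trans k8)
        (by norm_num))) (by norm_num))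
    generalize Real.exp (4 / 5 * -1000) = X at k10 k11 k7 ⊢
    norm_num at k10 k11 ⊢
    linarith
  have hfin := apriori (ν := 4 / 5) (spl (by norm_num) (by norm_num) (by norm_num)) (ε := 8 / 1000)
    (by norm_num) (by norm_num) (η := 1 / 10 ^ 61) (by norm_num) (by linarith) hwdd hest hAd hBd
    (t := T) ⟨by linarith, le_rfl⟩
  have hTT : Real.exp (4 / 5 * (T - T)) = 1 := by rw [sub_self, mul_zero, Real.exp_zero]
  rw [hTT, mul_one] at hfin
  refine ⟨y 0, ?_, T, hT0, y, rfl, hyd, fun t ht => ?_, vf γ T, h.vn hT0, ?_⟩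
  · apply hr
    rw [Metric.mem_ball, dist_eq_norm]
    simp only [hy]
    rw [add_sub_cancel_left, norm_smul, Complex.norm_conj, h.vn le_rfl, one_mul]
    have k1 := w4 0 ⟨le_rfl, hT0⟩
    have k2 := SiF_bound (w 0)
    have k3 := Real.exp_pos (19 / 20 * (0 - T))
    rw [hR] at k1
    simp only [hD]
    norm_num at k1 k2 k3 hT2 ⊢
    linarith
  · apply Far.rot (h.vn ht.1)
    rw [hvy t ht.1]
    have hd : dist (vf γ t • γ t + D t) xre ≤ 1 / 10 ^ 8 := by
      rw [dist_eq_norm]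
      have e3 : vf γ t • γ t + D t - xre = (vf γ t • γ t - xre) + D t := by abel
      rw [e3]
      exact (norm_add_le _ _).trans ((add_le_add (h.cl t ht.1) (hDn t ht)).trans hρr)
    exact (far_xre.of_dist hd).mono (by norm_num)
  · rw [hvy T hT0]
    have e3 : vf γ T • γ T + D T - cE0 (-24) = (vf γ T • γ T - xre) + SiF (wd T) := by
      rw [← hSd]
      simp only [hc, sub_self, zero_add]
      abel
    rw [e3]
    refine (norm_add_le _ _).trans ?_
    have k1 := h.cl T hT0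
    have k2 := SiF_bound (wd T)
    norm_num at k1 k2 hfin hκ2 ⊢
    linarith

end Pool.Agent.T9h50.TR
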