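import Pool.Agent.T9h50.TR.Fld

/-!
# From relative coordinates to solutions of Newton's equations
-/

set_option autoImplicit false

open scoped NNReal ComplexConjugate Topology
open Complex Set Filter

namespace Pool.Agent.T9h50.TR

open Pool.Agent.T9h50.TB (E kd kd_eq)

/-- phase points: positions and velocities of the three bodies in the plane -/
abbrev Ph : Type := (Fin 3 → ℂ) × (Fin 3 → ℂ)

/-- the Newtonian acceleration of body `a` -/
noncomputable def acc (m : Fin 3 → ℝ) (q : Fin 3 → ℂ) (a : Fin 3) : ℂ :=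
  ∑ b ∈ Finset.univ.erase a, ((m b / ‖q b - q a‖ ^ 3 : ℝ) : ℂ) * (q b - q a)

/-- `x` is a solution of Newton's equations on the set `J` of times -/
def IsSol (m : Fin 3 → ℝ) (J : Set ℝ) (x : ℝ → Ph) : Prop :=
  ∀ t ∈ J, (∀ a b, a ≠ b → (x t).1 a ≠ (x t).1 b) ∧
    HasDerivWithinAt x ((x t).2, acc m (x t).1) J t

/-- the solution with the initial condition `z` is unbounded -/
def Unb (m : Fin 3 → ℝ) (z : Ph) : Prop :=
  ∃ x : ℝ → Ph, x 0 = z ∧ IsSol m (Ici 0) x ∧
    ∃ a b, ∀ R : ℝ, ∃ t : ℝ, 0 ≤ t ∧ R < ‖(x t).1 a - (x t).1 b‖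

/-- relative coordinates -/
noncomputable def rel (P : Par) (z : Ph) : E :=
  (z.1 0 - z.1 1, z.1 1 - z.1 2, P.sg⁻¹ • (z.2 0 - z.2 1), P.sg⁻¹ • (z.2 1 - z.2 2))

/-- the position of the second body relative to the centre of mass -/
noncomputable def cm (m : Fin 3 → ℝ) (a b : ℂ) : ℂ := ((m 0 + m 1 + m 2)⁻¹ : ℝ) • ((m 2 : ℝ) • b - (m 0 : ℝ) • a)

/-- the phase point with given centre of mass and relative coordinates -/
noncomputable def emb (P : Par) (m : Fin 3 → ℝ) (c d : ℂ) (x : E) : Ph :=
  (![c + cm m x.1 x.2.1 + x.1, c + cm m x.1 x.2.1, c + cm m x.1 x.2.1 - x.2.1],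
    ![d + cm m (P.sg • x.2.2.1) (P.sg • x.2.2.2) + P.sg • x.2.2.1, d + cm m (P.sg • x.2.2.1) (P.sg • x.2.2.2),
      d + cm m (P.sg • x.2.2.1) (P.sg • x.2.2.2) - P.sg • x.2.2.2])

lemma continuous_emb (P : Par) (m : Fin 3 → ℝ) (c d : ℂ) : Continuous (emb P m c d) := by
  unfold emb cm
  refine Continuous.prodMk (continuous_pi fun i => ?_) (continuous_pi fun i => ?_)
  · fin_cases i <;> simp <;> fun_prop
  · fin_cases i <;> simp <;> fun_prop

lemma emb_rel (P : Par) (m : Fin 3 → ℝ) (z : Ph) :
    emb P m (z.1 1 - cm m (z.1 0 - z.1 1) (z.1 1 - z.1 2))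
      (z.2 1 - cm m (z.2 0 - z.2 1) (z.2 1 - z.2 2)) (rel P z) = z := by
  have hs : ∀ w : ℂ, P.sg • (P.sg⁻¹ • w) = w := fun w => by
    rw [smul_smul, mul_inv_cancel₀ P.sg0.ne', one_smul]
  obtain ⟨q, v⟩ := z
  simp only [emb, rel, hs]
  refine Prod.ext ?_ ?_
  · funext i
    fin_cases i <;> simp
  · funext i
    fin_cases i <;> simp

/-- solutions of the softened equations which are far from collisions give solutions of Newton's
equations -/
theorem newton_at {P : Par} {m : Fin 3 → ℝ} (hM : m 0 + m 1 + m 2 ≠ 0) {y : ℝ → E} {t : ℝ}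
    (hyt : HasDerivAt y (fld P m (y t)) t) (hft : Far P 0 (y t)) (c d : ℂ) :
    (∀ a b, a ≠ b → (emb P m (c + t • d) d (y t)).1 a ≠ (emb P m (c + t • d) d (y t)).1 b) ∧
      HasDerivAt (fun t => emb P m (c + t • d) d (y t))
        ((emb P m (c + t • d) d (y t)).2, acc m (emb P m (c + t • d) d (y t)).1) t := by
  obtain ⟨f1, f2, f3⟩ := hft
  rw [add_zero] at f1 f2 f3
  set a := (y t).1 with ha
  set b := (y t).2.1 with hb
  have ha0 : 0 < ‖a‖ := P.dA0.trans_le f1
  have hc0 : 0 < ‖a + b‖ := P.dC0.trans_le f2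
  have hb0 : 0 < ‖b‖ := P.dB0.trans_le f3
  have na : a ≠ 0 := norm_pos_iff.1 ha0
  have nb : b ≠ 0 := norm_pos_iff.1 hb0
  have nc : a + b ≠ 0 := norm_pos_iff.1 hc0
  set k := c + t • d + cm m a b with hk
  have q0 : (emb P m (c + t • d) d (y t)).1 0 = k + a := rfl
  have q1 : (emb P m (c + t • d) d (y t)).1 1 = k := rfl
  have q2 : (emb P m (c + t • d) d (y t)).1 2 = k - b := rfl
  refine ⟨?_, ?_⟩
  · intro i j hij
    fin_cases i <;> fin_cases j <;>
      simp only [Fin.zero_eta, Fin.mk_one, Fin.reduceFinMk, q0, q1, q2, ne_eq] at hij ⊢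
    · exact absurd trivial hij
    · intro h; apply na; linear_combination h
    · intro h; apply nc; linear_combination h
    · intro h; apply na; linear_combination -h
    · exact absurd trivial hij
    · intro h; apply nb; linear_combination h
    · intro h; apply nc; linear_combination -h
    · intro h; apply nb; linear_combination -h
    · exact absurd trivial hij
  · have hsg : ∀ w : ℂ, P.sg • (P.sg⁻¹ • w) = w := fun w => by
      rw [smul_smul, mul_inv_cancel₀ P.sg0.ne', one_smul]
    have d1 : HasDerivAt (fun s => (y s).1) (P.sg • (y t).2.2.1) t := hyt.fst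
    have d2 : HasDerivAt (fun s => (y s).2.1) (P.sg • (y t).2.2.2) t := hyt.snd.fst
    have d3 : HasDerivAt (fun s => P.sg • (y s).2.2.1) (FA P m a b) t := by
      have h : HasDerivAt (fun s => (y s).2.2.1) (P.sg⁻¹ • FA P m a b) t := hyt.snd.snd.fst
      exact (h.const_smul P.sg).congr_deriv (hsg _)
    have d4 : HasDerivAt (fun s => P.sg • (y s).2.2.2) (FB P m a b) t := by
      have h : HasDerivAt (fun s => (y s).2.2.2) (P.sg⁻¹ • FB P m a b) t := hyt.snd.snd.snd
      exact (h.const_smul P.sg).congr_deriv (hsg _)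
    have dc : ∀ {f g : ℝ → ℂ} {f' g' : ℂ}, HasDerivAt f f' t → HasDerivAt g g' t →
        HasDerivAt (fun s => cm m (f s) (g s)) (cm m f' g') t := by
      intro f g f' g' hf hg
      have h1 : HasDerivAt (fun s => (m 2 : ℝ) • g s - (m 0 : ℝ) • f s)
          ((m 2 : ℝ) • g' - (m 0 : ℝ) • f') t := (hg.const_smul (m 2)).fun_sub (hf.const_smul (m 0))
      exact h1.const_smul (m 0 + m 1 + m 2)⁻¹
    have dd : HasDerivAt (fun s : ℝ => c + s • d) d t := by
      have := ((hasDerivAt_id t).smul_const d).const_add c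
      simpa using this
    have dk := dd.fun_add (dc d1 d2)
    have dv : HasDerivAt (fun s => d + cm m (P.sg • (y s).2.2.1) (P.sg • (y s).2.2.2))
        (cm m (FA P m a b) (FB P m a b)) t := (dc d3 d4).const_add d
    have n1 : ∀ z w : ℂ, ‖z - w‖ = ‖w - z‖ := norm_sub_rev
    -- accelerations
    have hA : kd P.dA a = ((‖a‖ ^ 3)⁻¹ : ℝ) • a := kd_eq f1
    have hB : kd P.dB b = ((‖b‖ ^ 3)⁻¹ : ℝ) • b := kd_eq f3
    have hC : kd P.dC (a + b) = ((‖a + b‖ ^ 3)⁻¹ : ℝ) • (a + b) := kd_eq f2
    have a1 : acc m (emb P m (c + t • d) d (y t)).1 1 = cm m (FA P m a b) (FB P m a b) := by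
      have e : (Finset.univ.erase (1 : Fin 3)) = {0, 2} := by decide
      rw [acc, e, Finset.sum_pair (by decide), q0, q1, q2]
      have e1 : k + a - k = a := by ring
      have e2 : k - b - k = -b := by ring
      rw [e1, e2, norm_neg, cm, FA, FB, hA, hB, hC]
      simp only [Complex.real_smul]
      have hM' : ((m 0 + m 1 + m 2 : ℝ) : ℂ) ≠ 0 := by exact_mod_cast hM
      push_cast at hM' ⊢
      field_simp
      ring
    have a0 : acc m (emb P m (c + t • d) d (y t)).1 0 = cm m (FA P m a b) (FB P m a b) + FA P m a b := by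
      rw [← a1]
      have e : (Finset.univ.erase (0 : Fin 3)) = {1, 2} := by decide
      have e' : (Finset.univ.erase (1 : Fin 3)) = {0, 2} := by decide
      rw [acc, acc, e, e', Finset.sum_pair (by decide), Finset.sum_pair (by decide), q0, q1, q2]
      have e1 : k + a - k = a := by ring
      have e2 : k - b - k = -b := by ring
      have e3 : k - (k + a) = -a := by ring
      have e4 : k - b - (k + a) = -(a + b) := by ring
      rw [e1, e2, e3, e4, norm_neg, norm_neg, norm_neg, FA, hA, hB, hC]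
      simp only [Complex.real_smul]
      push_cast
      ring
    have a2 : acc m (emb P m (c + t • d) d (y t)).1 2 = cm m (FA P m a b) (FB P m a b) - FB P m a b := by
      rw [← a1]
      have e : (Finset.univ.erase (2 : Fin 3)) = {0, 1} := by decide
      have e' : (Finset.univ.erase (1 : Fin 3)) = {0, 2} := by decide
      rw [acc, acc, e, e', Finset.sum_pair (by decide), Finset.sum_pair (by decide), q0, q1, q2]
      have e1 : k + a - k = a := by ring
      have e2 : k - b - k = -b := by ring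
      have e3 : k - (k - b) = b := by ring
      have e4 : k + a - (k - b) = a + b := by ring
      rw [e1, e2, e3, e4, norm_neg, FB, hA, hB, hC]
      simp only [Complex.real_smul]
      push_cast
      ring
    refine HasDerivAt.prodMk ?_ ?_
    · rw [hasDerivAt_pi]
      intro i
      fin_cases i
      · exact dk.fun_add d1
      · exact dk
      · exact dk.fun_sub d2
    · rw [hasDerivAt_pi]
      intro i
      fin_cases i
      · exact (dv.fun_add d3).congr_deriv a0.symm
      · exact dv.congr_deriv a1.symm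
      · exact (dv.fun_sub d4).congr_deriv a2.symm

/-- solutions of the softened equations which stay far from collisions give solutions of Newton's
equations -/
theorem newton {P : Par} {m : Fin 3 → ℝ} (hM : m 0 + m 1 + m 2 ≠ 0) {y : ℝ → E}
    (hy : ∀ t, 0 ≤ t → HasDerivAt y (fld P m (y t)) t) (hf : ∀ t, 0 ≤ t → Far P 0 (y t)) (c d : ℂ) :
    IsSol m (Ici 0) (fun t => emb P m (c + t • d) d (y t)) := by
  intro t ht
  obtain ⟨h1, h2⟩ := newton_at hM (hy t ht) (hf t ht) c d
  exact ⟨h1, h2.hasDerivWithinAt⟩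

end Pool.Agent.T9h50.TR
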