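import Pool.Agent.T9h50.TR.Ext

/-!
# Phase space: solutions near equilateral relative equilibria are limits of unbounded solutions
-/

set_option autoImplicit false
set_option exponentiation.threshold 3000

open scoped NNReal ComplexConjugate Topology
open Complex Set Filter

namespace Pool.Agent.T9h50.TR

open Pool.Agent.T9h50.TB (E kd kd_eq)

/-- the phase point `w` is `ε`-close to a rotation of `z` (relative positions and velocities) -/
def Near (ε : ℝ) (z w : Ph) : Prop := ∃ u : ℂ, ‖u‖ = 1 ∧ ∀ a b,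
  ‖(w.1 a - w.1 b) - u * (z.1 a - z.1 b)‖ ≤ ε ∧ ‖(w.2 a - w.2 b) - u * (z.2 a - z.2 b)‖ ≤ ε

lemma near_rel {ε : ℝ} {z w : Ph} (h : Near ε z w) : ∃ u : ℂ, ‖u‖ = 1 ∧ ‖rel P0 w - u • rel P0 z‖ ≤ ε := by
  obtain ⟨u, hu, hh⟩ := h
  have hε : 0 ≤ ε := (norm_nonneg _).trans (hh 0 1).1
  have n5 : ‖(2 / 7 : ℝ)‖ = 2 / 7 := by norm_num
  have hs' : ∀ z : ℂ, ‖z‖ ≤ ε → ‖P0.sg⁻¹ • z‖ ≤ ε := fun z hz => by
    rw [norm_smul, sg_inv, n5]
    linarith
  refine ⟨u, hu, ?_⟩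
  rw [Prod.norm_def, Prod.norm_def, Prod.norm_def]
  refine max_le ?_ (max_le ?_ (max_le ?_ ?_))
  · exact (hh 0 1).1
  · exact (hh 1 2).1
  · show ‖P0.sg⁻¹ • (w.2 0 - w.2 1) - u * (P0.sg⁻¹ • (z.2 0 - z.2 1))‖ ≤ ε
    rw [mul_smul_comm, ← smul_sub]
    exact hs' _ (hh 0 1).2
  · show ‖P0.sg⁻¹ • (w.2 1 - w.2 2) - u * (P0.sg⁻¹ • (z.2 1 - z.2 2))‖ ≤ ε
    rw [mul_smul_comm, ← smul_sub]
    exact hs' _ (hh 1 2).2

/-- the relative coordinates as a linear map -/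
noncomputable def relL : Ph →ₗ[ℝ] E where
  toFun := rel P0
  map_add' x y := by
    have c : ∀ z w : ℂ, P0.sg⁻¹ • (z + w) = P0.sg⁻¹ • z + P0.sg⁻¹ • w := fun z w => smul_add _ _ _
    refine Prod.ext ?_ (Prod.ext ?_ (Prod.ext ?_ ?_))
    · show (x.1 0 + y.1 0) - (x.1 1 + y.1 1) = (x.1 0 - x.1 1) + (y.1 0 - y.1 1); ring
    · show (x.1 1 + y.1 1) - (x.1 2 + y.1 2) = (x.1 1 - x.1 2) + (y.1 1 - y.1 2); ring
    · show P0.sg⁻¹ • ((x.2 0 + y.2 0) - (x.2 1 + y.2 1)) =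
        P0.sg⁻¹ • (x.2 0 - x.2 1) + P0.sg⁻¹ • (y.2 0 - y.2 1)
      rw [← c]; congr 1; ring
    · show P0.sg⁻¹ • ((x.2 1 + y.2 1) - (x.2 2 + y.2 2)) =
        P0.sg⁻¹ • (x.2 1 - x.2 2) + P0.sg⁻¹ • (y.2 1 - y.2 2)
      rw [← c]; congr 1; ring
  map_smul' r x := by
    refine Prod.ext ?_ (Prod.ext ?_ (Prod.ext ?_ ?_))
    · show r • x.1 0 - r • x.1 1 = r • (x.1 0 - x.1 1); rw [smul_sub]
    · show r • x.1 1 - r • x.1 2 = r • (x.1 1 - x.1 2); rw [smul_sub]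
    · show P0.sg⁻¹ • (r • x.2 0 - r • x.2 1) = r • (P0.sg⁻¹ • (x.2 0 - x.2 1))
      rw [← smul_sub, smul_comm]
    · show P0.sg⁻¹ • (r • x.2 1 - r • x.2 2) = r • (P0.sg⁻¹ • (x.2 1 - x.2 2))
      rw [← smul_sub, smul_comm]

noncomputable def relC : Ph →L[ℝ] E := LinearMap.toContinuousLinearMap relL

lemma fld_rel (m : Fin 3 → ℝ) {z : Ph} (hf : Far P0 0 (rel P0 z)) :
    fld P0 m (rel P0 z) = rel P0 (z.2, acc m z.1) := by
  obtain ⟨f1, f2, f3⟩ := hf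
  rw [add_zero] at f1 f2 f3
  have r1 : (rel P0 z).1 = z.1 0 - z.1 1 := rfl
  have r2 : (rel P0 z).2.1 = z.1 1 - z.1 2 := rfl
  rw [r1] at f1
  rw [r1, r2] at f2
  rw [r2] at f3
  have hc : z.1 0 - z.1 1 + (z.1 1 - z.1 2) = z.1 0 - z.1 2 := by ring
  rw [hc] at f2
  have hA : kd P0.dA (z.1 0 - z.1 1) = ((‖z.1 0 - z.1 1‖ ^ 3)⁻¹ : ℝ) • (z.1 0 - z.1 1) := kd_eq f1
  have hB : kd P0.dB (z.1 1 - z.1 2) = ((‖z.1 1 - z.1 2‖ ^ 3)⁻¹ : ℝ) • (z.1 1 - z.1 2) := kd_eq f3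
  have hC : kd P0.dC (z.1 0 - z.1 2) = ((‖z.1 0 - z.1 2‖ ^ 3)⁻¹ : ℝ) • (z.1 0 - z.1 2) := kd_eq f2
  have s0 : (Finset.univ.erase (0 : Fin 3)) = {1, 2} := by decide
  have s1 : (Finset.univ.erase (1 : Fin 3)) = {0, 2} := by decide
  have s2 : (Finset.univ.erase (2 : Fin 3)) = {0, 1} := by decide
  have a0 : acc m z.1 0 = ((m 1 / ‖z.1 0 - z.1 1‖ ^ 3 : ℝ) : ℂ) * (z.1 1 - z.1 0) +
      ((m 2 / ‖z.1 0 - z.1 2‖ ^ 3 : ℝ) : ℂ) * (z.1 2 - z.1 0) := by
    rw [acc, s0, Finset.sum_pair (by decide), norm_sub_rev (z.1 1), norm_sub_rev (z.1 2)]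
  have a1 : acc m z.1 1 = ((m 0 / ‖z.1 0 - z.1 1‖ ^ 3 : ℝ) : ℂ) * (z.1 0 - z.1 1) +
      ((m 2 / ‖z.1 1 - z.1 2‖ ^ 3 : ℝ) : ℂ) * (z.1 2 - z.1 1) := by
    rw [acc, s1, Finset.sum_pair (by decide), norm_sub_rev (z.1 2)]
  have a2 : acc m z.1 2 = ((m 0 / ‖z.1 0 - z.1 2‖ ^ 3 : ℝ) : ℂ) * (z.1 0 - z.1 2) +
      ((m 1 / ‖z.1 1 - z.1 2‖ ^ 3 : ℝ) : ℂ) * (z.1 1 - z.1 2) := by
    rw [acc, s2, Finset.sum_pair (by decide)]
  have hsg : ∀ w : ℂ, P0.sg • (P0.sg⁻¹ • w) = w := fun w => by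
    rw [smul_smul, mul_inv_cancel₀ P0.sg0.ne', one_smul]
  refine Prod.ext ?_ (Prod.ext ?_ (Prod.ext ?_ ?_))
  · exact hsg _
  · exact hsg _
  · show P0.sg⁻¹ • FA P0 m (z.1 0 - z.1 1) (z.1 1 - z.1 2) = P0.sg⁻¹ • (acc m z.1 0 - acc m z.1 1)
    congr 1
    rw [FA, hc, hA, hB, hC, a0, a1]
    simp only [Complex.real_smul]
    push_cast
    ring
  · show P0.sg⁻¹ • FB P0 m (z.1 0 - z.1 1) (z.1 1 - z.1 2) = P0.sg⁻¹ • (acc m z.1 1 - acc m z.1 2)
    congr 1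
    rw [FB, hc, hA, hB, hC, a1, a2]
    simp only [Complex.real_smul]
    push_cast
    ring

/-- extension of a function with a one-sided derivative at `0` -/
lemma extend {y y' : ℝ → E} (h : ∀ t, 0 ≤ t → HasDerivWithinAt y (y' t) (Ici 0) t) :
    ∃ z : ℝ → E, (∀ t, 0 ≤ t → z t = y t) ∧ ∀ t, 0 ≤ t → HasDerivAt z (y' t) t := by
  classical
  set z : ℝ → E := fun t => if 0 ≤ t then y t else y 0 + t • y' 0 with hz
  have hz1 : ∀ t, 0 ≤ t → z t = y t := fun t ht => by simp only [hz, if_pos ht]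
  refine ⟨z, hz1, fun t ht => ?_⟩
  rcases lt_or_eq_of_le ht with h1 | h1
  · have h2 : HasDerivAt y (y' t) t := (h t ht).hasDerivAt (Ici_mem_nhds h1)
    refine h2.congr_of_eventuallyEq ?_
    filter_upwards [Ioi_mem_nhds h1] with s hs
    exact hz1 s (le_of_lt hs)
  · rw [← h1]
    have h2 : HasDerivWithinAt z (y' 0) (Ici 0) 0 := by
      refine (h 0 le_rfl).congr (fun s hs => hz1 s hs) (hz1 0 le_rfl)
    have h3 : HasDerivWithinAt z (y' 0) (Iic 0) 0 := by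
      have h4 : HasDerivAt (fun t : ℝ => y 0 + t • y' 0) (y' 0) 0 := by
        have := ((hasDerivAt_id (0 : ℝ)).smul_const (y' 0)).const_add (y 0)
        simpa using this
      refine h4.hasDerivWithinAt.congr (fun s hs => ?_) ?_
      · rcases lt_or_eq_of_le (show s ≤ 0 from hs) with h5 | h5
        · simp only [hz, if_neg (not_le.2 h5)]
        · rw [h5, hz1 0 le_rfl]; simp
      · rw [hz1 0 le_rfl]; simp
    have h4 := h2.union h3
    rw [Ici_union_Iic, hasDerivWithinAt_univ] at h4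
    exact h4

/-! ### The equilateral relative equilibria -/

/-- rigid rotation of a configuration -/
noncomputable def rigid (w : ℝ) (p : Fin 3 → ℂ) (t : ℝ) : Ph :=
  (fun a => Complex.exp ((w * t : ℝ) * I) * p a,
    fun a => I * w * (Complex.exp ((w * t : ℝ) * I) * p a))

/-- the centred equilateral triangle -/
noncomputable def pm (m : Fin 3 → ℝ) : Fin 3 → ℂ := ![cm m a0 1 + a0, cm m a0 1, cm m a0 1 - 1]

/-- the relative equilibrium in relative coordinates -/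
noncomputable def yr (w : ℝ) : E :=
  (a0, 1, P0.sg⁻¹ • ((I * (w : ℂ)) * a0), P0.sg⁻¹ • (I * (w : ℂ)))

lemma yr_s3 : yr s3 = xre := rfl

lemma far_yr (w : ℝ) : Far P0 0 (yr w) := by
  obtain ⟨h1, h2, h3⟩ := far_xre
  exact ⟨by have : (yr w).1 = xre.1 := rfl
            rw [this]; linarith,
    by have : (yr w).1 + (yr w).2.1 = xre.1 + xre.2.1 := rfl
       rw [this]; linarith,
    by have : (yr w).2.1 = xre.2.1 := rfl
       rw [this]; linarith⟩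

lemma fld_yr {m : Fin 3 → ℝ} {w : ℝ} (hw : w * w = m 0 + m 1 + m 2) :
    fld P0 m (yr w) = (I * (w : ℂ)) • yr w := by
  have hI : (I * (w : ℂ)) * (I * (w : ℂ)) = -((m 0 + m 1 + m 2 : ℝ) : ℂ) := by
    have h : ((w : ℂ)) * (w : ℂ) = ((m 0 + m 1 + m 2 : ℝ) : ℂ) := by rw [← hw]; push_cast; ring
    linear_combination (-1 : ℂ) * h + ((w : ℂ) * w) * Complex.I_mul_I
  have hA : FA P0 m a0 1 = (I * (w : ℂ)) * ((I * (w : ℂ)) * a0) := by
    rw [← mul_assoc, hI, FA0, a0_add, kd_one norm_a0, kd_one norm_c0, kd_one norm_one, ← a0_add]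
    simp only [Complex.real_smul]; push_cast; ring
  have hB : FB P0 m a0 1 = (I * (w : ℂ)) * (I * (w : ℂ)) := by
    rw [hI, FB0, a0_add, kd_one norm_a0, kd_one norm_c0, kd_one norm_one, ← a0_add]
    simp only [Complex.real_smul]; push_cast; ring
  have hs : P0.sg ≠ 0 := P0.sg0.ne'
  refine Prod.ext ?_ (Prod.ext ?_ (Prod.ext ?_ ?_))
  · show P0.sg • (P0.sg⁻¹ • ((I * (w : ℂ)) * a0)) = (I * (w : ℂ)) * a0
    rw [smul_smul, mul_inv_cancel₀ hs, one_smul]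
  · show P0.sg • (P0.sg⁻¹ • (I * (w : ℂ))) = (I * (w : ℂ)) * 1
    rw [smul_smul, mul_inv_cancel₀ hs, one_smul, mul_one]
  · show P0.sg⁻¹ • FA P0 m a0 1 = (I * (w : ℂ)) * (P0.sg⁻¹ • ((I * (w : ℂ)) * a0))
    rw [hA]; simp only [Complex.real_smul]; ring
  · show P0.sg⁻¹ • FB P0 m a0 1 = (I * (w : ℂ)) * (P0.sg⁻¹ • (I * (w : ℂ)))
    rw [hB]; simp only [Complex.real_smul]; ring

/-- the rotation with the angular velocity `w` -/
noncomputable def rw' (w t : ℝ) : ℂ := Complex.exp ((w * t : ℝ) * I)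

lemma norm_rw (w t : ℝ) : ‖rw' w t‖ = 1 := by rw [rw', Complex.norm_exp_ofReal_mul_I]

lemma hasDerivAt_rw (w t : ℝ) : HasDerivAt (rw' w) (I * w * rw' w t) t := by
  have h1 : HasDerivAt (fun t : ℝ => ((w * t : ℝ) : ℂ) * I) (((w * 1 : ℝ) : ℂ) * I) t :=
    (((hasDerivAt_id t).const_mul w).ofReal_comp).mul_const I
  refine h1.cexp.congr_deriv ?_
  rw [rw']; push_cast; ring

lemma rel_sol {m : Fin 3 → ℝ} {w : ℝ} (hw : w * w = m 0 + m 1 + m 2) (t : ℝ) :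
    HasDerivAt (fun t => rw' w t • yr w) (fld P0 m (rw' w t • yr w)) t := by
  rw [fld_rot P0 m (norm_rw w t), fld_yr hw]
  refine ((hasDerivAt_rw w t).smul_const (yr w)).congr_deriv ?_
  rw [smul_smul]; congr 1; ring

lemma rigid_eq (m : Fin 3 → ℝ) (w t : ℝ) :
    rigid w (pm m) t = emb P0 m (0 + t • (0 : ℂ)) 0 (rw' w t • yr w) := by
  have hsg : ∀ z : ℂ, P0.sg • (rw' w t * (P0.sg⁻¹ • z)) = rw' w t * z := fun z => by
    rw [mul_smul_comm, smul_smul, mul_inv_cancel₀ P0.sg0.ne', one_smul]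
  have p1 : (rw' w t • yr w).1 = rw' w t * a0 := rfl
  have p2 : (rw' w t • yr w).2.1 = rw' w t * 1 := rfl
  have p3 : P0.sg • (rw' w t • yr w).2.2.1 = rw' w t * ((I * (w : ℂ)) * a0) := hsg _
  have p4 : P0.sg • (rw' w t • yr w).2.2.2 = rw' w t * (I * (w : ℂ)) := hsg _
  rw [emb, p1, p2, p3, p4, rigid]
  have e : Complex.exp ((w * t : ℝ) * I) = rw' w t := rfl
  rw [e]
  simp only [smul_zero, add_zero, zero_add, pm, cm, Complex.real_smul]
  refine Prod.ext ?_ ?_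
  · funext i
    fin_cases i
    · simp only [Matrix.cons_val_zero, Fin.zero_eta]; ring
    · simp only [Matrix.cons_val_one, Matrix.cons_val_zero, Fin.mk_one]; ring
    · show rw' w t * (((m 0 + m 1 + m 2)⁻¹ : ℝ) * (((m 2 : ℝ) : ℂ) * 1 - ((m 0 : ℝ) : ℂ) * a0) - 1) =
        ((m 0 + m 1 + m 2)⁻¹ : ℝ) * (((m 2 : ℝ) : ℂ) * (rw' w t * 1) - ((m 0 : ℝ) : ℂ) * (rw' w t * a0)) -
        rw' w t * 1
      ring
  · funext i
    fin_cases i
    · simp only [Matrix.cons_val_zero, Fin.zero_eta]; ring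
    · simp only [Matrix.cons_val_one, Matrix.cons_val_zero, Fin.mk_one]; ring
    · show I * w * (rw' w t * (((m 0 + m 1 + m 2)⁻¹ : ℝ) * (((m 2 : ℝ) : ℂ) * 1 - ((m 0 : ℝ) : ℂ) * a0) - 1)) =
        ((m 0 + m 1 + m 2)⁻¹ : ℝ) * (((m 2 : ℝ) : ℂ) * (rw' w t * (I * w)) -
          ((m 0 : ℝ) : ℂ) * (rw' w t * (I * w * a0))) - rw' w t * (I * w)
      ring

lemma rigid_sol {m : Fin 3 → ℝ} (hM : m 0 + m 1 + m 2 ≠ 0) {w : ℝ} (hw : w * w = m 0 + m 1 + m 2) :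
    IsSol m univ (rigid w (pm m)) := by
  intro t _
  have hfun : rigid w (pm m) = fun t => emb P0 m (0 + t • (0 : ℂ)) 0 (rw' w t • yr w) := by
    funext t; exact rigid_eq m w t
  have hfar : Far P0 0 (rw' w t • yr w) := by
    have hc : ‖conj (rw' w t)‖ = 1 := by rw [Complex.norm_conj, norm_rw]
    apply Far.rot hc
    have e : conj (rw' w t) • (rw' w t • yr w) = yr w := by
      rw [smul_smul, mul_comm, Complex.mul_conj, Complex.normSq_eq_norm_sq, norm_rw]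
      norm_num
    rw [e]
    exact far_yr w
  have h3 := newton_at hM (y := fun t => rw' w t • yr w) (t := t) (rel_sol hw t) hfar 0 0
  rw [hfun]
  exact ⟨h3.1, h3.2.hasDerivWithinAt⟩

lemma rel_emb (m : Fin 3 → ℝ) (c d : ℂ) (x : E) : rel P0 (emb P0 m c d x) = x := by
  have hsg : ∀ w : ℂ, P0.sg⁻¹ • (P0.sg • w) = w := fun w => by
    rw [smul_smul, inv_mul_cancel₀ P0.sg0.ne', one_smul]
  refine Prod.ext ?_ (Prod.ext ?_ (Prod.ext ?_ ?_))
  · show (c + cm m x.1 x.2.1 + x.1) - (c + cm m x.1 x.2.1) = x.1; ring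
  · show (c + cm m x.1 x.2.1) - (c + cm m x.1 x.2.1 - x.2.1) = x.2.1; ring
  · show P0.sg⁻¹ • ((d + cm m (P0.sg • x.2.2.1) (P0.sg • x.2.2.2) + P0.sg • x.2.2.1) -
      (d + cm m (P0.sg • x.2.2.1) (P0.sg • x.2.2.2))) = x.2.2.1
    rw [add_sub_cancel_left]; exact hsg _
  · show P0.sg⁻¹ • ((d + cm m (P0.sg • x.2.2.1) (P0.sg • x.2.2.2)) -
      (d + cm m (P0.sg • x.2.2.1) (P0.sg • x.2.2.2) - P0.sg • x.2.2.2)) = x.2.2.2
    rw [sub_sub_cancel]; exact hsg _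

lemma rel_rigid (m : Fin 3 → ℝ) (w : ℝ) : rel P0 (rigid w (pm m) 0) = yr w := by
  rw [rigid_eq, rel_emb]
  have : rw' w 0 = 1 := by simp [rw']
  rw [this, one_smul]

/-- the positions of the explicit relative equilibrium -/
noncomputable def posR : Fin 3 → ℂ :=
  ![⟨0, -(Real.sqrt 3 / 2)⟩, ⟨1 / 2, 0⟩, ⟨-(1 / 2), 0⟩]

lemma cm_mh : cm mh a0 1 = ⟨1 / 2, 0⟩ := by
  rw [cm, mh0, mh1, mh2]
  apply Complex.ext
  · simp only [Complex.smul_re, Complex.sub_re, smul_eq_mul, Complex.one_re, a0]; norm_num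
  · simp only [Complex.smul_im, Complex.sub_im, smul_eq_mul, Complex.one_im, a0]
    show (0 + 3 / 2 + 3 / 2 : ℝ)⁻¹ * (3 / 2 * 0 - 0 * -(Real.sqrt 3 / 2)) = 0
    norm_num

lemma pm_mh : pm mh = posR := by
  have ha : a0 = ⟨-(1 / 2), -(Real.sqrt 3 / 2)⟩ := rfl
  rw [pm, cm_mh, posR]
  congr 1
  · rw [ha]
    apply Complex.ext
    · show (1 / 2 + -(1 / 2) : ℝ) = 0
      norm_num
    · show 0 + -(Real.sqrt 3 / 2) = -(Real.sqrt 3 / 2)
      ring
  · congr 2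
    apply Complex.ext
    · show (1 / 2 - 1 : ℝ) = -(1 / 2)
      norm_num
    · show (0 : ℝ) - 0 = 0
      ring

/-- the triangle is equilateral -/
lemma pm_dist (m : Fin 3 → ℝ) {a b : Fin 3} (hab : a ≠ b) : ‖pm m a - pm m b‖ = 1 := by
  have p0 : pm m 0 = cm m a0 1 + a0 := rfl
  have p1 : pm m 1 = cm m a0 1 := rfl
  have p2 : pm m 2 = cm m a0 1 - 1 := rfl
  have e01 : ‖pm m 0 - pm m 1‖ = 1 := by
    rw [p0, p1, add_sub_cancel_left, norm_a0]
  have e12 : ‖pm m 1 - pm m 2‖ = 1 := by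
    rw [p1, p2, sub_sub_cancel, norm_one]
  have e02 : ‖pm m 0 - pm m 2‖ = 1 := by
    have : pm m 0 - pm m 2 = c0 := by rw [p0, p2, ← a0_add]; ring
    rw [this, norm_c0]
  fin_cases a <;> fin_cases b
  · exact absurd rfl hab
  · exact e01
  · exact e02
  · rw [norm_sub_rev]; exact e01
  · exact absurd rfl hab
  · exact e12
  · rw [norm_sub_rev]; exact e02
  · rw [norm_sub_rev]; exact e12
  · exact absurd rfl hab

lemma pm_sub (m m' : Fin 3 → ℝ) (a b : Fin 3) : pm m a - pm m b = pm m' a - pm m' b := by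
  have p0 : ∀ m, pm m 0 = cm m a0 1 + a0 := fun _ => rfl
  have p1 : ∀ m, pm m 1 = cm m a0 1 := fun _ => rfl
  have p2 : ∀ m, pm m 2 = cm m a0 1 - 1 := fun _ => rfl
  fin_cases a <;> fin_cases b <;>
    simp only [Fin.zero_eta, Fin.mk_one, Fin.reduceFinMk, p0, p1, p2] <;> ring

/-- closeness of the relative equilibria -/
lemma near_rigid (m : Fin 3 → ℝ) {w ε : ℝ} (hw : |w - s3| ≤ ε) :
    Near ε (rigid s3 posR 0) (rigid w (pm m) 0) := by
  have hε : 0 ≤ ε := (abs_nonneg _).trans hw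
  have e0 : Complex.exp ((w * (0 : ℝ) : ℝ) * I) = 1 := by simp
  have e1 : Complex.exp ((s3 * (0 : ℝ) : ℝ) * I) = 1 := by simp
  rw [← pm_mh]
  refine ⟨1, norm_one, fun a b => ⟨?_, ?_⟩⟩
  · have e : ((rigid w (pm m) 0).1 a - (rigid w (pm m) 0).1 b) -
        1 * ((rigid s3 (pm mh) 0).1 a - (rigid s3 (pm mh) 0).1 b) = 0 := by
      simp only [rigid, e0, e1, one_mul]
      rw [pm_sub m mh a b, sub_self]
    rw [e, norm_zero]
    exact hε
  · have e : ((rigid w (pm m) 0).2 a - (rigid w (pm m) 0).2 b) -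
        1 * ((rigid s3 (pm mh) 0).2 a - (rigid s3 (pm mh) 0).2 b) =
        I * ((w - s3 : ℝ) : ℂ) * (pm mh a - pm mh b) := by
      simp only [rigid, e0, e1, one_mul]
      have := pm_sub m mh a b
      push_cast
      linear_combination (I * (w : ℂ)) * this
    rw [e, norm_mul, norm_mul, Complex.norm_I, one_mul, Complex.norm_real, Real.norm_eq_abs]
    rcases eq_or_ne a b with h | h
    · rw [h, sub_self, norm_zero, mul_zero]; exact hε
    · rw [pm_dist mh h, mul_one]; exact hw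

/-- solutions near the equilateral relative equilibrium are limits of unbounded solutions, for an open
set of masses -/
theorem main (m : Fin 3 → ℝ) (hm : NearM (1 / 10 ^ 500) m) :
    (∃ (w : ℝ) (p : Fin 3 → ℂ), 0 < w ∧ (∀ a b, a ≠ b → ‖p a - p b‖ = 1) ∧ IsSol m univ (rigid w p) ∧
      Near (1 / 10 ^ 500) (rigid s3 posR 0) (rigid w p 0)) ∧
      ∀ x : ℝ → Ph, IsSol m (Ici 0) x →
        (∀ t, 0 ≤ t → Near (1 / 10 ^ 500) (rigid s3 posR 0) (x t)) →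
        ∀ U ∈ 𝓝 (x 0), ∃ z ∈ U, Unb m z := by
  obtain ⟨⟨b0, -⟩, ⟨b1, -⟩, ⟨b2, -⟩⟩ := (hm.mono (show (1 : ℝ) / 10 ^ 500 ≤ 1 / 10 ^ 6 by norm_num)).bounds
  have hMp : 0 < m 0 + m 1 + m 2 := by
    norm_num at b0 b1 b2
    linarith
  refine ⟨?_, ?_⟩
  · set w := Real.sqrt (m 0 + m 1 + m 2) with hw
    have hw0 : 0 < w := Real.sqrt_pos.2 hMp
    have hww : w * w = m 0 + m 1 + m 2 := Real.mul_self_sqrt hMp.le
    refine ⟨w, pm m, hw0, fun a b h => pm_dist m h, rigid_sol hMp.ne' hww, near_rigid m ?_⟩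
    have h0 := hm.1 0
    have h1 := hm.1 1
    have h2 := hm.1 2
    rw [mh0] at h0
    rw [mh1] at h1
    rw [mh2] at h2
    generalize (1 : ℝ) / 10 ^ 500 = ε at h0 h1 h2 ⊢
    have hs := s3_pos
    have hs2 := s3_sq
    have hs3 := s3_gt
    have hM : |m 0 + m 1 + m 2 - 3| ≤ 3 * ε := by
      rw [abs_le] at h0 h1 h2 ⊢
      constructor <;> linarith [h0.1, h0.2, h1.1, h1.2, h2.1, h2.2]
    have hw1 : 17 / 10 ≤ w := by
      by_contra hcon
      push Not at hcon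
      have : w * w < 17 / 10 * (17 / 10) := by nlinarith
      rw [hww] at this
      norm_num at b0 b1 b2
      linarith
    have e : (w - s3) * (w + s3) = m 0 + m 1 + m 2 - 3 := by
      rw [← hww, ← hs2]; ring
    have hp : 3 ≤ w + s3 := by norm_num at hs3; linarith
    have h3 : |w - s3| * 3 ≤ 3 * ε := by
      calc |w - s3| * 3 ≤ |w - s3| * (w + s3) := by gcongr
        _ = |(w - s3) * (w + s3)| := by rw [abs_mul, abs_of_pos (by linarith : 0 < w + s3)]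
        _ ≤ 3 * ε := by rw [e]; exact hM
    linarith
  · intro x hx hnear
    have hr0 : rel P0 (rigid s3 posR 0) = xre := by
      rw [← pm_mh, rel_rigid, yr_s3]
    have hclose : ∀ t, 0 ≤ t → ∃ u : ℂ, ‖u‖ = 1 ∧ ‖rel P0 (x t) - u • xre‖ ≤ 1 / 10 ^ 500 := by
      intro t ht
      obtain ⟨u, hu, hd⟩ := near_rel (hnear t ht)
      rw [hr0] at hd
      exact ⟨u, hu, hd⟩
    have hfar : ∀ t, 0 ≤ t → Far P0 0 (rel P0 (x t)) := by
      intro t ht
      obtain ⟨u, hu, hd⟩ := hclose t ht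
      have hc : ‖conj u‖ = 1 := by rw [Complex.norm_conj, hu]
      apply Far.rot hc
      have e : conj u * u = 1 := by
        rw [mul_comm, Complex.mul_conj, Complex.normSq_eq_norm_sq, hu]; norm_num
      have hd2 : dist (conj u • rel P0 (x t)) xre ≤ 1 / 1000 := by
        rw [dist_eq_norm]
        have e2 : conj u • rel P0 (x t) - xre = conj u • (rel P0 (x t) - u • xre) := by
          rw [smul_sub, smul_smul, e, one_smul]
        rw [e2, norm_smul, hc, one_mul]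
        exact hd.trans (by norm_num)
      exact (far_xre.of_dist hd2).mono (by norm_num)
    obtain ⟨z, hz1, hz2⟩ := extend (y := fun t => rel P0 (x t)) (y' := fun t => fld P0 m (rel P0 (x t)))
      (fun t ht => by
        have h3 := (hx t ht).2
        have h4 := relC.hasFDerivAt.comp_hasDerivWithinAt t h3
        rw [fld_rel m (hfar t ht)]
        exact h4)
    have hdense := unbE_dense le_rfl hm (γ := z) (fun t ht => by rw [hz1 t ht]; exact hz2 t ht)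
      (fun t ht => by rw [hz1 t ht]; exact hclose t ht)
    rw [hz1 0 le_rfl] at hdense
    exact unb_of_unbE hMp.ne' hdense

lemma lag_rigid : IsSol mh univ (rigid s3 posR) := by
  rw [← pm_mh]
  exact rigid_sol (by rw [mh0, mh1, mh2]; norm_num) (by rw [mh0, mh1, mh2, s3_sq]; norm_num)

end Pool.Agent.T9h50.TR
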