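import Pool.Agent.T9h50.TR.KSt

/-!
# The first phase of the numerical integration
-/

set_option autoImplicit false
set_option exponentiation.threshold 100000

namespace Pool.Agent.T9h50.TR

theorem runA : run (Int.ofNat 64) 991 912 999 DG0 DR0 25 36 sA0 = some sA1 := by decide +kernel

end Pool.Agent.T9h50.TR
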