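import Pool.Agent.T9h50.TR.KSt

/-!
# The second phase of the numerical integration
-/

set_option autoImplicit false
set_option exponentiation.threshold 100000

namespace Pool.Agent.T9h50.TR

theorem runB : run (Int.ofNat 1024) 522 831 999 DG0 DR0 25 60 sB0 = some sB1 := by decide +kernel

end Pool.Agent.T9h50.TR
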