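import Pool.Agent.T9h50.TR.Num

/-!
# The states at the beginning and at the end of the phases
-/

set_option autoImplicit false

namespace Pool.Agent.T9h50.TR

open Pool.Agent.T9h50.TB (St)

/-- bounds for the defects -/
def DG0 : Nat := Nat.div (Nat.pow 2 384) (Nat.pow 10 26)
def DR0 : Nat := Nat.mul 2 (Nat.div (Nat.pow 2 384) (Nat.pow 10 22))

/-- beginning of the first phase -/
def sA0 : St := ⟨-39681883634189126652073151396, 14846195775414370209434851022, -68653171780769313062637285853, -8587496640112831703682421039, 79228162514264337593543950336, 0, 0, 17153400358128724700310701486, 79160041462494529299201130496, 79227755885259366947805462528, 79228162514264337593543950336⟩

/-- end of the first phase -/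
def sA1 : St := ⟨62480335466454775549578159581, 9355817020836546714141441931, -52299479481897222452230684865, 13643913177106869031094316213, 4731303757011241878737262527, -17122787037872184283081728328, 79086765644737122928309313706, 1024357311648123085035483067, 77038340939752008196217454405, 86756565941584802549020678825, 79228162514264337593543949307⟩

/-- beginning of the second phase -/
def sB0 : St := ⟨62480335466454775549578159581, 2338954255209136678535360483, -52299479481897222452230684865, 3410978294276717257773579053, 4731303757011241878737262527, -4280696759468046070770432082, 79086765644737122928309313706, 256089327912030771258870767, 77038340939752008196217454405, 86756565941584802549020678825, 79228162514264337593543949307⟩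

/-- end of the second phase -/
def sB1 : St := ⟨-64916439300897482711221093379, -414023483745159317287579274, -63891657848991103239137601508, -5191194850718641368604129088, 3662965482434701927929184323, 4283764459801007409010133518, -79143442048354029591356166089, 198263822560873365281440893, 68915554782270131073414954021, 40341547505836863360316556237, 79228162514264337593543953538⟩

/-- beginning of the third phase -/
def sC0 : St := ⟨-64916439300897482711221093379, -828046967490318634575158548, -63891657848991103239137601508, -10382389701437282737208258176, 3662965482434701927929184323, 8567528919602014818020267036, -79143442048354029591356166089, 396527645121746730562881786, 68915554782270131073414954021, 40341547505836863360316556237, 79228162514264337593543953538⟩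

/-- end of the third phase -/
def sC1 : St := ⟨24292379047498751522226825993, 8292448071817758424071720237, -325278100324761147866222491641, -8487583705631601967431496880, 37793827685483140343180010010, -7537972874055747095588646631, 69632810687682921211617927026, 4091301860235004113878719560, 19244055208978071485293292744, 23860372410213395292622334002, 79228162514264337593543949930⟩

end Pool.Agent.T9h50.TR
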