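import Pool.Agent.T9h50.TR.Loc0

/-!
# The departure from the relative equilibrium: estimates
-/

set_option autoImplicit false
set_option exponentiation.threshold 3000

open scoped NNReal ComplexConjugate Topology
open Complex Set Filter

namespace Pool.Agent.T9h50.TR

open Pool.Agent.T9h50.TL (Spl lin)

open Pool.Agent.T9h50.TB (E kd kd_eq ip dtm ip_self hasDerivAt_dtm)

/-- the inverse of the splitting as a linear map -/
noncomputable def SiL : (ℂ × FF) →ₗ[ℝ] E where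
  toFun := SiF
  map_add' w z := by rw [← Si_S (SiF w + SiF z), map_add, S_Si, S_Si]
  map_smul' c w := by
    show SiF (c • w) = c • SiF w
    rw [← Si_S (c • SiF w), map_smul, S_Si]

noncomputable def SiC : (ℂ × FF) →L[ℝ] E := LinearMap.toContinuousLinearMap SiL

lemma SiC_apply (w : ℂ × FF) : SiC w = SiF w := rfl

lemma Si_lin (w : ℂ × FF) : SiF (lin lam MC LC w) = Gf (SiF w) := by
  have h := Sm_G (SiF w)
  rw [S_Si] at h
  rw [← h, Si_S]

lemma lin_sub' (w z : ℂ × FF) : lin lam MC LC (w - z) = lin lam MC LC w - lin lam MC LC z := by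
  simp only [lin, Prod.fst_sub, Prod.snd_sub, map_sub, mul_sub]
  refine Prod.ext rfl ?_
  simp only [Prod.snd_sub]; abel

lemma continuous_lin : Continuous (lin lam MC LC) := by
  unfold lin
  exact (continuous_const.mul continuous_fst).prodMk
    ((MC.continuous.comp continuous_snd).add (LC.continuous.comp continuous_fst))

lemma continuous_Gf : Continuous Gf := by
  have e : Gf = fun h => SiF (lin lam MC LC (Sm h)) := by
    funext h
    rw [← Sm_G, Si_S]
  rw [e]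
  exact continuous_SiF.comp (continuous_lin.comp Sm.continuous)

/-- the rotation to the frame of a solution, and the angular velocity -/
noncomputable def vf (γ : ℝ → E) (t : ℝ) : ℂ := uv (γ t).2.1
noncomputable def omf (γ : ℝ → E) (t : ℝ) : ℝ :=
  dtm (γ t).2.1 (P0.sg • (γ t).2.2.2) / ‖(γ t).2.1‖ ^ 2

/-- a solution near the relative equilibrium -/
structure Frm (κ : ℝ) (m : Fin 3 → ℝ) (γ : ℝ → E) : Prop where
  κ1 : κ ≤ 1 / 10 ^ 500
  hm : NearM κ m
  hγ : ∀ t, 0 ≤ t → HasDerivAt γ (fld P0 m (γ t)) t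
  ne : ∀ t, 0 ≤ t → (γ t).2.1 ≠ 0
  cl : ∀ t, 0 ≤ t → ‖vf γ t • γ t - xre‖ ≤ 4 * κ
  om : ∀ t, 0 ≤ t → |omf γ t - s3| ≤ 18 * κ

/-- the nonlinear part of the equation for the difference of a solution and the given one -/
noncomputable def NE (m : Fin 3 → ℝ) (γ : ℝ → E) (t : ℝ) (D : E) : E :=
  fld P0 m (vf γ t • γ t + D) - fld P0 m (vf γ t • γ t) - (I * (omf γ t : ℝ)) • D - Gf D

section

variable {κ : ℝ} {m : Fin 3 → ℝ} {γ : ℝ → E}

lemma Frm.κ0 (h : Frm κ m γ) : 0 ≤ κ := (abs_nonneg _).trans (h.hm.1 0)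

lemma Frm.vn (h : Frm κ m γ) {t : ℝ} (ht : 0 ≤ t) : ‖vf γ t‖ = 1 := norm_uv (h.ne t ht)

lemma Frm.dv (h : Frm κ m γ) {t : ℝ} (ht : 0 ≤ t) :
    HasDerivAt (vf γ) (-(I * (omf γ t : ℝ)) * vf γ t) t :=
  hasDerivAt_uv ((h.hγ t ht).snd.fst) (h.ne t ht)

lemma Gf_zero : Gf 0 = 0 := by
  have := Gf_sub 0 0
  simpa using this

lemma NE_zero (t : ℝ) : NE m γ t 0 = 0 := by
  simp [NE, Gf_zero]

lemma norm_Iom (h : Frm κ m γ) {t : ℝ} (ht : 0 ≤ t) (D : E) :
    ‖(I * ((omf γ t - s3 : ℝ) : ℂ)) • D‖ ≤ 18 * κ * ‖D‖ := by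
  rw [norm_smul, norm_mul, Complex.norm_I, one_mul, Complex.norm_real, Real.norm_eq_abs]
  exact mul_le_mul_of_nonneg_right (h.om t ht) (norm_nonneg _)

lemma NE_diff (t : ℝ) (D1 D2 : E) : NE m γ t D1 - NE m γ t D2 =
    ((fld P0 m (vf γ t • γ t + D1) - fld P0 m (vf γ t • γ t + D2)) -
      (fld P0 mh (vf γ t • γ t + D1) - fld P0 mh (vf γ t • γ t + D2))) +
    Qd (vf γ t • γ t + D1) (vf γ t • γ t + D2) - (I * ((omf γ t - s3 : ℝ) : ℂ)) • (D1 - D2) := by
  have e : (vf γ t • γ t + D1) - (vf γ t • γ t + D2) = D1 - D2 := by abel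
  rw [NE, NE, Qd, e, Gf_sub]
  push_cast
  rw [mul_sub, sub_smul, smul_sub, smul_sub]
  abel

lemma NE_lip (h : Frm κ m γ) {t r ρ : ℝ} (ht : 0 ≤ t) (hρ : ρ ≤ 1 / 400) (hr : 4 * κ + r ≤ ρ) {D1 D2 : E}
    (h1 : ‖D1‖ ≤ r) (h2 : ‖D2‖ ≤ r) :
    ‖NE m γ t D1 - NE m γ t D2‖ ≤ (24 * κ + 80 * ρ) * ‖D1 - D2‖ := by
  have hX : ∀ D : E, ‖D‖ ≤ r → ‖(vf γ t • γ t + D) - xre‖ ≤ ρ := by
    intro D hD
    have e : (vf γ t • γ t + D) - xre = (vf γ t • γ t - xre) + D := by abel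
    rw [e]
    exact (norm_add_le _ _).trans ((add_le_add (h.cl t ht) hD).trans hr)
  have e : (vf γ t • γ t + D1) - (vf γ t • γ t + D2) = D1 - D2 := by abel
  have q1 := fld_mass h.hm (vf γ t • γ t + D1) (vf γ t • γ t + D2)
  have q2 := Qd_bound hρ (hX D1 h1) (hX D2 h2)
  have q3 := norm_Iom h ht (D1 - D2)
  rw [e] at q1 q2
  rw [NE_diff]
  refine (norm_sub_le _ _).trans ?_
  refine (add_le_add (norm_add_le _ _) le_rfl).trans ?_
  linarith

/-- comparison with a curve near the relative equilibrium -/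
lemma NE_cmp (h : Frm κ m γ) {t r ρ δ : ℝ} (ht : 0 ≤ t) (hρ : ρ ≤ 1 / 400) (hr : 4 * κ + r ≤ ρ) {D c c' : E}
    (h1 : ‖D‖ ≤ r) (h2 : ‖c - xre‖ ≤ ρ) (hc : ‖c' - (fld P0 mh c - (I * (s3 : ℂ)) • c)‖ ≤ δ) :
    ‖NE m γ t D - (c' - Gf (c - xre))‖ ≤ 24 * κ * r + 80 * ρ * (8 * κ + ‖D - (c - xre)‖) + δ := by
  have hκ := h.κ0
  have hρ0 : 0 ≤ ρ := (norm_nonneg _).trans h2
  have hcl := h.cl t ht
  set Γ := vf γ t • γ t with hΓ
  set X := Γ + D with hX
  have hXx : ‖X - xre‖ ≤ ρ := by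
    have e : X - xre = (Γ - xre) + D := by rw [hX]; abel
    rw [e]
    exact (norm_add_le _ _).trans ((add_le_add hcl h1).trans hr)
  have hΓx : ‖Γ - xre‖ ≤ ρ := by
    have : 0 ≤ r := (norm_nonneg _).trans h1
    linarith
  have hxx : ‖xre - xre‖ ≤ ρ := by rw [sub_self, norm_zero]; exact hρ0
  have e1 : X - Γ = D := by rw [hX]; abel
  have q1 := fld_mass h.hm X Γ
  have q2 := Qd_bound hρ hXx h2
  have q3 := norm_Iom h ht D
  have q4 := Qd_bound hρ hΓx hxx
  rw [e1] at q1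
  have e2 : NE m γ t D - (c' - Gf (c - xre)) =
      ((fld P0 m X - fld P0 m Γ) - (fld P0 mh X - fld P0 mh Γ)) - (I * ((omf γ t - s3 : ℝ) : ℂ)) • D +
      (Qd X Γ - Qd c xre) - (c' - (fld P0 mh c - (I * (s3 : ℂ)) • c)) := by
    rw [Qd, Qd, e1, fld_xre, NE, ← hΓ, ← hX]
    push_cast
    rw [mul_sub, sub_smul, smul_sub]
    abel
  rw [e2, Qd_tele]
  have k1 : ‖X - c‖ ≤ 4 * κ + ‖D - (c - xre)‖ := by
    have e : X - c = (Γ - xre) + (D - (c - xre)) := by rw [hX]; abel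
    rw [e]
    exact (norm_add_le _ _).trans (add_le_add hcl le_rfl)
  have k2 : ‖Qd X c‖ ≤ 80 * ρ * (4 * κ + ‖D - (c - xre)‖) := q2.trans (by gcongr)
  have k3 : ‖Qd Γ xre‖ ≤ 80 * ρ * (4 * κ) := q4.trans (by gcongr)
  have k4 : 6 * κ * ‖D‖ + 18 * κ * ‖D‖ ≤ 24 * κ * r := by
    have : κ * ‖D‖ ≤ κ * r := by gcongr
    linarith
  refine (norm_sub_le _ _).trans ?_
  refine (add_le_add ((norm_add_le _ _).trans (add_le_add (norm_sub_le _ _) (norm_sub_le _ _))) hc).trans ?_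
  linarith

lemma NE_cont (h : Frm κ m γ) {T : ℝ} :
    ContinuousOn (fun p : ℝ × E => NE m γ p.1 p.2) (Icc 0 T ×ˢ univ) := by
  have hL := fld_lip lip0 (h.hm.mono (h.κ1.trans (by norm_num)))
  have hf : Continuous (fld P0 m) := hL.continuous
  have hγ : ContinuousOn (fun p : ℝ × E => γ p.1) (Icc 0 T ×ˢ univ) := by
    have : ContinuousOn γ (Icc 0 T) := fun t ht => (h.hγ t ht.1).continuousAt.continuousWithinAt
    exact this.comp continuousOn_fst (fun p hp => hp.1)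
  have hv : ContinuousOn (fun p : ℝ × E => vf γ p.1) (Icc 0 T ×ˢ univ) := by
    have : ContinuousOn (vf γ) (Icc 0 T) := fun t ht => (h.dv ht.1).continuousAt.continuousWithinAt
    exact this.comp continuousOn_fst (fun p hp => hp.1)
  have ho : ContinuousOn (fun p : ℝ × E => omf γ p.1) (Icc 0 T ×ˢ univ) := by
    have : ContinuousOn (omf γ) (Icc 0 T) := by
      intro t ht
      have hc := (h.hγ t ht.1).continuousAt
      have c1 : ContinuousAt (fun t => (γ t).2.1) t := hc.snd.fst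
      have c20 : ContinuousAt (fun t => (γ t).2.2.2) t := hc.snd.snd.snd
      have c2 : ContinuousAt (fun t => P0.sg • (γ t).2.2.2) t := c20.const_smul P0.sg
      have c3 : ContinuousAt (fun t => dtm (γ t).2.1 (P0.sg • (γ t).2.2.2)) t := by
        unfold dtm
        exact ((Complex.continuous_re.continuousAt.comp c1).mul (Complex.continuous_im.continuousAt.comp c2)).sub
          ((Complex.continuous_im.continuousAt.comp c1).mul (Complex.continuous_re.continuousAt.comp c2))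
      exact (c3.div (c1.norm.pow 2) (pow_ne_zero 2 (norm_ne_zero_iff.2 (h.ne t ht.1)))).continuousWithinAt
    exact this.comp continuousOn_fst (fun p hp => hp.1)
  have hD : ContinuousOn (fun p : ℝ × E => p.2) (Icc 0 T ×ˢ univ) := continuousOn_snd
  have hvγ := hv.smul hγ
  have h1 : ContinuousOn (fun p : ℝ × E => fld P0 m (vf γ p.1 • γ p.1 + p.2)) (Icc 0 T ×ˢ univ) :=
    hf.comp_continuousOn (hvγ.add hD)
  have h2 : ContinuousOn (fun p : ℝ × E => fld P0 m (vf γ p.1 • γ p.1)) (Icc 0 T ×ˢ univ) :=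
    hf.comp_continuousOn hvγ
  have h3 : ContinuousOn (fun p : ℝ × E => (I * (omf γ p.1 : ℝ)) • p.2) (Icc 0 T ×ˢ univ) :=
    (continuousOn_const.mul (Complex.continuous_ofReal.comp_continuousOn ho)).smul hD
  exact ((h1.sub h2).sub h3).sub (continuous_Gf.comp_continuousOn hD)

/-- from the difference to the solution -/
lemma sol_of_D (h : Frm κ m γ) {T : ℝ} {D : ℝ → E}
    (hD : ∀ t ∈ Icc 0 T, HasDerivAt D (Gf (D t) + NE m γ t (D t)) t) {t : ℝ} (ht : t ∈ Icc 0 T) :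
    HasDerivAt (fun s => γ s + conj (vf γ s) • D s) (fld P0 m (γ t + conj (vf γ t) • D t)) t := by
  have hv := h.dv ht.1
  have hvn := h.vn ht.1
  have hcv : HasDerivAt (fun s => conj (vf γ s)) (conj (-(I * (omf γ t : ℝ)) * vf γ t)) t :=
    (Complex.conjCLE.toContinuousLinearMap.hasFDerivAt (x := vf γ t)).comp_hasDerivAt t hv
  have k := (h.hγ t ht.1).fun_add (hcv.fun_smul (hD t ht))
  refine k.congr_deriv ?_
  have e1 : conj (-(I * (omf γ t : ℝ)) * vf γ t) = (I * (omf γ t : ℝ)) * conj (vf γ t) := by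
    rw [map_mul, map_neg, map_mul, Complex.conj_I, Complex.conj_ofReal]; ring
  have hvv : vf γ t * conj (vf γ t) = 1 := by
    rw [Complex.mul_conj, Complex.normSq_eq_norm_sq, hvn]; norm_num
  have hvv' : conj (vf γ t) * vf γ t = 1 := by rw [mul_comm]; exact hvv
  have e2 : vf γ t • γ t + D t = vf γ t • (γ t + conj (vf γ t) • D t) := by
    rw [smul_add, smul_smul, hvv, one_smul]
  have e3 : Gf (D t) + NE m γ t (D t) = vf γ t • (fld P0 m (γ t + conj (vf γ t) • D t) - fld P0 m (γ t)) -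
      (I * (omf γ t : ℝ)) • D t := by
    rw [NE, e2, fld_rot P0 m hvn, fld_rot P0 m hvn, smul_sub]
    abel
  rw [e1, e3, smul_sub, smul_smul, hvv', one_smul, smul_smul, mul_comm (conj (vf γ t)) (I * (omf γ t : ℝ))]
  abel

end

end Pool.Agent.T9h50.TR
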