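import Pool.Agent.T9h50.TR.Wph

/-!
# The curve near the relative equilibrium
-/

set_option autoImplicit false
set_option exponentiation.threshold 3000

open scoped NNReal ComplexConjugate Topology
open Complex Set Filter

namespace Pool.Agent.T9h50.TR

open Pool.Agent.T9h50.TL (nrm2 ev2 nrm2_cons)

open Pool.Agent.T9h50.TB (E kd kd_eq ip dtm ip_self evR nrm nrm_cons)

/-- the constant term of a polynomial is `a`, and the others are small -/
def ckn (P : List (List Int)) (a : Int) : Bool :=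
  Bool.and (decide (P = (a :: (P.headD []).tail) :: P.tail))
    (Nat.ble (Nat.mul 1000 (nrm2 P)) (Nat.add (Nat.mul 1000 (Int.natAbs a)) (Nat.mul 6 (Nat.pow 2 192))))

lemma evR_le_mul (p : List Int) {x ρ : ℝ} (h1 : |x| ≤ 1) : |evR p x| ≤ nrm p := abs_evR_le' p h1

lemma ckn_sound {P : List (List Int)} {a : Int} (h : ckn P a = true) {u v ρ : ℝ} (h1 : ρ ≤ 1)
    (hu : |u| ≤ ρ) (hv : |v| ≤ ρ) : |nx P u v - a / SWR| ≤ 6 / 1000 * ρ := by
  have hρ : 0 ≤ ρ := (abs_nonneg _).trans hu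
  have hS := SWR_pos
  rw [ckn, Bool.and_eq_true] at h
  obtain ⟨k1, k2⟩ := h
  have k1 := of_decide_eq_true k1
  have k2 : 1000 * nrm2 P ≤ 1000 * a.natAbs + 6 * 2 ^ 192 := Nat.le_of_ble_eq_true k2
  set p := (P.headD []).tail with hp
  set Q := P.tail with hQ
  have k3 : nrm2 P = a.natAbs + nrm p + nrm2 Q := by
    conv_lhs => rw [k1]
    rw [nrm2_cons, nrm_cons]
  have k4 : 1000 * (nrm p + nrm2 Q) ≤ 6 * 2 ^ 192 := by rw [k3] at k2; omega
  have k5 : ((nrm p : ℝ) + nrm2 Q) ≤ 6 / 1000 * SWR := by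
    have : (1000 * ((nrm p : ℝ) + nrm2 Q)) ≤ 6 * 2 ^ 192 := by exact_mod_cast k4
    rw [SWR]; linarith
  have e : ev2 P u v - a = u * evR p u + v * ev2 Q u v := by
    conv_lhs => rw [k1]
    simp only [ev2, evR]; ring
  have e2 : nx P u v - a / SWR = (u * evR p u + v * ev2 Q u v) / SWR := by
    rw [← e, nx]; ring
  rw [e2, abs_div, abs_of_pos hS, div_le_iff₀ hS]
  calc |u * evR p u + v * ev2 Q u v| ≤ |u| * |evR p u| + |v| * |ev2 Q u v| := by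
        refine (abs_add_le _ _).trans ?_
        rw [abs_mul, abs_mul]
    _ ≤ ρ * nrm p + ρ * nrm2 Q := by
        have b1 := abs_evR_le' p (hu.trans h1)
        have b2 := abs_ev2_le Q (hu.trans h1) (hv.trans h1)
        gcongr
    _ = ρ * (nrm p + nrm2 Q) := by ring
    _ ≤ ρ * (6 / 1000 * SWR) := by gcongr
    _ = _ := by ring

theorem n1 : ckn WxA (Int.negSucc (Nat.sub (Nat.pow 2 191) 1)) = true := by decide +kernel
theorem n2 : ckn WyA (Int.negSucc (Nat.sub (Nat.pow 2 191) 1)) = true := by decide +kernel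
theorem n3 : ckn WxB (Int.ofNat (Nat.pow 2 192)) = true := by decide +kernel
theorem n4 : ckn WyB (Int.ofNat 0) = true := by decide +kernel
theorem n5 : ckn WpA (Int.ofNat (Nat.mul 3 (Nat.pow 2 191))) = true := by decide +kernel
theorem n6 : ckn WqA (Int.negSucc (Nat.sub (Nat.pow 2 191) 1)) = true := by decide +kernel
theorem n7 : ckn WpB (Int.ofNat 0) = true := by decide +kernel
theorem n8 : ckn WqB (Int.ofNat (Nat.pow 2 192)) = true := by decide +kernel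

lemma cw_near0 {X Y : List (List Int)} {a b : Int} (hx : ckn X a = true) (hy : ckn Y b = true)
    {x y : ℝ} (h1 : (a : ℝ) = x * SWR) (h2 : (b : ℝ) = y * SWR) {u v ρ : ℝ} (hρ : ρ ≤ 1)
    (hu : |u| ≤ ρ) (hv : |v| ≤ ρ) : ‖cw X Y u v - ⟨x, s3 * y⟩‖ ≤ 2 / 100 * ρ := by
  have hρ0 : 0 ≤ ρ := (abs_nonneg _).trans hu
  have hS := SWR_pos.ne'
  have kx := ckn_sound hx hρ hu hv
  have ky := ckn_sound hy hρ hu hv
  rw [h1, mul_div_assoc, div_self hS, mul_one] at kx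
  rw [h2, mul_div_assoc, div_self hS, mul_one] at ky
  have e : cw X Y u v - ⟨x, s3 * y⟩ = ⟨nx X u v - x, s3 * (nx Y u v - y)⟩ := sub_mk _ _ _ _
  rw [e]
  refine (norm_mk3 kx ky).trans ?_
  norm_num
  linarith

lemma wz_near {u v ρ : ℝ} (hρ : ρ ≤ 1) (hu : |u| ≤ ρ) (hv : |v| ≤ ρ) :
    ‖wz P0 u v - xre‖ ≤ 2 / 100 * ρ := by
  have hρ0 : 0 ≤ ρ := (abs_nonneg _).trans hu
  have i1 : ((Int.negSucc (Nat.sub (Nat.pow 2 191) 1) : ℤ) : ℝ) = -(1 / 2) * SWR := by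
    have : (Int.negSucc (Nat.sub (Nat.pow 2 191) 1) : ℤ) = -(2 ^ 191) := by decide +kernel
    rw [this, SWR]; norm_num
  have i2 : ((Int.ofNat (Nat.pow 2 192) : ℤ) : ℝ) = 1 * SWR := by
    have : (Int.ofNat (Nat.pow 2 192) : ℤ) = 2 ^ 192 := by decide +kernel
    rw [this, SWR]; norm_num
  have i3 : ((Int.ofNat 0 : ℤ) : ℝ) = 0 * SWR := by simp
  have i4 : ((Int.ofNat (Nat.mul 3 (Nat.pow 2 191)) : ℤ) : ℝ) = 3 / 2 * SWR := by
    have : (Int.ofNat (Nat.mul 3 (Nat.pow 2 191)) : ℤ) = 3 * 2 ^ 191 := by decide +kernel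
    rw [this, SWR]; norm_num
  have k1 := cw_near0 n1 n2 i1 i1 hρ hu hv
  have k2 := cw_near0 n3 n4 i2 i3 hρ hu hv
  have k3 := cw_near0 n5 n6 i4 i1 hρ hu hv
  have k4 := cw_near0 n7 n8 i3 i2 hρ hu hv
  have ea : a0 = ⟨-(1 / 2), s3 * -(1 / 2)⟩ := by
    apply Complex.ext
    · rfl
    · show -(s3 / 2) = s3 * -(1 / 2)
      ring
  have eb : (1 : ℂ) = ⟨1, s3 * 0⟩ := by
    apply Complex.ext <;> simp
  have ep : (I * (s3 : ℂ)) * a0 = ⟨3 / 2, s3 * -(1 / 2)⟩ := by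
    rw [ea, I3_mul]
    apply Complex.ext
    · show -(3 * -(1 / 2)) = (3 / 2 : ℝ)
      norm_num
    · rfl
  have eq : (I * (s3 : ℂ)) = ⟨0, s3 * 1⟩ := by
    apply Complex.ext <;> simp
  have n5 : ‖(2 / 7 : ℝ)‖ = 2 / 7 := by norm_num
  have hs' : ∀ z : ℂ, ‖z‖ ≤ 2 / 100 * ρ → ‖P0.sg⁻¹ • z‖ ≤ 2 / 100 * ρ := fun z hz => by
    rw [norm_smul, sg_inv, n5]
    linarith
  rw [Prod.norm_def, Prod.norm_def, Prod.norm_def]
  refine max_le ?_ (max_le ?_ (max_le ?_ ?_))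
  · show ‖cw WxA WyA u v - a0‖ ≤ _
    rw [ea]; exact k1
  · show ‖cw WxB WyB u v - 1‖ ≤ _
    rw [eb]; exact k2
  · show ‖P0.sg⁻¹ • cw WpA WqA u v - P0.sg⁻¹ • ((I * (s3 : ℂ)) * a0)‖ ≤ _
    rw [← smul_sub, ep]
    exact hs' _ k3
  · show ‖P0.sg⁻¹ • cw WpB WqB u v - P0.sg⁻¹ • (I * (s3 : ℂ))‖ ≤ _
    rw [← smul_sub, eq]
    exact hs' _ k4

lemma cE0_near {t : ℝ} (ht : t ≤ 0) : ‖cE0 t - xre‖ ≤ 2 / 100 * Real.exp (alW * t) :=
  wz_near (rho_le ht) ((Complex.abs_re_le_norm (zc t)).trans (norm_zc t))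
    ((Complex.abs_im_le_norm (zc t)).trans (norm_zc t))

end Pool.Agent.T9h50.TR
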