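import Pool.Agent.T9h50.TB.Snd

/-!
# The numerical integration for the masses `0 : 1 : 1`
-/

set_option autoImplicit false
set_option exponentiation.threshold 2000

namespace Pool.Agent.T9h50.TR

open Pool.Agent.T9h50.TB (fI fI_eq fN fN_eq XN XN_eq S1 S3 S4 dg rdiv pk Ls St nwt der2 sm dsm nrm chkN
  chk hd2 nxt chkS fSt fLs Rep evR dR ddR abs_evR_le two_pow_lt_XN S3_cast S4_cast g_pos g_le
  chkG_sound ddR_eq)

/-- the loop which generates the Taylor polynomials; the lists are reversed -/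
def loop (H2 : Int) (ga0 gc0 gb0 : Int) (fuel : Nat) : Nat → List Int → List Int → List Int → List Int →
    List Int → List Int → List Int → Int → Int → Int → Int → Int → Int → Int → Ls :=
  Nat.rec (motive := fun _ => Nat → List Int → List Int → List Int → List Int → List Int →
    List Int → List Int → Int → Int → Int → Int → Int → Int → Int → Ls)
    (fun _ lax lay lbx lbt lga lgc lgb _ _ _ _ _ _ _ =>
      ⟨lax.reverse, lay.reverse, lbx.reverse, lbt.reverse, lga.reverse, lgc.reverse, lgb.reverse⟩)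
    (fun _ ih k lax lay lbx lbt lga lgc lgb Ax Ay Bx By Ga Gc Gb =>
      fI (Int.add Ax Bx) fun Cx => fI (Int.add Ay By) fun Cy =>
      fI (Int.mul Ga Ga) fun Ga2 => fI (Int.mul Gc Gc) fun Gc2 => fI (Int.mul Gb Gb) fun Gb2 =>
      fI (Int.mul Ga2 Ga) fun Ga3 => fI (Int.mul Gc2 Gc) fun Gc3 => fI (Int.mul Gb2 Gb) fun Gb3 =>
      fI (Int.mul Ax Ga3) fun kax => fI (Int.mul Ay Ga3) fun kay =>
      fI (Int.mul Cx Gc3) fun kcx => fI (Int.mul Cy Gc3) fun kcy =>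
      fI (Int.mul Bx Gb3) fun kbx => fI (Int.mul By Gb3) fun kby =>
      fI (Int.mul (Int.mul (Int.mul H2 2) (Int.ofNat (Nat.mul (k+1) (k+2)))) S3) fun den =>
      fI (rdiv (dg k (Int.sub (Int.mul 3 (Int.sub kbx kcx)) (Int.mul 3 kax))) den) fun ax =>
      fI (rdiv (dg k (Int.sub (Int.mul 3 (Int.sub kby kcy)) (Int.mul 3 kay))) den) fun ay =>
      fI (rdiv (dg k (Int.sub (Int.mul 0 (Int.sub kax kcx)) (Int.mul 6 kbx))) den) fun bx =>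
      fI (rdiv (dg k (Int.sub (Int.mul 0 (Int.sub kay kcy)) (Int.mul 6 kby))) den) fun bt =>
      fI (rdiv (Int.mul (Int.neg ga0) (dg (k+1) (Int.mul Ga2 (Int.add (Int.mul Ax Ax) (Int.mul Ay Ay)))))
        (Int.mul 2 S4)) fun ea =>
      fI (rdiv (Int.mul (Int.neg gc0) (dg (k+1) (Int.mul Gc2 (Int.add (Int.mul Cx Cx) (Int.mul Cy Cy)))))
        (Int.mul 2 S4)) fun ec =>
      fI (rdiv (Int.mul (Int.neg gb0) (dg (k+1) (Int.mul Gb2 (Int.add (Int.mul Bx Bx) (Int.mul By By)))))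
        (Int.mul 2 S4)) fun eb =>
      fI (Int.ofNat (Nat.pow XN (k+1))) fun X1 => fI (Int.ofNat (Nat.pow XN (k+2))) fun X2 =>
      fI (Int.add Ga (Int.mul ea X1)) fun Ga' =>
      fI (Int.add Gc (Int.mul ec X1)) fun Gc' =>
      fI (Int.add Gb (Int.mul eb X1)) fun Gb' =>
      fI (Int.add Ax (Int.mul ax X2)) fun Ax' =>
      fI (Int.add Ay (Int.mul ay X2)) fun Ay' =>
      fI (Int.add Bx (Int.mul bx X2)) fun Bx' =>
      fI (Int.add By (Int.mul bt X2)) fun By' =>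
      fN (k+1) fun k1 =>
      ih k1 (ax :: lax) (ay :: lay) (bx :: lbx) (bt :: lbt) (ea :: lga) (ec :: lgc) (eb :: lgb)
        Ax' Ay' Bx' By' Ga' Gc' Gb') fuel

/-- the Taylor polynomials for a state -/
def gen (H2 : Int) (fuel : Nat) (s : St) : Ls :=
  fI (nwt s.ga0 (Int.add (Int.mul s.ax0 s.ax0) (Int.mul s.ay0 s.ay0))) fun ga =>
  fI (nwt s.gc0 (Int.add (Int.mul (Int.add s.ax0 s.bx0) (Int.add s.ax0 s.bx0))
    (Int.mul (Int.add s.ay0 s.bt0) (Int.add s.ay0 s.bt0)))) fun gc =>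
  fI (nwt s.gb0 (Int.add (Int.mul s.bx0 s.bx0) (Int.mul s.bt0 s.bt0))) fun gb =>
  loop H2 ga gc gb fuel 0 [s.ax1, s.ax0] [s.ay1, s.ay0] [s.bx1, s.bx0] [s.bt1, s.bt0] [ga] [gc] [gb]
    (Int.add s.ax0 (Int.mul s.ax1 (Int.ofNat XN))) (Int.add s.ay0 (Int.mul s.ay1 (Int.ofNat XN)))
    (Int.add s.bx0 (Int.mul s.bx1 (Int.ofNat XN))) (Int.add s.bt0 (Int.mul s.bt1 (Int.ofNat XN)))
    ga gc gb

/-- the residual of the equation for one coordinate is small -/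
def chkR (H2 : Int) (D : Nat) (l : List Int) (F : Int) : Bool :=
  (Nat.ble (nrm (der2 0 (l.drop 2))) (Nat.pow 2 112)).and
    (chk D (Int.sub (Int.mul (Int.mul (Int.mul H2 2) S3) (pk (der2 0 (l.drop 2)))) F))

/-- bounds for the coefficients -/
def chkB (ca cc cb : Nat) (L : Ls) : Bool :=
  (Nat.ble (nrm L.ax) (Nat.pow 2 102)).and <| (Nat.ble (nrm L.ay) (Nat.pow 2 102)).and <|
  (Nat.ble (nrm L.bx) (Nat.pow 2 102)).and <| (Nat.ble (nrm L.bt) (Nat.pow 2 102)).and <|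
  (Nat.ble (Nat.mul (nrm L.ga) ca) (Nat.mul 1000 (Nat.pow 2 96))).and <|
  (Nat.ble (Nat.mul (nrm L.gc) cc) (Nat.mul 1000 (Nat.pow 2 96))).and <|
  (Nat.ble (Nat.mul (nrm L.gb) cb) (Nat.mul 1000 (Nat.pow 2 96))).and <|
  (Nat.blt (nrm L.ga) (Int.toNat (Int.mul 2 (L.ga.headD 0)))).and <|
  (Nat.blt (nrm L.gc) (Int.toNat (Int.mul 2 (L.gc.headD 0)))).and <|
  (Nat.blt (nrm L.gb) (Int.toNat (Int.mul 2 (L.gb.headD 0))))

/-- all the conditions for the Taylor polynomials -/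
def chkL (H2 : Int) (ca cc cb DG DR : Nat) (L : Ls) : Bool :=
  (chkB ca cc cb L).and <|
  fI (pk L.ax) fun Ax => fI (pk L.ay) fun Ay => fI (pk L.bx) fun Bx => fI (pk L.bt) fun By =>
  fI (pk L.ga) fun Ga => fI (pk L.gc) fun Gc => fI (pk L.gb) fun Gb =>
  fI (Int.add Ax Bx) fun Cx => fI (Int.add Ay By) fun Cy =>
  fI (Int.mul Ga Ga) fun Ga2 => fI (Int.mul Gc Gc) fun Gc2 => fI (Int.mul Gb Gb) fun Gb2 =>
  (chk DG (Int.sub (Int.mul Ga2 (Int.add (Int.mul Ax Ax) (Int.mul Ay Ay))) S4)).and <|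
  (chk DG (Int.sub (Int.mul Gc2 (Int.add (Int.mul Cx Cx) (Int.mul Cy Cy))) S4)).and <|
  (chk DG (Int.sub (Int.mul Gb2 (Int.add (Int.mul Bx Bx) (Int.mul By By))) S4)).and <|
  fI (Int.mul Ga2 Ga) fun Ga3 => fI (Int.mul Gc2 Gc) fun Gc3 => fI (Int.mul Gb2 Gb) fun Gb3 =>
  fI (Int.mul Ax Ga3) fun kax => fI (Int.mul Ay Ga3) fun kay =>
  fI (Int.mul Cx Gc3) fun kcx => fI (Int.mul Cy Gc3) fun kcy =>
  fI (Int.mul Bx Gb3) fun kbx => fI (Int.mul By Gb3) fun kby =>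
  (chkR H2 DR L.ax (Int.sub (Int.mul 3 (Int.sub kbx kcx)) (Int.mul 3 kax))).and <|
  (chkR H2 DR L.ay (Int.sub (Int.mul 3 (Int.sub kby kcy)) (Int.mul 3 kay))).and <|
  (chkR H2 DR L.bx (Int.sub (Int.mul 0 (Int.sub kax kcx)) (Int.mul 6 kbx))).and <|
  (chkR H2 DR L.bt (Int.sub (Int.mul 0 (Int.sub kay kcy)) (Int.mul 6 kby)))

/-- `n` steps -/
def run (H2 : Int) (ca cc cb DG DR deg : Nat) (n : Nat) : St → Option St :=
  Nat.rec (motive := fun _ => St → Option St) (fun s => some s)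
    (fun _ ih s => fLs (gen H2 deg s) fun L =>
      Bool.casesOn (motive := fun _ => Option St) ((chkS L s).and (chkL H2 ca cc cb DG DR L)) none
        (fSt (nxt L) ih)) n

/-- what the checks prove about the polynomials of a step -/
structure Good (H2 : ℤ) (ca cc cb DG DR : Nat) (L : Ls) : Prop where
  ga0 : ∀ x : ℝ, 0 ≤ x → x ≤ 1 → 0 < evR L.ga x
  gc0 : ∀ x : ℝ, 0 ≤ x → x ≤ 1 → 0 < evR L.gc x
  gb0 : ∀ x : ℝ, 0 ≤ x → x ≤ 1 → 0 < evR L.gb x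
  ga1 : ∀ x : ℝ, 0 ≤ x → x ≤ 1 → evR L.ga x * ca ≤ 1000 * 2 ^ 96
  gc1 : ∀ x : ℝ, 0 ≤ x → x ≤ 1 → evR L.gc x * cc ≤ 1000 * 2 ^ 96
  gb1 : ∀ x : ℝ, 0 ≤ x → x ≤ 1 → evR L.gb x * cb ≤ 1000 * 2 ^ 96
  ea : ∀ x : ℝ, 0 ≤ x → x ≤ 1 →
    |evR L.ga x * evR L.ga x * (evR L.ax x * evR L.ax x + evR L.ay x * evR L.ay x) - 2 ^ 384| ≤ 104 * (DG : ℝ)
  ec : ∀ x : ℝ, 0 ≤ x → x ≤ 1 →
    |evR L.gc x * evR L.gc x * ((evR L.ax x + evR L.bx x) * (evR L.ax x + evR L.bx x) +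
      (evR L.ay x + evR L.bt x) * (evR L.ay x + evR L.bt x)) - 2 ^ 384| ≤ 104 * (DG : ℝ)
  eb : ∀ x : ℝ, 0 ≤ x → x ≤ 1 →
    |evR L.gb x * evR L.gb x * (evR L.bx x * evR L.bx x + evR L.bt x * evR L.bt x) - 2 ^ 384| ≤ 104 * (DG : ℝ)
  rax : ∀ x : ℝ, 0 ≤ x → x ≤ 1 →
    |H2 * 2 * 2 ^ 288 * ddR L.ax x - (3 * (evR L.bx x * (evR L.gb x * evR L.gb x * evR L.gb x) -
      (evR L.ax x + evR L.bx x) * (evR L.gc x * evR L.gc x * evR L.gc x)) -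
      3 * (evR L.ax x * (evR L.ga x * evR L.ga x * evR L.ga x)))| ≤ 104 * (DR : ℝ)
  ray : ∀ x : ℝ, 0 ≤ x → x ≤ 1 →
    |H2 * 2 * 2 ^ 288 * ddR L.ay x - (3 * (evR L.bt x * (evR L.gb x * evR L.gb x * evR L.gb x) -
      (evR L.ay x + evR L.bt x) * (evR L.gc x * evR L.gc x * evR L.gc x)) -
      3 * (evR L.ay x * (evR L.ga x * evR L.ga x * evR L.ga x)))| ≤ 104 * (DR : ℝ)
  rbx : ∀ x : ℝ, 0 ≤ x → x ≤ 1 →
    |H2 * 2 * 2 ^ 288 * ddR L.bx x - (0 * (evR L.ax x * (evR L.ga x * evR L.ga x * evR L.ga x) -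
      (evR L.ax x + evR L.bx x) * (evR L.gc x * evR L.gc x * evR L.gc x)) -
      6 * (evR L.bx x * (evR L.gb x * evR L.gb x * evR L.gb x)))| ≤ 104 * (DR : ℝ)
  rby : ∀ x : ℝ, 0 ≤ x → x ≤ 1 →
    |H2 * 2 * 2 ^ 288 * ddR L.bt x - (0 * (evR L.ay x * (evR L.ga x * evR L.ga x * evR L.ga x) -
      (evR L.ay x + evR L.bt x) * (evR L.gc x * evR L.gc x * evR L.gc x)) -
      6 * (evR L.bt x * (evR L.gb x * evR L.gb x * evR L.gb x)))| ≤ 104 * (DR : ℝ)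

/-- soundness of the residual check -/
lemma chkR_sound {H2 : ℕ} (hH : H2 ≤ 1024) {D : ℕ} {l : List Int} {F : ℤ} {B : ℕ} {f : ℝ → ℝ}
    (hF : Rep F B f) (hB : B ≤ 2 ^ 420)
    (hD : 2 * D < XN) (h : chkR (H2 : ℤ) D l F = true) (x : ℝ) (h0 : 0 ≤ x) (h1 : x ≤ 1) :
    |((H2 : ℤ) : ℝ) * 2 * 2 ^ 288 * ddR l x - f x| ≤ 104 * (D : ℝ) := by
  rw [chkR, Bool.and_eq_true] at h
  obtain ⟨h2, h3⟩ := h
  have h2' : nrm (der2 0 (l.drop 2)) ≤ 2 ^ 112 := Nat.le_of_ble_eq_true h2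
  have r1 := Rep.list (der2 0 (l.drop 2)) h2'
  have r2 := r1.smul ((H2 : ℤ) * 2 * S3)
  have r3 := r2.sub hF
  have hb := r3.bound (B := _) (D := D) ?_ hD h3 h0 h1
  · rw [ddR_eq]
    have e : (((H2 : ℤ) * 2 * S3 : ℤ) : ℝ) = ((H2 : ℤ) : ℝ) * 2 * 2 ^ 288 := by
      rw [S3_cast]; push_cast; ring
    rw [e] at hb
    exact hb
  · have h4 : ((H2 : ℤ) * 2 * S3).natAbs = H2 * 2 * 2 ^ 288 := by
      rw [S3_cast]
      simp [Int.natAbs_mul, Int.natAbs_pow]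
    rw [h4]
    have h5 : 1024 * 2 * 2 ^ 288 * 2 ^ 112 + B ≤ 2 ^ 430 := by
      have : 1024 * 2 * 2 ^ 288 * 2 ^ 112 + 2 ^ 420 ≤ (2 : ℕ) ^ 430 := by norm_num
      omega
    have h6 : H2 * 2 * 2 ^ 288 * 2 ^ 112 ≤ 1024 * 2 * 2 ^ 288 * 2 ^ 112 := by gcongr
    have := two_pow_lt_XN
    omega

theorem chkL_sound {H2 : ℕ} (hH : H2 ≤ 1024) {ca cc cb : ℕ} (hca : 250 ≤ ca) (hcc : 250 ≤ cc)
    (hcb : 250 ≤ cb) {DG DR : ℕ} (hDG : 2 * DG < XN)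
    (hDR : 2 * DR < XN) {L : Ls}
    (h : chkL (H2 : ℤ) ca cc cb DG DR L = true) : Good (H2 : ℤ) ca cc cb DG DR L := by
  simp only [chkL, fI_eq, Bool.and_eq_true, chkB] at h
  obtain ⟨⟨nax, nay, nbx, nby, nga, ngc, ngb, pga, pgc, pgb⟩, ea, ec, eb, rax, ray, rbx, rby⟩ := h
  have nax' : nrm L.ax ≤ 2 ^ 102 := Nat.le_of_ble_eq_true nax
  have nay' : nrm L.ay ≤ 2 ^ 102 := Nat.le_of_ble_eq_true nay
  have nbx' : nrm L.bx ≤ 2 ^ 102 := Nat.le_of_ble_eq_true nbx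
  have nby' : nrm L.bt ≤ 2 ^ 102 := Nat.le_of_ble_eq_true nby
  have key : ∀ n c : ℕ, 250 ≤ c → n * c ≤ 1000 * 2 ^ 96 → n ≤ 2 ^ 98 := by
    intro n c h0 h2
    have h3 : n * 250 ≤ n * c := Nat.mul_le_mul_left n h0
    have e : (2 : ℕ) ^ 98 = 4 * 2 ^ 96 := by norm_num
    omega
  have nga' : nrm L.ga ≤ 2 ^ 98 := key _ _ hca (Nat.le_of_ble_eq_true nga)
  have ngc' : nrm L.gc ≤ 2 ^ 98 := key _ _ hcc (Nat.le_of_ble_eq_true ngc)
  have ngb' : nrm L.gb ≤ 2 ^ 98 := key _ _ hcb (Nat.le_of_ble_eq_true ngb)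
  have Rax := Rep.list L.ax nax'
  have Ray := Rep.list L.ay nay'
  have Rbx := Rep.list L.bx nbx'
  have Rby := Rep.list L.bt nby'
  have Rga := Rep.list L.ga nga'
  have Rgc := Rep.list L.gc ngc'
  have Rgb := Rep.list L.gb ngb'
  have e103 : (2 : ℕ) ^ 102 ≤ 2 ^ 103 := by norm_num
  have e103' : (2 : ℕ) ^ 102 + 2 ^ 102 ≤ 2 ^ 103 := by norm_num
  have Rcx := (Rax.add Rbx).mono e103'
  have Rcy := (Ray.add Rby).mono e103'
  have Rga3 := (Rga.mul Rga).mul Rga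
  have Rgc3 := (Rgc.mul Rgc).mul Rgc
  have Rgb3 := (Rgb.mul Rgb).mul Rgb
  have kax := Rax.mul Rga3
  have kay := Ray.mul Rga3
  have kcx := Rcx.mul Rgc3
  have kcy := Rcy.mul Rgc3
  have kbx := Rbx.mul Rgb3
  have kby := Rby.mul Rgb3
  refine ⟨g_pos pga, g_pos pgc, g_pos pgb, g_le nga, g_le ngc, g_le ngb,
    chkG_sound Rga (Rax.mono e103) (Ray.mono e103) hDG ea, chkG_sound Rgc Rcx Rcy hDG ec,
    chkG_sound Rgb (Rbx.mono e103) (Rby.mono e103) hDG eb, ?_, ?_, ?_, ?_⟩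
  · intro x h0 h1
    have := chkR_sound hH (((kbx.sub kcx).smul 3).sub (kax.smul 3)) (by norm_num) hDR rax x h0 h1
    push_cast at this ⊢
    exact this
  · intro x h0 h1
    have := chkR_sound hH (((kby.sub kcy).smul 3).sub (kay.smul 3)) (by norm_num) hDR ray x h0 h1
    push_cast at this ⊢
    exact this
  · intro x h0 h1
    have := chkR_sound hH (((kax.sub kcx).smul 0).sub (kbx.smul 6)) (by norm_num) hDR rbx x h0 h1
    push_cast at this ⊢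
    exact this
  · intro x h0 h1
    have := chkR_sound hH (((kay.sub kcy).smul 0).sub (kby.smul 6)) (by norm_num) hDR rby x h0 h1
    push_cast at this ⊢
    exact this

end Pool.Agent.T9h50.TR
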