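import Pool.Agent.T9h50.TR.Wsd5
import Pool.Agent.T9h50.TL.Bvp2

/-!
# The linearisation at the equilateral relative equilibrium
-/

set_option autoImplicit false

open scoped NNReal ComplexConjugate Topology
open Complex Set Filter

namespace Pool.Agent.T9h50.TR

open Pool.Agent.T9h50.TB (E kd)

lemma s3_2 : s3 ^ 2 = 3 := by rw [sq]; exact s3_sq
lemma s3_3 : s3 ^ 3 = 3 * s3 := by rw [pow_succ, s3_2]
lemma s3_4 : s3 ^ 4 = 9 := by
  have : s3 ^ 4 = (s3 ^ 2) ^ 2 := by ring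
  rw [this, s3_2]; norm_num

/-- the linearised kernel at a unit vector -/
noncomputable def lk (z h : ℂ) : ℂ := h - (3 * (z.re * h.re + z.im * h.im) : ℝ) • z

/-- the sides of the triangle -/
noncomputable def a0 : ℂ := ⟨-(1 / 2), -(s3 / 2)⟩
noncomputable def c0 : ℂ := ⟨1 / 2, -(s3 / 2)⟩

noncomputable def LAf (a b : ℂ) : ℂ :=
  (3 / 2 : ℝ) • (lk 1 b - lk c0 (a + b)) - (3 / 2 : ℝ) • lk a0 a
noncomputable def LBf (a b : ℂ) : ℂ :=
  (0 : ℝ) • (lk a0 a - lk c0 (a + b)) - (3 : ℝ) • lk 1 b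

/-- the linearised vector field in the rotating frame -/
noncomputable def Gf (h : E) : E :=
  (P0.sg • h.2.2.1 - (I * (s3 : ℂ)) * h.1, P0.sg • h.2.2.2 - (I * (s3 : ℂ)) * h.2.1,
    P0.sg⁻¹ • LAf h.1 h.2.1 - (I * (s3 : ℂ)) * h.2.2.1,
    P0.sg⁻¹ • LBf h.1 h.2.1 - (I * (s3 : ℂ)) * h.2.2.2)

/-- coordinates -/
noncomputable def fX (a b : ℂ) : ℝ := s3 / 3 * (a.im + b.im / 2) + b.re / 2
noncomputable def fY (a b : ℂ) : ℝ := -a.re - b.re / 2 + s3 / 2 * b.im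
noncomputable def fx (a b : ℂ) : ℝ := b.re / 2 - s3 / 3 * (a.im + b.im / 2)
noncomputable def fy (a b : ℂ) : ℝ := a.re + b.re / 2 + s3 / 2 * b.im

lemma mulI_re (z : ℂ) : ((I * (s3 : ℂ)) * z).re = -(s3 * z.im) := by simp
lemma mulI_im (z : ℂ) : ((I * (s3 : ℂ)) * z).im = s3 * z.re := by simp

lemma LAf_re (a b : ℂ) : (LAf a b).re = 3 / 2 * ((b.re - 3 * b.re) - ((a.re + b.re) -
    3 * ((a.re + b.re) / 2 - s3 / 2 * (a.im + b.im)) * (1 / 2))) -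
    3 / 2 * (a.re - 3 * (-(a.re / 2) - s3 / 2 * a.im) * (-(1 / 2))) := by
  simp [LAf, lk, a0, c0]
  ring

lemma LAf_im (a b : ℂ) : (LAf a b).im = 3 / 2 * (b.im - ((a.im + b.im) -
    3 * ((a.re + b.re) / 2 - s3 / 2 * (a.im + b.im)) * (-(s3 / 2)))) -
    3 / 2 * (a.im - 3 * (-(a.re / 2) - s3 / 2 * a.im) * (-(s3 / 2))) := by
  simp [LAf, lk, a0, c0]
  ring

lemma LBf_re (a b : ℂ) : (LBf a b).re = 0 * ((a.re - 3 * (-(a.re / 2) - s3 / 2 * a.im) * (-(1 / 2))) -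
    ((a.re + b.re) - 3 * ((a.re + b.re) / 2 - s3 / 2 * (a.im + b.im)) * (1 / 2))) -
    3 * (b.re - 3 * b.re) := by
  simp [LBf, lk, a0, c0]

lemma LBf_im (a b : ℂ) : (LBf a b).im = 0 * ((a.im - 3 * (-(a.re / 2) - s3 / 2 * a.im) * (-(s3 / 2))) -
    ((a.im + b.im) - 3 * ((a.re + b.re) / 2 - s3 / 2 * (a.im + b.im)) * (-(s3 / 2)))) -
    3 * b.im := by
  simp [LBf, lk, a0, c0]

lemma fX_L (a b : ℂ) : fX (LAf a b) (LBf a b) = (3 / 2 + 9 / 4) * fX a b := by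
  simp only [fX, LAf_im, LBf_im, LBf_re]
  ring_nf <;> simp only [s3_2, s3_3] <;> ring

lemma fY_L (a b : ℂ) : fY (LAf a b) (LBf a b) = (3 / 2 - 9 / 4) * fY a b := by
  simp only [fY, LAf_re, LBf_im, LBf_re]
  ring_nf <;> simp only [s3_2, s3_3] <;> ring

lemma fx_L (a b : ℂ) : fx (LAf a b) (LBf a b) = 6 * fx a b + 9 / 4 * fX a b := by
  simp only [fx, fX, LAf_im, LBf_im, LBf_re]
  ring_nf <;> simp only [s3_2, s3_3] <;> ring

lemma fy_L (a b : ℂ) : fy (LAf a b) (LBf a b) = -(3 * fy a b) - 9 / 4 * fY a b := by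
  simp only [fy, fY, LAf_re, LBf_im, LBf_re]
  ring_nf <;> simp only [s3_2, s3_3] <;> ring

lemma fX_I (a b c d : ℂ) : fX (c - (I * (s3 : ℂ)) * a) (d - (I * (s3 : ℂ)) * b) = fX c d + fY a b := by
  simp only [fX, fY, Complex.sub_re, Complex.sub_im, mulI_re, mulI_im]
  ring_nf
  simp only [s3_2]
  ring

lemma fY_I (a b c d : ℂ) : fY (c - (I * (s3 : ℂ)) * a) (d - (I * (s3 : ℂ)) * b) = fY c d - 3 * fX a b := by
  simp only [fX, fY, Complex.sub_re, Complex.sub_im, mulI_re, mulI_im]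
  ring_nf
  simp only [s3_2]
  ring

lemma fx_I (a b c d : ℂ) : fx (c - (I * (s3 : ℂ)) * a) (d - (I * (s3 : ℂ)) * b) = fx c d + fy a b := by
  simp only [fx, fy, Complex.sub_re, Complex.sub_im, mulI_re, mulI_im]
  ring_nf
  simp only [s3_2]
  ring

lemma fy_I (a b c d : ℂ) : fy (c - (I * (s3 : ℂ)) * a) (d - (I * (s3 : ℂ)) * b) = fy c d - 3 * fx a b := by
  simp only [fx, fy, Complex.sub_re, Complex.sub_im, mulI_re, mulI_im]
  ring_nf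
  simp only [s3_2]
  ring

/-- coordinates of the state -/
noncomputable def gX (h : E) : ℝ := fX h.1 h.2.1
noncomputable def gY (h : E) : ℝ := fY h.1 h.2.1
noncomputable def gP (h : E) : ℝ := 7 / 2 * fX h.2.2.1 h.2.2.2
noncomputable def gQ (h : E) : ℝ := 7 / 2 * fY h.2.2.1 h.2.2.2
noncomputable def gx (h : E) : ℝ := fx h.1 h.2.1
noncomputable def gy (h : E) : ℝ := fy h.1 h.2.1
noncomputable def gr (h : E) : ℝ := 7 / 2 * fx h.2.2.1 h.2.2.2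
noncomputable def gs (h : E) : ℝ := 7 / 2 * fy h.2.2.1 h.2.2.2

lemma P0_sg : P0.sg = 7 / 2 := rfl

lemma f_smul (c : ℝ) (a b : ℂ) : fX (c • a) (c • b) = c * fX a b ∧ fY (c • a) (c • b) = c * fY a b ∧
    fx (c • a) (c • b) = c * fx a b ∧ fy (c • a) (c • b) = c * fy a b := by
  simp only [fX, fY, fx, fy, Complex.smul_re, Complex.smul_im, smul_eq_mul]
  refine ⟨by ring, by ring, by ring, by ring⟩

lemma g_G (h : E) : gX (Gf h) = gP h + gY h ∧ gY (Gf h) = gQ h - 3 * gX h ∧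
    gP (Gf h) = (3 / 2 + 9 / 4) * gX h + gQ h ∧ gQ (Gf h) = (3 / 2 - 9 / 4) * gY h - 3 * gP h ∧
    gx (Gf h) = gr h + gy h ∧ gy (Gf h) = gs h - 3 * gx h ∧
    gr (Gf h) = 6 * gx h + 9 / 4 * gX h + gs h ∧ gs (Gf h) = -(3 * gy h) - 9 / 4 * gY h - 3 * gr h := by
  have i1 : (P0.sg)⁻¹ = 2 / 7 := by rw [P0_sg]; norm_num
  refine ⟨?_, ?_, ?_, ?_, ?_, ?_, ?_, ?_⟩
  · simp only [gX, gP, gY, Gf, fX_I, (f_smul _ _ _).1, P0_sg]
  · simp only [gX, gQ, gY, Gf, fY_I, (f_smul _ _ _).2.1, P0_sg]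
  · simp only [gX, gP, gQ, Gf, fX_I, (f_smul _ _ _).1, i1, fX_L]; ring
  · simp only [gY, gP, gQ, Gf, fY_I, (f_smul _ _ _).2.1, i1, fY_L]; ring
  · simp only [gx, gr, gy, Gf, fx_I, (f_smul _ _ _).2.2.1, P0_sg]
  · simp only [gx, gs, gy, Gf, fy_I, (f_smul _ _ _).2.2.2, P0_sg]
  · simp only [gx, gr, gs, gX, Gf, fx_I, (f_smul _ _ _).2.2.1, i1, fx_L]; ring
  · simp only [gy, gY, gr, gs, Gf, fy_I, (f_smul _ _ _).2.2.2, i1, fy_L]; ring

end Pool.Agent.T9h50.TR
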