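import Pool.Agent.T9h50.TR.Spc

/-!
# The splitting of the state space
-/

set_option autoImplicit false

open scoped NNReal ComplexConjugate Topology
open Complex Set Filter

namespace Pool.Agent.T9h50.TR

open Pool.Agent.T9h50.TB (E kd)

/-- the unstable eigenvalue -/
noncomputable def aL : ℝ := Real.sqrt (9 * s3 / 8 - 3 / 4)
noncomputable def bL : ℝ := Real.sqrt (9 * s3 / 8 + 3 / 4)
noncomputable def lam : ℂ := ⟨aL, bL⟩
noncomputable def dlt : ℝ := 2 * aL * bL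

lemma s3_b : 1.732 < s3 ∧ s3 < 1.7321 := by
  have h := s3_sq
  have h0 := s3_pos
  constructor <;> nlinarith
lemma aL_sq : aL * aL = 9 * s3 / 8 - 3 / 4 := Real.mul_self_sqrt (by linarith [s3_b.1])
lemma bL_sq : bL * bL = 9 * s3 / 8 + 3 / 4 := Real.mul_self_sqrt (by linarith [s3_b.1])
lemma aL_pos : 0 < aL := Real.sqrt_pos.2 (by linarith [s3_b.1])
lemma bL_pos : 0 < bL := Real.sqrt_pos.2 (by linarith [s3_b.1])
lemma aL_gt : 1.094 < aL := by nlinarith [aL_sq, aL_pos, s3_b.1]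
lemma aL_lt : aL < 1.095 := by nlinarith [aL_sq, aL_pos, s3_b.2]
lemma bL_gt : 1.642 < bL := by nlinarith [bL_sq, bL_pos, s3_b.1]
lemma bL_lt : bL < 1.643 := by nlinarith [bL_sq, bL_pos, s3_b.2]

lemma dlt_sq : dlt * dlt = 207 / 16 := by
  have h : dlt * dlt = 4 * (aL * aL) * (bL * bL) := by simp only [dlt]; ring
  rw [h, aL_sq, bL_sq]; nlinarith [s3_sq]
lemma dlt_pos : 0 < dlt := by have := aL_pos; have := bL_pos; unfold dlt; positivity
lemma dlt_gt : 3.59 < dlt := by nlinarith [dlt_sq, dlt_pos]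
lemma dlt_lt : dlt < 3.6 := by nlinarith [dlt_sq, dlt_pos]

lemma lam_re : lam.re = aL := rfl
lemma lam_im : lam.im = bL := rfl

/-- the coefficients of the unstable functional -/
noncomputable def c1 : ℂ := ⟨aL * (9 / 4) - bL * dlt, aL * dlt + bL * (9 / 4)⟩
noncomputable def c2 : ℂ := ⟨3 / 4, dlt⟩
noncomputable def c3 : ℂ := ⟨-(15 / 4), dlt⟩
noncomputable def c4 : ℂ := ⟨2 * aL, 2 * bL⟩

lemma c_rel : -(3 * c2) + (3 / 2 + 9 / 4) * c3 = lam * c1 ∧ c1 + (3 / 2 - 9 / 4) * c4 = lam * c2 ∧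
    c1 - 3 * c4 = lam * c3 ∧ c2 + c3 = lam * c4 := by
  have ha := aL_sq
  have hb := bL_sq
  have hd := dlt_sq
  have hdd : dlt = 2 * aL * bL := rfl
  refine ⟨?_, ?_, ?_, ?_⟩
  · apply Complex.ext
    · simp [c1, c2, c3, lam]
      norm_num
      have e : -(bL * (aL * dlt + bL * (9 / 4))) + aL * (aL * (9 / 4) - bL * dlt) =
        (aL * aL - bL * bL) * (9 / 4) - dlt * dlt := by rw [hdd]; ring
      linarith [e, ha, hb, hd]
    · simp [c1, c2, c3, lam]
      norm_num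
      have e : aL * (aL * dlt + bL * (9 / 4)) + bL * (aL * (9 / 4) - bL * dlt) =
        (aL * aL - bL * bL) * dlt + dlt * (9 / 4) := by rw [hdd]; ring
      rw [ha, hb] at e
      linarith [e]
  · apply Complex.ext
    · simp [c1, c2, c4, lam]
      norm_num
      linarith
    · simp [c1, c2, c4, lam]
      norm_num
      linarith
  · apply Complex.ext
    · simp [c1, c3, c4, lam]
      norm_num
      linarith
    · simp [c1, c3, c4, lam]
      norm_num
      linarith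
  · apply Complex.ext
    · simp [c2, c3, c4, lam]
      nlinarith
    · simp [c2, c3, c4, lam]
      rw [hdd]; ring

/-- the unstable and the stable functional -/
noncomputable def lU (h : E) : ℂ := c1 * gX h + c2 * gY h + c3 * gP h + c4 * gQ h
noncomputable def lS (h : E) : ℂ := c1 * gX h - c2 * gY h - c3 * gP h + c4 * gQ h

lemma lU_G (h : E) : lU (Gf h) = lam * lU h := by
  obtain ⟨g1, g2, g3, g4, -⟩ := g_G h
  obtain ⟨r1, r2, r3, r4⟩ := c_rel
  simp only [lU, g1, g2, g3, g4]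
  push_cast
  linear_combination (gX h : ℂ) * r1 + (gY h : ℂ) * r2 + (gP h : ℂ) * r3 + (gQ h : ℂ) * r4

lemma lS_G (h : E) : lS (Gf h) = -(lam * lS h) := by
  obtain ⟨g1, g2, g3, g4, -⟩ := g_G h
  obtain ⟨r1, r2, r3, r4⟩ := c_rel
  simp only [lS, g1, g2, g3, g4]
  push_cast
  linear_combination -(gX h : ℂ) * r1 + (gY h : ℂ) * r2 + (gP h : ℂ) * r3 - (gQ h : ℂ) * r4

/-- the second functional -/
noncomputable def l2 (h : E) : ℂ :=
  ⟨s3 * (-gx h - 2 / 3 * gs h) / 10, (gr h + gy h) / 10⟩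
/-- the third functional -/
noncomputable def l3 (h : E) : ℂ :=
  ⟨(gs h + 3 * gx h) / 10, (-gy h - 2 * gr h) / 100⟩

abbrev FF : Type := ℂ × ℂ × ℂ

/-- the functionals `X` and `Y` in the new coordinates -/
noncomputable def tX (z : ℂ) : ℝ := (conj c4 * z).im / (9 * s3 * dlt)
noncomputable def tY (z : ℂ) : ℝ := -((conj c3 * z).im / (9 * dlt))
noncomputable def tP (z : ℂ) : ℝ := (conj c2 * z).im / (9 * dlt)
noncomputable def tQ (z : ℂ) : ℝ := -((conj c1 * z).im / (9 * s3 * dlt))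

lemma t_inv (X Y P Q : ℝ) : tX (c1 * X + c2 * Y + c3 * P + c4 * Q) + tX (c1 * X - c2 * Y - c3 * P + c4 * Q) = X ∧
    tY (c1 * X + c2 * Y + c3 * P + c4 * Q) - tY (c1 * X - c2 * Y - c3 * P + c4 * Q) = Y ∧
    tP (c1 * X + c2 * Y + c3 * P + c4 * Q) - tP (c1 * X - c2 * Y - c3 * P + c4 * Q) = P ∧
    tQ (c1 * X + c2 * Y + c3 * P + c4 * Q) + tQ (c1 * X - c2 * Y - c3 * P + c4 * Q) = Q := by
  have ha := aL_sq
  have hb := bL_sq
  have hd := dlt_pos.ne'
  have hs := s3_pos.ne'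
  refine ⟨?_, ?_, ?_, ?_⟩
  · simp [tX, c1, c2, c3, c4]
    field_simp
    linear_combination (16 * dlt * X) * ha + (16 * dlt * X) * hb
  · simp [tY, c1, c2, c3, c4]
    field_simp
    ring
  · simp [tP, c1, c2, c3, c4]
    field_simp
    ring
  · simp [tQ, c1, c2, c3, c4]
    field_simp
    linear_combination (64 * dlt * Q) * ha + (64 * dlt * Q) * hb


lemma t_inv' (z w : ℂ) : c1 * ((tX z + tX w : ℝ) : ℂ) + c2 * ((tY z - tY w : ℝ) : ℂ) + c3 * ((tP z - tP w : ℝ) : ℂ) +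
      c4 * ((tQ z + tQ w : ℝ) : ℂ) = z ∧
    c1 * ((tX z + tX w : ℝ) : ℂ) - c2 * ((tY z - tY w : ℝ) : ℂ) - c3 * ((tP z - tP w : ℝ) : ℂ) +
      c4 * ((tQ z + tQ w : ℝ) : ℂ) = w := by
  have ha := aL_sq
  have hb := bL_sq
  have hd := dlt_pos.ne'
  have hs := s3_pos.ne'
  -- the two real planes
  have hr : ∀ (c : ℂ) (x : ℝ), (c * (x : ℂ)).re = c.re * x ∧ (c * (x : ℂ)).im = c.im * x := by
    intro c x; simp
  have e1 : ∀ u : ℂ, c1 * ((2 * tX u : ℝ) : ℂ) + c4 * ((2 * tQ u : ℝ) : ℂ) = u := by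
    intro u
    apply Complex.ext
    · rw [Complex.add_re, (hr _ _).1, (hr _ _).1]
      simp only [tX, tQ, c1, c4, Complex.mul_im, Complex.conj_re, Complex.conj_im]
      field_simp
      linear_combination (16 * dlt * u.re) * ha + (16 * dlt * u.re) * hb
    · rw [Complex.add_im, (hr _ _).2, (hr _ _).2]
      simp only [tX, tQ, c1, c4, Complex.mul_im, Complex.conj_re, Complex.conj_im]
      field_simp
      linear_combination (16 * dlt * u.im) * ha + (16 * dlt * u.im) * hb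
  have e2 : ∀ u : ℂ, c2 * ((2 * tY u : ℝ) : ℂ) + c3 * ((2 * tP u : ℝ) : ℂ) = u := by
    intro u
    apply Complex.ext
    · rw [Complex.add_re, (hr _ _).1, (hr _ _).1]
      simp only [tY, tP, c2, c3, Complex.mul_im, Complex.conj_re, Complex.conj_im]
      field_simp
      ring
    · rw [Complex.add_im, (hr _ _).2, (hr _ _).2]
      simp only [tY, tP, c2, c3, Complex.mul_im, Complex.conj_re, Complex.conj_im]
      field_simp
      ring
  have a1 := e1 z
  have a2 := e1 w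
  have a3 := e2 z
  have a4 := e2 w
  push_cast at a1 a2 a3 a4 ⊢
  constructor
  · linear_combination (1 / 2) * a1 + (1 / 2) * a2 + (1 / 2) * a3 - (1 / 2) * a4
  · linear_combination (1 / 2) * a1 + (1 / 2) * a2 - (1 / 2) * a3 + (1 / 2) * a4

/-- linearity of the coordinates -/
lemma t_add (z w : ℂ) : tX (z + w) = tX z + tX w ∧ tY (z + w) = tY z + tY w ∧
    tP (z + w) = tP z + tP w ∧ tQ (z + w) = tQ z + tQ w := by
  simp only [tX, tY, tP, tQ, mul_add, Complex.add_im]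
  refine ⟨by ring, by ring, by ring, by ring⟩

lemma t_smul (c : ℝ) (z : ℂ) : tX (c • z) = c * tX z ∧ tY (c • z) = c * tY z ∧
    tP (c • z) = c * tP z ∧ tQ (c • z) = c * tQ z := by
  simp only [tX, tY, tP, tQ, Algebra.mul_smul_comm, Complex.smul_im, smul_eq_mul]
  refine ⟨by ring, by ring, by ring, by ring⟩

lemma norm_c : ‖c1‖ ≤ 8.38 ∧ ‖c2‖ ≤ 3.8 ∧ ‖c3‖ ≤ 5.35 ∧ ‖c4‖ ≤ 4 := by
  have ha := aL_sq
  have hb := bL_sq
  have hd := dlt_sq
  have hdd : dlt = 2 * aL * bL := rfl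
  have key : ∀ {x : ℂ} {c : ℝ}, 0 ≤ c → x.re * x.re + x.im * x.im ≤ c * c → ‖x‖ ≤ c := by
    intro x c hc h
    have : ‖x‖ ^ 2 ≤ c ^ 2 := by
      rw [← Complex.normSq_eq_norm_sq, Complex.normSq_apply, sq]; exact h
    exact le_of_sq_le_sq this hc
  refine ⟨key (by norm_num) ?_, key (by norm_num) ?_, key (by norm_num) ?_, key (by norm_num) ?_⟩
  · simp only [c1]
    have e : (aL * (9 / 4) - bL * dlt) * (aL * (9 / 4) - bL * dlt) +
      (aL * dlt + bL * (9 / 4)) * (aL * dlt + bL * (9 / 4)) =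
      (aL * aL + bL * bL) * ((9 / 4) ^ 2 + dlt * dlt) := by ring
    rw [e, ha, hb, hd]; norm_num; linarith [s3_b.2]
  · simp only [c2]
    rw [hd]; norm_num
  · simp only [c3]
    rw [hd]; norm_num
  · simp only [c4]
    have e : 2 * aL * (2 * aL) + 2 * bL * (2 * bL) = 4 * (aL * aL) + 4 * (bL * bL) := by ring
    rw [e, ha, hb]; norm_num; linarith [s3_b.2]
where
  le_of_sq_le_sq {a b : ℝ} (h : a ^ 2 ≤ b ^ 2) (hb : 0 ≤ b) : a ≤ b := abs_le_of_sq_le_sq' h hb |>.2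

lemma t_bound (z : ℂ) : |tX z| ≤ 8 / 100 * ‖z‖ ∧ |tY z| ≤ 17 / 100 * ‖z‖ ∧ |tP z| ≤ 12 / 100 * ‖z‖ ∧
    |tQ z| ≤ 15 / 100 * ‖z‖ := by
  obtain ⟨n1, n2, n3, n4⟩ := norm_c
  have hd := dlt_gt
  have hd0 := dlt_pos
  have key : ∀ {c : ℂ} {k d r : ℝ}, ‖c‖ ≤ k → 0 < d → k ≤ r * (d * 3.59) →
      |(conj c * z).im / (d * dlt)| ≤ r * ‖z‖ := by
    intro c k d r hc hd1 h
    have h1 : |(conj c * z).im| ≤ k * ‖z‖ := by
      refine (Complex.abs_im_le_norm _).trans ?_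
      rw [norm_mul, Complex.norm_conj]
      gcongr
    have hp : 0 < d * dlt := by positivity
    rw [abs_div, abs_of_pos hp, div_le_iff₀ hp]
    have hr : 0 ≤ r := by
      have h0 : 0 ≤ k := (norm_nonneg _).trans hc
      have h2 := h0.trans h
      exact nonneg_of_mul_nonneg_left h2 (by positivity)
    calc |(conj c * z).im| ≤ k * ‖z‖ := h1
      _ ≤ (r * (d * 3.59)) * ‖z‖ := by gcongr
      _ ≤ (r * (d * dlt)) * ‖z‖ := by gcongr
      _ = _ := by ring
  refine ⟨?_, ?_, ?_, ?_⟩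
  · exact key n4 (by linarith [s3_b.1]) (by norm_num; linarith [s3_b.1])
  · rw [tY, abs_neg]; exact key n3 (by norm_num) (by norm_num)
  · exact key n2 (by norm_num) (by norm_num)
  · rw [tQ, abs_neg]; exact key n1 (by linarith [s3_b.1]) (by norm_num; linarith [s3_b.1])

end Pool.Agent.T9h50.TR
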