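import Pool.Agent.T9h50.TR.Spc5

/-!
# Estimates for the field near the relative equilibrium
-/

set_option autoImplicit false

open scoped NNReal ComplexConjugate Topology
open Complex Set Filter

namespace Pool.Agent.T9h50.TR

open Pool.Agent.T9h50.TB (E kd kd_eq kd_lip ip dtm ip_self hasDerivAt_inv_norm)

/-- the relative equilibrium -/
noncomputable def xre : E :=
  (a0, 1, P0.sg⁻¹ • ((I * (s3 : ℂ)) * a0), P0.sg⁻¹ • (I * (s3 : ℂ)))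

lemma norm_a0 : ‖a0‖ = 1 := by
  have : ‖a0‖ ^ 2 = 1 := by
    rw [← Complex.normSq_eq_norm_sq, Complex.normSq_apply, a0]
    nlinarith [s3_sq]
  nlinarith [norm_nonneg a0]

lemma norm_c0 : ‖c0‖ = 1 := by
  have : ‖c0‖ ^ 2 = 1 := by
    rw [← Complex.normSq_eq_norm_sq, Complex.normSq_apply, c0]
    nlinarith [s3_sq]
  nlinarith [norm_nonneg c0]

lemma a0_add : a0 + 1 = c0 := by
  apply Complex.ext
  · simp [a0, c0]; norm_num
  · simp [a0, c0]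

lemma I3_sq : (I * (s3 : ℂ)) * (I * (s3 : ℂ)) = -3 := by
  have h : ((s3 : ℂ)) * (s3 : ℂ) = 3 := by exact_mod_cast s3_sq
  linear_combination (-1 : ℂ) * h + ((s3 : ℂ) * s3) * Complex.I_mul_I

lemma norm_I3 : ‖I * (s3 : ℂ)‖ = s3 := by
  rw [norm_mul, Complex.norm_I, one_mul, Complex.norm_real, Real.norm_of_nonneg s3_pos.le]

lemma norm_xre : ‖xre.1‖ = 1 ∧ ‖xre.2.1‖ = 1 ∧ ‖xre.1 + xre.2.1‖ = 1 := by
  refine ⟨norm_a0, norm_one, ?_⟩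
  show ‖a0 + 1‖ = 1
  rw [a0_add, norm_c0]

lemma sg_inv : (P0.sg)⁻¹ = 2 / 7 := by rw [P0_sg]; norm_num

lemma norm_xre_le : ‖xre‖ ≤ 1 := by
  have h27 : ‖(2 / 7 : ℝ)‖ = 2 / 7 := by norm_num
  have hs := s3_lt
  rw [Prod.norm_def, Prod.norm_def, Prod.norm_def]
  refine max_le norm_xre.1.le (max_le norm_xre.2.1.le (max_le ?_ ?_))
  · show ‖P0.sg⁻¹ • ((I * (s3 : ℂ)) * a0)‖ ≤ 1
    rw [sg_inv, norm_smul, norm_mul, norm_a0, norm_I3, h27]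
    norm_num at hs
    linarith
  · show ‖P0.sg⁻¹ • (I * (s3 : ℂ))‖ ≤ 1
    rw [sg_inv, norm_smul, norm_I3, h27]
    norm_num at hs
    linarith

lemma far_xre : Far P0 (1 / 200) xre := by
  obtain ⟨n1, n2, n3⟩ := norm_xre
  refine ⟨?_, ?_, ?_⟩
  · rw [n1]; show (199 / 200 : ℝ) + 1 / 200 ≤ 1; norm_num
  · rw [n3]; show (199 / 200 : ℝ) + 1 / 200 ≤ 1; norm_num
  · rw [n2]; show (199 / 200 : ℝ) + 1 / 200 ≤ 1; norm_num

lemma kd_one {z : ℂ} (h : ‖z‖ = 1) : kd (199 / 200) z = z := by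
  rw [kd_eq (by rw [h]; norm_num), h]; simp

lemma FA0 (m : Fin 3 → ℝ) (a b : ℂ) : FA P0 m a b =
    -((m 0 + m 1 : ℝ) • kd (199 / 200) a) - (m 2 : ℝ) • kd (199 / 200) (a + b) + (m 2 : ℝ) • kd (199 / 200) b := rfl

lemma FB0 (m : Fin 3 → ℝ) (a b : ℂ) : FB P0 m a b =
    (m 0 : ℝ) • kd (199 / 200) a - (m 0 : ℝ) • kd (199 / 200) (a + b) - (m 1 + m 2 : ℝ) • kd (199 / 200) b := rfl

lemma fld_xre : fld P0 mh xre = (I * (s3 : ℂ)) • xre := by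
  have hA : FA P0 mh a0 1 = (I * (s3 : ℂ)) * ((I * (s3 : ℂ)) * a0) := by
    rw [← mul_assoc, I3_sq, FA0, a0_add, kd_one norm_a0, kd_one norm_c0, kd_one norm_one, mh0, mh1, mh2,
      ← a0_add]
    simp only [Complex.real_smul]; push_cast; ring
  have hB : FB P0 mh a0 1 = (I * (s3 : ℂ)) * (I * (s3 : ℂ)) := by
    rw [I3_sq, FB0, a0_add, kd_one norm_a0, kd_one norm_c0, kd_one norm_one, mh0, mh1, mh2,
      ← a0_add]
    simp only [Complex.real_smul]; push_cast; ring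
  have hs : P0.sg ≠ 0 := P0.sg0.ne'
  refine Prod.ext ?_ (Prod.ext ?_ (Prod.ext ?_ ?_))
  · show P0.sg • (P0.sg⁻¹ • ((I * (s3 : ℂ)) * a0)) = (I * (s3 : ℂ)) * a0
    rw [smul_smul, mul_inv_cancel₀ hs, one_smul]
  · show P0.sg • (P0.sg⁻¹ • (I * (s3 : ℂ))) = (I * (s3 : ℂ)) * 1
    rw [smul_smul, mul_inv_cancel₀ hs, one_smul, mul_one]
  · show P0.sg⁻¹ • FA P0 mh a0 1 = (I * (s3 : ℂ)) * (P0.sg⁻¹ • ((I * (s3 : ℂ)) * a0))
    rw [hA]; simp only [Complex.real_smul]; ring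
  · show P0.sg⁻¹ • FB P0 mh a0 1 = (I * (s3 : ℂ)) * (P0.sg⁻¹ • (I * (s3 : ℂ)))
    rw [hB]; simp only [Complex.real_smul]; ring

/-- the quadratic error of the linearisation -/
noncomputable def Qd (x y : E) : E := fld P0 mh x - fld P0 mh y - (Gf (x - y) + (I * (s3 : ℂ)) • (x - y))

lemma Gf_sub (x y : E) : Gf (x - y) = Gf x - Gf y := by
  have hlk : ∀ z a b : ℂ, lk z (a - b) = lk z a - lk z b := by
    intro z a b
    simp only [lk, Complex.sub_re, Complex.sub_im, Complex.real_smul]; push_cast; ring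
  have hA : LAf (x.1 - y.1) (x.2.1 - y.2.1) = LAf x.1 x.2.1 - LAf y.1 y.2.1 := by
    have e : (x.1 - y.1) + (x.2.1 - y.2.1) = (x.1 + x.2.1) - (y.1 + y.2.1) := by ring
    rw [LAf, LAf, LAf, e, hlk, hlk, hlk]
    simp only [Complex.real_smul]; ring
  have hB : LBf (x.1 - y.1) (x.2.1 - y.2.1) = LBf x.1 x.2.1 - LBf y.1 y.2.1 := by
    have e : (x.1 - y.1) + (x.2.1 - y.2.1) = (x.1 + x.2.1) - (y.1 + y.2.1) := by ring
    rw [LBf, LBf, LBf, e, hlk, hlk, hlk]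
    simp only [Complex.real_smul]; ring
  refine Prod.ext ?_ (Prod.ext ?_ (Prod.ext ?_ ?_))
  · show P0.sg • (x.2.2.1 - y.2.2.1) - (I * (s3 : ℂ)) * (x.1 - y.1) =
      (P0.sg • x.2.2.1 - (I * (s3 : ℂ)) * x.1) - (P0.sg • y.2.2.1 - (I * (s3 : ℂ)) * y.1)
    simp only [Complex.real_smul]; ring
  · show P0.sg • (x.2.2.2 - y.2.2.2) - (I * (s3 : ℂ)) * (x.2.1 - y.2.1) =
      (P0.sg • x.2.2.2 - (I * (s3 : ℂ)) * x.2.1) - (P0.sg • y.2.2.2 - (I * (s3 : ℂ)) * y.2.1)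
    simp only [Complex.real_smul]; ring
  · show P0.sg⁻¹ • LAf (x.1 - y.1) (x.2.1 - y.2.1) - (I * (s3 : ℂ)) * (x.2.2.1 - y.2.2.1) =
      (P0.sg⁻¹ • LAf x.1 x.2.1 - (I * (s3 : ℂ)) * x.2.2.1) - (P0.sg⁻¹ • LAf y.1 y.2.1 - (I * (s3 : ℂ)) * y.2.2.1)
    rw [hA]; simp only [Complex.real_smul]; ring
  · show P0.sg⁻¹ • LBf (x.1 - y.1) (x.2.1 - y.2.1) - (I * (s3 : ℂ)) * (x.2.2.2 - y.2.2.2) =
      (P0.sg⁻¹ • LBf x.1 x.2.1 - (I * (s3 : ℂ)) * x.2.2.2) - (P0.sg⁻¹ • LBf y.1 y.2.1 - (I * (s3 : ℂ)) * y.2.2.2)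
    rw [hB]; simp only [Complex.real_smul]; ring

lemma Qd_tele (x y x' y' : E) : Qd x y - Qd x' y' = Qd x x' - Qd y y' := by
  simp only [Qd, Gf_sub, smul_sub]; abel

lemma Qd_bound {x y : E} {ρ : ℝ} (hρ : ρ ≤ 1 / 400) (hx : ‖x - xre‖ ≤ ρ) (hy : ‖y - xre‖ ≤ ρ) :
    ‖Qd x y‖ ≤ 80 * ρ * ‖x - y‖ := by
  have hρ0 : 0 ≤ ρ := (norm_nonneg _).trans hx
  set r := ‖x - y‖ with hr
  have hr0 : 0 ≤ r := norm_nonneg _
  have nA : ‖x.1 - y.1‖ ≤ r := norm_fst_le (x - y)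
  have nB : ‖x.2.1 - y.2.1‖ ≤ r := (norm_fst_le (x - y).2).trans (norm_snd_le (x - y))
  have nC : ‖(x.1 + x.2.1) - (y.1 + y.2.1)‖ ≤ 2 * r := by
    have : (x.1 + x.2.1) - (y.1 + y.2.1) = (x.1 - y.1) + (x.2.1 - y.2.1) := by ring
    rw [this]
    exact (norm_add_le _ _).trans (by linarith)
  have c1 : ∀ z : E, ‖z - xre‖ ≤ ρ → ‖z.1 - a0‖ ≤ ρ := fun z hz => (norm_fst_le (z - xre)).trans hz
  have c2 : ∀ z : E, ‖z - xre‖ ≤ ρ → ‖z.2.1 - 1‖ ≤ ρ := fun z hz =>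
    ((norm_fst_le (z - xre).2).trans (norm_snd_le (z - xre))).trans hz
  have c3 : ∀ z : E, ‖z - xre‖ ≤ ρ → ‖z.1 + z.2.1 - c0‖ ≤ 2 * ρ := by
    intro z hz
    have : z.1 + z.2.1 - c0 = (z.1 - a0) + (z.2.1 - 1) := by rw [← a0_add]; ring
    rw [this]
    exact (norm_add_le _ _).trans (by linarith [c1 z hz, c2 z hz])
  have kA := kd_quad norm_a0 (by linarith) (c1 x hx) (c1 y hy)
  have kB := kd_quad norm_one (by linarith) (c2 x hx) (c2 y hy)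
  have kC := kd_quad norm_c0 (by linarith) (c3 x hx) (c3 y hy)
  have kA' : ‖kd (199 / 200) x.1 - kd (199 / 200) y.1 - lk a0 (x.1 - y.1)‖ ≤ 27 * ρ * r :=
    kA.trans (by gcongr)
  have kB' : ‖kd (199 / 200) x.2.1 - kd (199 / 200) y.2.1 - lk 1 (x.2.1 - y.2.1)‖ ≤ 27 * ρ * r :=
    kB.trans (by gcongr)
  have kC' : ‖kd (199 / 200) (x.1 + x.2.1) - kd (199 / 200) (y.1 + y.2.1) -
      lk c0 ((x.1 + x.2.1) - (y.1 + y.2.1))‖ ≤ 108 * ρ * r :=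
    kC.trans (by
      calc 27 * (2 * ρ) * ‖x.1 + x.2.1 - (y.1 + y.2.1)‖ ≤ 27 * (2 * ρ) * (2 * r) := by gcongr
        _ = _ := by ring)
  set dA := kd (199 / 200) x.1 - kd (199 / 200) y.1 - lk a0 (x.1 - y.1) with hdA
  set dB := kd (199 / 200) x.2.1 - kd (199 / 200) y.2.1 - lk 1 (x.2.1 - y.2.1) with hdB
  set dC := kd (199 / 200) (x.1 + x.2.1) - kd (199 / 200) (y.1 + y.2.1) -
      lk c0 ((x.1 + x.2.1) - (y.1 + y.2.1)) with hdC
  have esum : (x.1 - y.1) + (x.2.1 - y.2.1) = (x.1 + x.2.1) - (y.1 + y.2.1) := by ring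
  have eA : FA P0 mh x.1 x.2.1 - FA P0 mh y.1 y.2.1 - LAf (x.1 - y.1) (x.2.1 - y.2.1) =
      -((3 / 2 : ℝ) • dA) - (3 / 2 : ℝ) • dC + (3 / 2 : ℝ) • dB := by
    rw [LAf, esum, FA0, FA0, mh0, mh1, mh2, hdA, hdB, hdC]
    simp only [Complex.real_smul]; push_cast; ring
  have eB : FB P0 mh x.1 x.2.1 - FB P0 mh y.1 y.2.1 - LBf (x.1 - y.1) (x.2.1 - y.2.1) =
      (0 : ℝ) • dA - (0 : ℝ) • dC - (3 : ℝ) • dB := by
    rw [LBf, esum, FB0, FB0, mh0, mh1, mh2, hdA, hdB, hdC]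
    simp only [Complex.real_smul]; push_cast; ring
  have hpr : 0 ≤ ρ * r := mul_nonneg hρ0 hr0
  have n1 : ‖(3 / 2 : ℝ)‖ = 3 / 2 := by norm_num
  have n2 : ‖(3 / 2 : ℝ)‖ = 3 / 2 := by norm_num
  have n3 : ‖(0 : ℝ)‖ = 0 := by norm_num
  have n4 : ‖(3 : ℝ)‖ = 3 := by norm_num
  have n5 : ‖(2 / 7 : ℝ)‖ = 2 / 7 := by norm_num
  have bA : ‖-((3 / 2 : ℝ) • dA) - (3 / 2 : ℝ) • dC + (3 / 2 : ℝ) • dB‖ ≤ 250 * ρ * r := by
    refine (norm_add_le _ _).trans ?_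
    have h1 := norm_sub_le (-((3 / 2 : ℝ) • dA)) ((3 / 2 : ℝ) • dC)
    rw [norm_neg, norm_smul, norm_smul, n1] at h1
    rw [norm_smul, n2]
    linarith
  have bB : ‖(0 : ℝ) • dA - (0 : ℝ) • dC - (3 : ℝ) • dB‖ ≤ 250 * ρ * r := by
    refine (norm_sub_le _ _).trans ?_
    have h1 := norm_sub_le ((0 : ℝ) • dA) ((0 : ℝ) • dC)
    rw [norm_smul, norm_smul, n3] at h1
    rw [norm_smul (3 : ℝ), n4]
    linarith
  have hpos : 0 ≤ 80 * ρ * r := by positivity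
  rw [Qd, Prod.norm_def, Prod.norm_def, Prod.norm_def]
  refine max_le ?_ (max_le ?_ (max_le ?_ ?_))
  · have e : (fld P0 mh x - fld P0 mh y - (Gf (x - y) + (I * (s3 : ℂ)) • (x - y))).1 = 0 := by
      show P0.sg • x.2.2.1 - P0.sg • y.2.2.1 - ((P0.sg • (x.2.2.1 - y.2.2.1) - (I * (s3 : ℂ)) * (x.1 - y.1)) +
        (I * (s3 : ℂ)) * (x.1 - y.1)) = 0
      simp only [Complex.real_smul]; ring
    rw [e, norm_zero]; exact hpos
  · have e : (fld P0 mh x - fld P0 mh y - (Gf (x - y) + (I * (s3 : ℂ)) • (x - y))).2.1 = 0 := by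
      show P0.sg • x.2.2.2 - P0.sg • y.2.2.2 - ((P0.sg • (x.2.2.2 - y.2.2.2) - (I * (s3 : ℂ)) * (x.2.1 - y.2.1)) +
        (I * (s3 : ℂ)) * (x.2.1 - y.2.1)) = 0
      simp only [Complex.real_smul]; ring
    rw [e, norm_zero]; exact hpos
  · have e : (fld P0 mh x - fld P0 mh y - (Gf (x - y) + (I * (s3 : ℂ)) • (x - y))).2.2.1 =
        P0.sg⁻¹ • (FA P0 mh x.1 x.2.1 - FA P0 mh y.1 y.2.1 - LAf (x.1 - y.1) (x.2.1 - y.2.1)) := by
      show P0.sg⁻¹ • FA P0 mh x.1 x.2.1 - P0.sg⁻¹ • FA P0 mh y.1 y.2.1 -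
        ((P0.sg⁻¹ • LAf (x.1 - y.1) (x.2.1 - y.2.1) - (I * (s3 : ℂ)) * (x.2.2.1 - y.2.2.1)) +
        (I * (s3 : ℂ)) * (x.2.2.1 - y.2.2.1)) = _
      simp only [Complex.real_smul]; ring
    rw [e, eA, norm_smul, sg_inv, n5]
    linarith
  · have e : (fld P0 mh x - fld P0 mh y - (Gf (x - y) + (I * (s3 : ℂ)) • (x - y))).2.2.2 =
        P0.sg⁻¹ • (FB P0 mh x.1 x.2.1 - FB P0 mh y.1 y.2.1 - LBf (x.1 - y.1) (x.2.1 - y.2.1)) := by
      show P0.sg⁻¹ • FB P0 mh x.1 x.2.1 - P0.sg⁻¹ • FB P0 mh y.1 y.2.1 -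
        ((P0.sg⁻¹ • LBf (x.1 - y.1) (x.2.1 - y.2.1) - (I * (s3 : ℂ)) * (x.2.2.2 - y.2.2.2)) +
        (I * (s3 : ℂ)) * (x.2.2.2 - y.2.2.2)) = _
      simp only [Complex.real_smul]; ring
    rw [e, eB, norm_smul, sg_inv, n5]
    linarith

/-- the dependence on the masses -/
lemma fld_mass {κ : ℝ} {m : Fin 3 → ℝ} (hm : NearM κ m) (x y : E) :
    ‖(fld P0 m x - fld P0 m y) - (fld P0 mh x - fld P0 mh y)‖ ≤ 6 * κ * ‖x - y‖ := by
  have h0 := hm.1 0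
  have h1 := hm.1 1
  have h2 := hm.1 2
  have hκ : 0 ≤ κ := (abs_nonneg _).trans h0
  set r := ‖x - y‖ with hr
  have hr0 : 0 ≤ r := norm_nonneg _
  have n1 : ‖x.1 - y.1‖ ≤ r := norm_fst_le (x - y)
  have n2 : ‖x.2.1 - y.2.1‖ ≤ r := (norm_fst_le (x - y).2).trans (norm_snd_le (x - y))
  have hab : ‖x.1 + x.2.1 - (y.1 + y.2.1)‖ ≤ 2 * r := by
    have : x.1 + x.2.1 - (y.1 + y.2.1) = (x.1 - y.1) + (x.2.1 - y.2.1) := by ring
    rw [this]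
    exact (norm_add_le _ _).trans (by linarith)
  have h99 : (0 : ℝ) < 199 / 200 := by norm_num
  have hk : ∀ {z w : ℂ} {c : ℝ}, ‖z - w‖ ≤ c → ‖kd (199 / 200) z - kd (199 / 200) w‖ ≤ 2.1 * c := by
    intro z w c hc
    have hc0 : 0 ≤ c := (norm_nonneg _).trans hc
    refine (kd_lip h99 _ _).trans ?_
    calc 2 / (199 / 200) ^ 3 * ‖z - w‖ ≤ 2 / (199 / 200) ^ 3 * c := by gcongr
      _ ≤ 2.1 * c := by
          apply mul_le_mul_of_nonneg_right _ hc0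
          norm_num
  have hA := hk n1
  have hB := hk n2
  have hC := hk hab
  have h01 : |(m 0 - mh 0) + (m 1 - mh 1)| ≤ 2 * κ := (abs_add_le _ _).trans (by linarith)
  have h12 : |(m 1 - mh 1) + (m 2 - mh 2)| ≤ 2 * κ := (abs_add_le _ _).trans (by linarith)
  have tA : ‖(FA P0 m x.1 x.2.1 - FA P0 m y.1 y.2.1) - (FA P0 mh x.1 x.2.1 - FA P0 mh y.1 y.2.1)‖ ≤ 12 * κ * r := by
    have e : (FA P0 m x.1 x.2.1 - FA P0 m y.1 y.2.1) - (FA P0 mh x.1 x.2.1 - FA P0 mh y.1 y.2.1) =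
        -(((m 0 - mh 0) + (m 1 - mh 1) : ℝ) • (kd (199 / 200) x.1 - kd (199 / 200) y.1)) -
        ((m 2 - mh 2 : ℝ) • (kd (199 / 200) (x.1 + x.2.1) - kd (199 / 200) (y.1 + y.2.1))) +
        (m 2 - mh 2 : ℝ) • (kd (199 / 200) x.2.1 - kd (199 / 200) y.2.1) := by
      simp only [FA0, sub_smul, add_smul, smul_sub]; abel
    rw [e]
    calc _ ≤ ‖((m 0 - mh 0) + (m 1 - mh 1) : ℝ) • (kd (199 / 200) x.1 - kd (199 / 200) y.1)‖ +
        ‖(m 2 - mh 2 : ℝ) • (kd (199 / 200) (x.1 + x.2.1) - kd (199 / 200) (y.1 + y.2.1))‖ +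
        ‖(m 2 - mh 2 : ℝ) • (kd (199 / 200) x.2.1 - kd (199 / 200) y.2.1)‖ := by
          refine (norm_add_le _ _).trans ?_
          gcongr
          refine (norm_sub_le _ _).trans ?_
          rw [norm_neg]
      _ ≤ 2 * κ * (2.1 * r) + κ * (2.1 * (2 * r)) + κ * (2.1 * r) := by
          rw [norm_smul, norm_smul, norm_smul, Real.norm_eq_abs, Real.norm_eq_abs]
          gcongr
      _ ≤ 12 * κ * r := by
          have : 0 ≤ κ * r := mul_nonneg hκ hr0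
          norm_num at this ⊢
          linarith
  have tB : ‖(FB P0 m x.1 x.2.1 - FB P0 m y.1 y.2.1) - (FB P0 mh x.1 x.2.1 - FB P0 mh y.1 y.2.1)‖ ≤ 12 * κ * r := by
    have e : (FB P0 m x.1 x.2.1 - FB P0 m y.1 y.2.1) - (FB P0 mh x.1 x.2.1 - FB P0 mh y.1 y.2.1) =
        ((m 0 - mh 0 : ℝ) • (kd (199 / 200) x.1 - kd (199 / 200) y.1)) -
        ((m 0 - mh 0 : ℝ) • (kd (199 / 200) (x.1 + x.2.1) - kd (199 / 200) (y.1 + y.2.1))) -
        ((m 1 - mh 1) + (m 2 - mh 2) : ℝ) • (kd (199 / 200) x.2.1 - kd (199 / 200) y.2.1) := by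
      simp only [FB0, sub_smul, add_smul, smul_sub]; abel
    rw [e]
    calc _ ≤ ‖(m 0 - mh 0 : ℝ) • (kd (199 / 200) x.1 - kd (199 / 200) y.1)‖ +
        ‖(m 0 - mh 0 : ℝ) • (kd (199 / 200) (x.1 + x.2.1) - kd (199 / 200) (y.1 + y.2.1))‖ +
        ‖((m 1 - mh 1) + (m 2 - mh 2) : ℝ) • (kd (199 / 200) x.2.1 - kd (199 / 200) y.2.1)‖ := by
          refine (norm_sub_le _ _).trans ?_
          gcongr
          exact norm_sub_le _ _
      _ ≤ κ * (2.1 * r) + κ * (2.1 * (2 * r)) + 2 * κ * (2.1 * r) := by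
          rw [norm_smul, norm_smul, norm_smul, Real.norm_eq_abs, Real.norm_eq_abs]
          gcongr
      _ ≤ 12 * κ * r := by
          have : 0 ≤ κ * r := mul_nonneg hκ hr0
          norm_num at this ⊢
          linarith
  have hpos : 0 ≤ κ * r := by positivity
  have hs' : ∀ z : ℂ, ‖z‖ ≤ 12 * κ * r → ‖P0.sg⁻¹ • z‖ ≤ 6 * κ * r := fun z hz => by
    have n5 : ‖(2 / 7 : ℝ)‖ = 2 / 7 := by norm_num
    rw [norm_smul, sg_inv, n5]
    linarith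
  have hpos' : 0 ≤ 6 * κ * r := by positivity
  rw [Prod.norm_def, Prod.norm_def, Prod.norm_def]
  refine max_le ?_ (max_le ?_ (max_le ?_ ?_))
  · show ‖(P0.sg • x.2.2.1 - P0.sg • y.2.2.1) - (P0.sg • x.2.2.1 - P0.sg • y.2.2.1)‖ ≤ _
    rw [sub_self, norm_zero]; exact hpos'
  · show ‖(P0.sg • x.2.2.2 - P0.sg • y.2.2.2) - (P0.sg • x.2.2.2 - P0.sg • y.2.2.2)‖ ≤ _
    rw [sub_self, norm_zero]; exact hpos'
  · show ‖(P0.sg⁻¹ • FA P0 m x.1 x.2.1 - P0.sg⁻¹ • FA P0 m y.1 y.2.1) -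
      (P0.sg⁻¹ • FA P0 mh x.1 x.2.1 - P0.sg⁻¹ • FA P0 mh y.1 y.2.1)‖ ≤ _
    rw [← smul_sub, ← smul_sub, ← smul_sub]
    exact hs' _ tA
  · show ‖(P0.sg⁻¹ • FB P0 m x.1 x.2.1 - P0.sg⁻¹ • FB P0 m y.1 y.2.1) -
      (P0.sg⁻¹ • FB P0 mh x.1 x.2.1 - P0.sg⁻¹ • FB P0 mh y.1 y.2.1)‖ ≤ _
    rw [← smul_sub, ← smul_sub, ← smul_sub]
    exact hs' _ tB

/-- the unit vector in the direction of the conjugate -/
noncomputable def uv (b : ℂ) : ℂ := ((1 / ‖b‖ : ℝ) : ℂ) * conj b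

lemma norm_uv {b : ℂ} (hb : b ≠ 0) : ‖uv b‖ = 1 := by
  have h : 0 < ‖b‖ := norm_pos_iff.2 hb
  rw [uv, norm_mul, Complex.norm_real, Real.norm_of_nonneg (by positivity), Complex.norm_conj]
  field_simp

lemma hasDerivAt_uv {b : ℝ → ℂ} {b' : ℂ} {t : ℝ} (hb : HasDerivAt b b' t) (h0 : b t ≠ 0) :
    HasDerivAt (fun s => uv (b s)) (-(I * (dtm (b t) b' / ‖b t‖ ^ 2 : ℝ)) * uv (b t)) t := by
  have hr : 0 < ‖b t‖ := norm_pos_iff.2 h0
  have h1 := (hasDerivAt_inv_norm hb h0).ofReal_comp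
  have h2 : HasDerivAt (fun s => conj (b s)) (conj b') t :=
    (Complex.conjCLE.toContinuousLinearMap.hasFDerivAt (x := b t)).comp_hasDerivAt t hb
  refine (h1.fun_mul h2).congr_deriv ?_
  have hr2 : ‖b t‖ ^ 2 = (b t).re * (b t).re + (b t).im * (b t).im := by rw [← ip_self, ip]
  set r := ‖b t‖ with hrr
  have e1 : ((-ip (b t) b' / r ^ 3 : ℝ) : ℂ) * conj (b t) + ((1 / r : ℝ) : ℂ) * conj b' =
      ((1 / r ^ 3 : ℝ) : ℂ) * (-(ip (b t) b' : ℂ) * conj (b t) + ((r ^ 2 : ℝ) : ℂ) * conj b') := by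
    have : (r : ℂ) ≠ 0 := by exact_mod_cast hr.ne'
    push_cast
    field_simp
  have e2 : -(I * (dtm (b t) b' / r ^ 2 : ℝ)) * uv (b t) =
      ((1 / r ^ 3 : ℝ) : ℂ) * (-(I * dtm (b t) b') * conj (b t)) := by
    have : (r : ℂ) ≠ 0 := by exact_mod_cast hr.ne'
    rw [uv, ← hrr]
    push_cast
    field_simp
  rw [e1, e2, hr2]
  congr 1
  apply Complex.ext
  · simp only [ip, dtm, Complex.add_re, Complex.mul_re, Complex.mul_im, Complex.neg_re, Complex.neg_im,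
      Complex.conj_re, Complex.conj_im, Complex.ofReal_re, Complex.ofReal_im, Complex.I_re, Complex.I_im]
    ring
  · simp only [ip, dtm, Complex.add_im, Complex.mul_re, Complex.mul_im, Complex.neg_re, Complex.neg_im,
      Complex.conj_re, Complex.conj_im, Complex.ofReal_re, Complex.ofReal_im, Complex.I_re, Complex.I_im]
    ring

lemma dtm_eq (b c : ℂ) : dtm b c = (conj b * c).im := by
  rw [dtm, Complex.mul_im, Complex.conj_re, Complex.conj_im]; ring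

lemma frame_close {γ : E} {u : ℂ} {κ : ℝ} (hu : ‖u‖ = 1) (hκ : κ ≤ 1 / 10) (h : ‖γ - u • xre‖ ≤ κ) :
    γ.2.1 ≠ 0 ∧ ‖uv γ.2.1 • γ - xre‖ ≤ 4 * κ ∧
      |dtm γ.2.1 (P0.sg • γ.2.2.2) / ‖γ.2.1‖ ^ 2 - s3| ≤ 18 * κ := by
  have hκ0 : 0 ≤ κ := (norm_nonneg _).trans h
  set b := γ.2.1 with hb
  have h1 : ‖b - u‖ ≤ κ := by
    have h1' : ‖b - u * 1‖ ≤ κ :=
      ((norm_fst_le (γ - u • xre).2).trans (norm_snd_le (γ - u • xre))).trans h
    rwa [mul_one] at h1'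
  have hb1 : ‖b‖ ≤ 1 + κ := by
    have := norm_sub_norm_le b u
    rw [hu] at this
    linarith
  have hb2 : 1 - κ ≤ ‖b‖ := by
    have := norm_sub_norm_le u b
    rw [hu, norm_sub_rev] at this
    linarith
  have hb3 : 9 / 10 ≤ ‖b‖ := by linarith
  have hb0 : b ≠ 0 := norm_pos_iff.1 (by linarith)
  have hbp : 0 < ‖b‖ := norm_pos_iff.2 hb0
  have hv := norm_uv hb0
  have huv : ‖uv b * u - 1‖ ≤ 23 / 10 * κ := by
    have hne : (‖b‖ : ℂ) ≠ 0 := by exact_mod_cast hbp.ne'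
    have huu : conj u * u = 1 := by
      rw [mul_comm, Complex.mul_conj, Complex.normSq_eq_norm_sq, hu]; norm_num
    have e : uv b * u - 1 = ((1 / ‖b‖ : ℝ) : ℂ) * (((1 - ‖b‖ : ℝ) : ℂ) + conj (b - u) * u) := by
      rw [uv, map_sub]
      have : (conj b - conj u) * u = conj b * u - (conj u * u) := by ring
      rw [this, huu]
      push_cast
      field_simp
      ring
    rw [e, norm_mul, Complex.norm_real, Real.norm_of_nonneg (by positivity)]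
    have h3 : ‖((1 - ‖b‖ : ℝ) : ℂ) + conj (b - u) * u‖ ≤ 2 * κ := by
      refine (norm_add_le _ _).trans ?_
      rw [Complex.norm_real, norm_mul, Complex.norm_conj, hu, mul_one, Real.norm_eq_abs]
      have : |1 - ‖b‖| ≤ κ := by rw [abs_le]; constructor <;> linarith
      linarith
    calc 1 / ‖b‖ * ‖((1 - ‖b‖ : ℝ) : ℂ) + conj (b - u) * u‖ ≤ 1 / (9 / 10) * (2 * κ) := by
          gcongr
      _ ≤ 23 / 10 * κ := by
          norm_num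
          linarith
  have hΓ : ‖uv b • γ - xre‖ ≤ 4 * κ := by
    have e : uv b • γ - xre = uv b • (γ - u • xre) + (uv b * u - 1) • xre := by
      rw [smul_sub, sub_smul, one_smul, mul_smul]; abel
    rw [e]
    refine (norm_add_le _ _).trans ?_
    rw [norm_smul, norm_smul, hv, one_mul]
    have := norm_xre_le
    have h4 : ‖uv b * u - 1‖ * ‖xre‖ ≤ 23 / 10 * κ * 1 := by gcongr
    linarith
  refine ⟨hb0, hΓ, ?_⟩
  set w := uv b * (P0.sg • γ.2.2.2) with hw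
  have hwc : ‖w - I * s3‖ ≤ 14 * κ := by
    have e : w - I * s3 = P0.sg • ((uv b • γ - xre).2.2.2) := by
      show uv b * (P0.sg • γ.2.2.2) - I * s3 = P0.sg • (uv b * γ.2.2.2 - P0.sg⁻¹ • (I * (s3 : ℂ)))
      rw [smul_sub, smul_smul, mul_inv_cancel₀ P0.sg0.ne', one_smul]
      simp only [Complex.real_smul]
      ring
    rw [e, norm_smul, Real.norm_of_nonneg P0.sg0.le]
    have h5 : ‖(uv b • γ - xre).2.2.2‖ ≤ 4 * κ :=
      (norm_snd_le (uv b • γ - xre).2.2).trans ((norm_snd_le (uv b • γ - xre).2).trans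
        ((norm_snd_le (uv b • γ - xre)).trans hΓ))
    rw [P0_sg]
    linarith
  have hwi : |w.im - s3| ≤ 14 * κ := by
    have e : w.im - s3 = (w - I * s3).im := by simp
    rw [e]
    exact (Complex.abs_im_le_norm _).trans hwc
  have hd : dtm b (P0.sg • γ.2.2.2) = ‖b‖ * w.im := by
    have e : conj b * (P0.sg • γ.2.2.2) = ((‖b‖ : ℝ) : ℂ) * w := by
      have hne : (‖b‖ : ℂ) ≠ 0 := by exact_mod_cast hbp.ne'
      rw [hw, uv]; push_cast; field_simp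
    rw [dtm_eq, e, Complex.im_ofReal_mul]
  rw [hd]
  have e2 : ‖b‖ * w.im / ‖b‖ ^ 2 - s3 = (w.im - s3 * ‖b‖) / ‖b‖ := by field_simp
  rw [e2, abs_div, abs_of_pos hbp, div_le_iff₀ hbp]
  have ho := s3_pos
  have ho1 : s3 < 1.74 := s3_lt.trans (by norm_num)
  obtain ⟨w1', w2'⟩ := abs_le.1 hwi
  have : |w.im - s3 * ‖b‖| ≤ 16 * κ := by
    norm_num at ho1
    rw [abs_le]
    constructor
    · have h6 : s3 * ‖b‖ ≤ s3 + 2 * κ := by nlinarith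
      linarith
    · have h6 : s3 - 2 * κ ≤ s3 * ‖b‖ := by nlinarith
      linarith
  nlinarith

end Pool.Agent.T9h50.TR
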