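import Pool.Agent.T9h50.TR.Spc6

/-!
# The solutions along the unstable manifold
-/

set_option autoImplicit false
set_option exponentiation.threshold 3000

open scoped NNReal ComplexConjugate Topology
open Complex Set Filter

namespace Pool.Agent.T9h50.TR

open Pool.Agent.T9h50.TB (E kd kd_eq ip dtm ip_self hasDerivAt_inv_norm hasDerivAt_re hasDerivAt_im evR
  SR St norm_mk_le)

lemma alW_gt : 1.0947 < alW := by unfold alW alI SWR; norm_num
lemma alW_lt : alW < 1.0948 := by unfold alW alI SWR; norm_num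

/-- the rotation -/
noncomputable def rot (t : ℝ) : ℂ := Complex.exp ((s3 * t : ℝ) * I)

lemma norm_rot (t : ℝ) : ‖rot t‖ = 1 := Complex.norm_exp_ofReal_mul_I _

lemma rot_zero : rot 0 = 1 := by simp [rot]

lemma hasDerivAt_rot (t : ℝ) : HasDerivAt rot ((I * (s3 : ℂ)) * rot t) t := by
  have h1 : HasDerivAt (fun t : ℝ => ((s3 * t : ℝ) : ℂ) * I) (((s3 * 1 : ℝ) : ℂ) * I) t :=
    (((hasDerivAt_id t).const_mul s3).ofReal_comp).mul_const I
  refine h1.cexp.congr_deriv ?_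
  rw [rot]; push_cast; ring

/-- the curve in the parameter plane -/
noncomputable def zc (t : ℝ) : ℂ := Complex.exp ((t : ℂ) * ⟨alW, beW⟩) * ⟨-(856 / 1000), 515 / 1000⟩

lemma hasDerivAt_zc (t : ℝ) : HasDerivAt zc ((⟨alW, beW⟩ : ℂ) * zc t) t := by
  have h1 : HasDerivAt (fun t : ℝ => (t : ℂ) * (⟨alW, beW⟩ : ℂ)) ((1 : ℂ) * ⟨alW, beW⟩) t :=
    ((hasDerivAt_id t).ofReal_comp).mul_const _
  refine (h1.cexp.mul_const (⟨-(856 / 1000), 515 / 1000⟩ : ℂ)).congr_deriv ?_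
  rw [zc]; ring

lemma norm_zc (t : ℝ) : ‖zc t‖ ≤ Real.exp (alW * t) := by
  have h1 : ‖(⟨-(856 / 1000), 515 / 1000⟩ : ℂ)‖ ≤ 1 := by
    have : ‖(⟨-(856 / 1000), 515 / 1000⟩ : ℂ)‖ ^ 2 ≤ 1 := by
      rw [← Complex.normSq_eq_norm_sq, Complex.normSq_apply]; norm_num
    nlinarith [norm_nonneg (⟨-(856 / 1000), 515 / 1000⟩ : ℂ)]
  rw [zc, norm_mul, Complex.norm_exp]
  have e : ((t : ℂ) * (⟨alW, beW⟩ : ℂ)).re = alW * t := by simp; ring
  rw [e]
  exact mul_le_of_le_one_right (Real.exp_pos _).le h1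

lemma hasDerivAt_zu (t : ℝ) : HasDerivAt (fun s => (zc s).re) (alW * (zc t).re - beW * (zc t).im) t := by
  refine (hasDerivAt_re (hasDerivAt_zc t)).congr_deriv ?_
  simp [Complex.mul_re]

lemma hasDerivAt_zv (t : ℝ) : HasDerivAt (fun s => (zc s).im) (beW * (zc t).re + alW * (zc t).im) t := by
  refine (hasDerivAt_im (hasDerivAt_zc t)).congr_deriv ?_
  simp [Complex.mul_im]; ring

/-- the approximate solution in the rotating frame -/
noncomputable def cE0 (t : ℝ) : E := wz P0 (zc t).re (zc t).im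
noncomputable def cE0' (t : ℝ) : E := wzd P0 (zc t).re (zc t).im

lemma hasDerivAt_cE0 (t : ℝ) : HasDerivAt cE0 (cE0' t) t :=
  hasDerivAt_wz P0 (hasDerivAt_zu t) (hasDerivAt_zv t)

lemma rho_le {t : ℝ} (ht : t ≤ 0) : Real.exp (alW * t) ≤ 1 :=
  Real.exp_le_one_iff.2 (mul_nonpos_of_nonneg_of_nonpos (by linarith [alW_gt]) ht)

lemma exp_four (t : ℝ) : Real.exp (alW * t) ^ 4 = Real.exp (4 * alW * t) := by
  rw [← Real.exp_nat_mul]; congr 1; push_cast; ring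

lemma cE0_defect {t : ℝ} (ht : t ≤ 0) :
    ‖cE0' t - (fld P0 mh (cE0 t) - (I * (s3 : ℂ)) • cE0 t)‖ ≤
      2 / 10 ^ 52 * Real.exp (alW * t) + 6 / 10 ^ 21 * Real.exp (4 * alW * t) ∧
      Far P0 (1 / 10 ^ 3) (cE0 t) := by
  have h := w_defect (Real.exp_pos _).le (rho_le ht) ((Complex.abs_re_le_norm (zc t)).trans (norm_zc t))
    ((Complex.abs_im_le_norm (zc t)).trans (norm_zc t))
  rw [exp_four] at h
  exact h

/-- the approximate solution -/
noncomputable def cu (t : ℝ) : E := rot t • cE0 t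
noncomputable def cu' (t : ℝ) : E := rot t • cE0' t + ((I * (s3 : ℂ)) * rot t) • cE0 t

lemma hasDerivAt_cu (t : ℝ) : HasDerivAt cu (cu' t) t :=
  (hasDerivAt_rot t).fun_smul (hasDerivAt_cE0 t)

lemma fld_mass0 {κ : ℝ} {m : Fin 3 → ℝ} (hm : NearM κ m) (x : E) :
    ‖fld P0 m x - fld P0 mh x‖ ≤ 2 * κ := by
  have hκ : 0 ≤ κ := (abs_nonneg _).trans (hm.1 0)
  have hA := FA_mass P0 hm x.1 x.2.1
  have hB := FB_mass P0 hm x.1 x.2.1
  have c1 : P0.dA = 199 / 200 := rfl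
  have c2 : P0.dC = 199 / 200 := rfl
  have c3 : P0.dB = 199 / 200 := rfl
  rw [c1, c2, c3] at hA hB
  have n5 : ‖(2 / 7 : ℝ)‖ = 2 / 7 := by norm_num
  have k1 : (2 / (199 / 200 : ℝ) ^ 2 + 1 / (199 / 200) ^ 2 + 1 / (199 / 200) ^ 2) * κ ≤ 5 * κ := by
    apply mul_le_mul_of_nonneg_right _ hκ; norm_num
  have k2 : (1 / (199 / 200 : ℝ) ^ 2 + 1 / (199 / 200) ^ 2 + 2 / (199 / 200) ^ 2) * κ ≤ 5 * κ := by
    apply mul_le_mul_of_nonneg_right _ hκ; norm_num
  rw [Prod.norm_def, Prod.norm_def, Prod.norm_def]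
  refine max_le ?_ (max_le ?_ (max_le ?_ ?_))
  · show ‖P0.sg • x.2.2.1 - P0.sg • x.2.2.1‖ ≤ _
    rw [sub_self, norm_zero]; linarith
  · show ‖P0.sg • x.2.2.2 - P0.sg • x.2.2.2‖ ≤ _
    rw [sub_self, norm_zero]; linarith
  · show ‖P0.sg⁻¹ • FA P0 m x.1 x.2.1 - P0.sg⁻¹ • FA P0 mh x.1 x.2.1‖ ≤ _
    rw [← smul_sub, norm_smul, sg_inv, n5]
    linarith
  · show ‖P0.sg⁻¹ • FB P0 m x.1 x.2.1 - P0.sg⁻¹ • FB P0 mh x.1 x.2.1‖ ≤ _
    rw [← smul_sub, norm_smul, sg_inv, n5]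
    linarith

lemma lip0 : LipOK P0 := by
  have c1 : P0.dA = 199 / 200 := rfl
  have c2 : P0.dC = 199 / 200 := rfl
  have c3 : P0.dB = 199 / 200 := rfl
  constructor
  · intro m hm
    obtain ⟨⟨h0, h0'⟩, ⟨h1, h1'⟩, ⟨h2, h2'⟩⟩ := hm.bounds
    rw [c1, c2, c3, P0_sg]
    norm_num at h0' h1' h2' ⊢
    linarith
  · intro m hm
    obtain ⟨⟨h0, h0'⟩, ⟨h1, h1'⟩, ⟨h2, h2'⟩⟩ := hm.bounds
    rw [c1, c2, c3, P0_sg]
    norm_num at h0' h1' h2' ⊢
    linarith

lemma cu_defect {κ : ℝ} {m : Fin 3 → ℝ} (hm : NearM κ m) {t : ℝ} (ht : t ≤ 0) :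
    ‖cu' t - fld P0 m (cu t)‖ ≤ 2 / 10 ^ 52 * Real.exp (alW * t) +
      6 / 10 ^ 21 * Real.exp (4 * alW * t) + 2 * κ ∧ Far P0 (1 / 10 ^ 3) (cu t) := by
  obtain ⟨h1, h2⟩ := cE0_defect ht
  have h3 := fld_mass0 hm (cu t)
  constructor
  · have e : cu' t - fld P0 m (cu t) = rot t • (cE0' t - (fld P0 mh (cE0 t) - (I * (s3 : ℂ)) • cE0 t)) -
        (fld P0 m (cu t) - fld P0 mh (cu t)) := by
      have e1 : fld P0 mh (cu t) = rot t • fld P0 mh (cE0 t) := fld_rot P0 mh (norm_rot t) _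
      rw [e1, cu', smul_sub, smul_sub, smul_smul, mul_comm (rot t)]
      abel
    rw [e]
    refine (norm_sub_le _ _).trans ?_
    rw [norm_smul, norm_rot, one_mul]
    linarith
  · have h4 : ‖conj (rot t)‖ = 1 := by rw [Complex.norm_conj, norm_rot]
    apply Far.rot h4
    have e : conj (rot t) • cu t = cE0 t := by
      rw [cu, smul_smul]
      have : conj (rot t) * rot t = 1 := by
        rw [mul_comm, Complex.mul_conj, Complex.normSq_eq_norm_sq, norm_rot]; norm_num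
      rw [this, one_smul]
    rw [e]; exact h2

/-- comparison of a solution with the approximate solution -/
theorem cu_cmp {κ c t1 : ℝ} {m : Fin 3 → ℝ} (hm : NearM κ m) (hκ : κ ≤ 1 / 10 ^ 6) (ht1 : t1 ≤ 0)
    {y : ℝ → E} (hy : ∀ t ∈ Icc t1 0, HasDerivAt y (fld P0 m (y t)) t) (hc : dist (y t1) (cu t1) ≤ c)
    {t : ℝ} (ht : t ∈ Icc t1 0) :
    dist (y t) (cu t) ≤ (c + 200 * (2 * κ + 2 / 10 ^ 52 * Real.exp (alW * t1))) *
      Real.exp (351 / 100 * (t - t1)) + 7 / 10 ^ 21 * Real.exp (4 * alW * t) := by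
  have hκ0 : 0 ≤ κ := (abs_nonneg _).trans (hm.1 0)
  have hc0 : 0 ≤ c := dist_nonneg.trans hc
  have hL := fld_lip lip0 (hm.mono hκ)
  have cs : ((P0.K : ℝ≥0) : ℝ) = 7 / 2 := rfl
  set A : ℝ := c + 200 * (2 * κ + 2 / 10 ^ 52 * Real.exp (alW * t1)) with hA
  have he1 := Real.exp_pos (alW * t1)
  have hA0 : 200 * (2 * κ + 2 / 10 ^ 52 * Real.exp (alW * t1)) ≤ A := by linarith
  have ha1 := alW_gt
  have ha2 := alW_lt
  rw [dist_eq_norm]
  refine image_norm_le_of_norm_deriv_right_lt_deriv_boundary' (f := fun t => y t - cu t)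
    (f' := fun t => fld P0 m (y t) - cu' t) (a := t1) (b := 0)
    (B := fun t => A * Real.exp (351 / 100 * (t - t1)) + 7 / 10 ^ 21 * Real.exp (4 * alW * t))
    (B' := fun t => A * (Real.exp (351 / 100 * (t - t1)) * (351 / 100 * 1)) +
      7 / 10 ^ 21 * (Real.exp (4 * alW * t) * (4 * alW * 1))) ?_ ?_ ?_ ?_ ?_ ?_ ht
  · intro s hs
    exact ((hy s hs).sub (hasDerivAt_cu s)).continuousAt.continuousWithinAt
  · intro s hs
    exact ((hy s ⟨hs.1, hs.2.le⟩).fun_sub (hasDerivAt_cu s)).hasDerivWithinAt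
  · simp only [sub_self, mul_zero, Real.exp_zero, mul_one]
    rw [← dist_eq_norm]
    have : 0 ≤ 7 / 10 ^ 21 * Real.exp (4 * alW * t1) := by positivity
    have : 0 ≤ 200 * (2 * κ + 2 / 10 ^ 52 * Real.exp (alW * t1)) := by positivity
    linarith
  · fun_prop
  · intro s _
    exact (((((hasDerivAt_id s).sub_const t1).const_mul (351 / 100)).exp.const_mul _).fun_add
      (((hasDerivAt_id s).const_mul (4 * alW)).exp.const_mul _)).hasDerivWithinAt
  · intro s hs he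
    have hd := (cu_defect hm (hs.2.le)).1
    have h1 : ‖fld P0 m (y s) - cu' s‖ ≤ 7 / 2 * ‖y s - cu s‖ +
        (2 / 10 ^ 52 * Real.exp (alW * s) + 6 / 10 ^ 21 * Real.exp (4 * alW * s) + 2 * κ) := by
      have e : fld P0 m (y s) - cu' s = (fld P0 m (y s) - fld P0 m (cu s)) - (cu' s - fld P0 m (cu s)) := by abel
      rw [e]
      refine (norm_sub_le _ _).trans ?_
      have h2 := hL.dist_le_mul (y s) (cu s)
      rw [dist_eq_norm, dist_eq_norm, cs] at h2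
      linarith
    rw [he] at h1
    have h3 : 1 ≤ Real.exp (351 / 100 * (s - t1)) := Real.one_le_exp (by nlinarith [hs.1])
    have h4 : 0 < Real.exp (4 * alW * s) := Real.exp_pos _
    have h5 : Real.exp (alW * s) ≤ Real.exp (alW * t1) * Real.exp (351 / 100 * (s - t1)) := by
      rw [← Real.exp_add]
      apply Real.exp_le_exp.2
      nlinarith [hs.1]
    have h6 : 2 * κ + 2 / 10 ^ 52 * Real.exp (alW * s) ≤ 1 / 100 * (A * Real.exp (351 / 100 * (s - t1))) := by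
      have a1 : 2 * κ ≤ 2 * κ * Real.exp (351 / 100 * (s - t1)) := le_mul_of_one_le_right (by linarith) h3
      have a2 : 2 / 10 ^ 52 * Real.exp (alW * s) ≤
          2 / 10 ^ 52 * (Real.exp (alW * t1) * Real.exp (351 / 100 * (s - t1))) := by gcongr
      have a3 : (2 * κ + 2 / 10 ^ 52 * Real.exp (alW * t1)) * Real.exp (351 / 100 * (s - t1)) ≤
          A / 200 * Real.exp (351 / 100 * (s - t1)) := by gcongr; linarith
      have a4 : 0 ≤ A * Real.exp (351 / 100 * (s - t1)) := by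
        have : 0 ≤ A := by positivity
        positivity
      nlinarith
    have h7 : 4 * alW * Real.exp (4 * alW * s) ≥ 4.3788 * Real.exp (4 * alW * s) := by
      have : 4.3788 ≤ 4 * alW := by norm_num at ha1 ⊢; linarith
      gcongr
    have h8 : 7 / 10 ^ 21 * (Real.exp (4 * alW * s) * (4 * alW * 1)) ≥
        7 / 10 ^ 21 * (4.3788 * Real.exp (4 * alW * s)) := by
      have e : Real.exp (4 * alW * s) * (4 * alW * 1) = 4 * alW * Real.exp (4 * alW * s) := by ring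
      rw [e]
      gcongr
    norm_num at h1 h4 h6 h8 ⊢
    linarith

end Pool.Agent.T9h50.TR
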