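import Pool.Agent.T9h50.TR.Wph
import Pool.Agent.T9h50.TR.Phd2

/-!
# The end of the unstable manifold segment
-/

set_option autoImplicit false
set_option exponentiation.threshold 3000

open scoped NNReal ComplexConjugate Topology
open Complex Set Filter

namespace Pool.Agent.T9h50.TR

open Pool.Agent.T9h50.TL (ev2)

open Pool.Agent.T9h50.TB (E kd kd_eq ip dtm ip_self evR SR SR_pos St)

/-- numerator and denominator of the value at `-856 / 1000` -/
def hv1 : List Int → Int × Nat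
  | [] => (0, 1)
  | c :: p => match hv1 p with
    | (N, D) => (Int.sub (Int.mul c (Int.mul (Int.ofNat 1000) (Int.ofNat D))) (Int.mul (Int.ofNat 856) N),
        Nat.mul 1000 D)

/-- numerator and denominator of the value at `(-856 / 1000, 515 / 1000)` -/
def hv2 : List (List Int) → Int × Nat
  | [] => (0, 1)
  | p :: P => match hv1 p, hv2 P with
    | (N1, D1), (N2, D2) =>
      (Int.add (Int.mul N1 (Int.mul (Int.ofNat 1000) (Int.ofNat D2)))
        (Int.mul (Int.ofNat 515) (Int.mul N2 (Int.ofNat D1))), Nat.mul D1 (Nat.mul 1000 D2))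

lemma hv1_sound (p : List Int) : 0 < (hv1 p).2 ∧ evR p (-(856 / 1000)) = (hv1 p).1 / (hv1 p).2 := by
  induction p with
  | nil => exact ⟨Nat.one_pos, by simp [evR, hv1]⟩
  | cons c p ih =>
    obtain ⟨h1, h2⟩ := ih
    have e1 : (hv1 (c :: p)).1 = c * (1000 * ((hv1 p).2 : ℤ)) - 856 * (hv1 p).1 := rfl
    have e2 : (hv1 (c :: p)).2 = 1000 * (hv1 p).2 := rfl
    have h3 : (0 : ℝ) < (hv1 p).2 := by exact_mod_cast h1
    refine ⟨by rw [e2]; omega, ?_⟩
    rw [evR, h2, e1, e2]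
    push_cast
    field_simp
    ring

lemma hv2_sound (P : List (List Int)) : 0 < (hv2 P).2 ∧
    ev2 P (-(856 / 1000)) (515 / 1000) = (hv2 P).1 / (hv2 P).2 := by
  induction P with
  | nil => exact ⟨Nat.one_pos, by simp [ev2, hv2]⟩
  | cons p P ih =>
    obtain ⟨h1, h2⟩ := ih
    obtain ⟨k1, k2⟩ := hv1_sound p
    have e1 : (hv2 (p :: P)).1 = (hv1 p).1 * (1000 * ((hv2 P).2 : ℤ)) + 515 * ((hv2 P).1 * ((hv1 p).2 : ℤ)) := rfl
    have e2 : (hv2 (p :: P)).2 = (hv1 p).2 * (1000 * (hv2 P).2) := rfl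
    have h3 : (0 : ℝ) < (hv2 P).2 := by exact_mod_cast h1
    have k3 : (0 : ℝ) < (hv1 p).2 := by exact_mod_cast k1
    refine ⟨by rw [e2]; exact Nat.mul_pos k1 (by omega), ?_⟩
    rw [ev2, k2, h2, e1, e2]
    push_cast
    field_simp

/-- comparison with a decimal number -/
def chq (P : List (List Int)) (q : Int) : Bool :=
  match hv2 P with
  | (N, D) => Nat.ble (Int.natAbs (Int.sub (Int.mul N (Int.ofNat (Nat.pow 10 30)))
      (Int.mul q (Int.mul (Int.ofNat D) (Int.ofNat (Nat.pow 2 192)))))) (Nat.mul D (Nat.pow 2 192))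

lemma chq_sound {P : List (List Int)} {q : Int} (h : chq P q = true) :
    |nx P (-(856 / 1000)) (515 / 1000) - q / 10 ^ 30| ≤ 1 / 10 ^ 30 := by
  obtain ⟨h1, h2⟩ := hv2_sound P
  have h3 : (0 : ℝ) < (hv2 P).2 := by exact_mod_cast h1
  have e : chq P q = Nat.ble (Int.natAbs ((hv2 P).1 * ((10 ^ 30 : ℕ) : ℤ) -
    q * (((hv2 P).2 : ℤ) * ((2 ^ 192 : ℕ) : ℤ)))) ((hv2 P).2 * 2 ^ 192) := rfl
  rw [e] at h
  have k := Nat.le_of_ble_eq_true h
  have k2 : |(hv2 P).1 * ((10 ^ 30 : ℕ) : ℤ) - q * (((hv2 P).2 : ℤ) * ((2 ^ 192 : ℕ) : ℤ))| ≤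
      ((hv2 P).2 : ℤ) * 2 ^ 192 := by
    rw [Int.abs_eq_natAbs]
    exact_mod_cast k
  have k3 : |((hv2 P).1 : ℝ) * 10 ^ 30 - (q : ℝ) * (((hv2 P).2 : ℝ) * 2 ^ 192)| ≤
      ((hv2 P).2 : ℝ) * 2 ^ 192 := by
    exact_mod_cast k2
  have hp : (0 : ℝ) < (hv2 P).2 * 2 ^ 192 * 10 ^ 30 := by positivity
  have e2 : nx P (-(856 / 1000)) (515 / 1000) - q / 10 ^ 30 =
      (((hv2 P).1 : ℝ) * 10 ^ 30 - (q : ℝ) * (((hv2 P).2 : ℝ) * 2 ^ 192)) /
        ((hv2 P).2 * 2 ^ 192 * 10 ^ 30) := by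
    rw [nx, h2, SWR]
    field_simp
  rw [e2, abs_div, abs_of_pos hp, div_le_div_iff₀ hp (by positivity)]
  nlinarith

theorem q1 : chq WxA (Int.negSucc 500855786312660610176708959129) = true := by decide +kernel
theorem q2 : chq WyA (Int.negSucc 500288356444117962449615101807) = true := by decide +kernel
theorem q3 : chq WxB (Int.ofNat 1000000000000000000000000000000) = true := by decide +kernel
theorem q4 : chq WyB (Int.ofNat 0) = true := by decide +kernel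
theorem q5 : chq WpA (Int.ofNat 1499082680125662894750735818941) = true := by decide +kernel
theorem q6 : chq WqA (Int.negSucc 500629406463037113318727229419) = true := by decide +kernel
theorem q7 : chq WpB (Int.ofNat 0) = true := by decide +kernel
theorem q8 : chq WqB (Int.ofNat 1000000000000000000000000000000) = true := by decide +kernel

lemma s3_near : |s3 - 1732050807568877293527446341505872366 / 10 ^ 36| ≤ 1 / 10 ^ 34 := by
  have h1 := s3_sq
  have h2 := s3_pos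
  rw [abs_le]
  constructor
  · have : 1732050807568877293527446341505872300 / 10 ^ 36 ≤ s3 := by
      by_contra h
      push Not at h
      have : s3 * s3 < (1732050807568877293527446341505872300 / 10 ^ 36) *
        (1732050807568877293527446341505872300 / 10 ^ 36) := by nlinarith
      norm_num at this h1
      linarith
    norm_num at this ⊢
    linarith
  · have : s3 ≤ 1732050807568877293527446341505872400 / 10 ^ 36 := by
      by_contra h
      push Not at h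
      have : (1732050807568877293527446341505872400 / 10 ^ 36) *
        (1732050807568877293527446341505872400 / 10 ^ 36) < s3 * s3 := by nlinarith
      norm_num at this h1
      linarith
    norm_num at this ⊢
    linarith

lemma s3_mul_near {x q r : ℝ} (hx : |x - q / 10 ^ 30| ≤ 1 / 10 ^ 30) (hq : |q / 10 ^ 30| ≤ 3)
    (h : |1732050807568877293527446341505872366 / 10 ^ 36 * (q / 10 ^ 30) - r| ≤ 5 / 10 ^ 28) :
    |s3 * x - r| ≤ 6 / 10 ^ 28 := by
  have h1 := s3_near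
  have h2 := s3_pos
  have h3 := s3_lt
  have e1 : s3 * x - r = s3 * (x - q / 10 ^ 30) +
      (s3 - 1732050807568877293527446341505872366 / 10 ^ 36) * (q / 10 ^ 30) +
      (1732050807568877293527446341505872366 / 10 ^ 36 * (q / 10 ^ 30) - r) := by ring
  rw [e1]
  refine (abs_add_le _ _).trans ?_
  refine (add_le_add (abs_add_le _ _) le_rfl).trans ?_
  rw [abs_mul, abs_mul, abs_of_pos h2]
  have h4 : |s3 - 1732050807568877293527446341505872366 / 10 ^ 36| * |q / 10 ^ 30| ≤ 1 / 10 ^ 34 * 3 :=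
    mul_le_mul h1 hq (abs_nonneg _) (by norm_num)
  have h5 : s3 * |x - q / 10 ^ 30| ≤ 2 * (1 / 10 ^ 30) :=
    mul_le_mul (by norm_num at h3; linarith) hx (abs_nonneg _) (by norm_num)
  norm_num at h4 h5 h ⊢
  linarith

lemma cw_near {X Y : List (List Int)} {qx qy : Int} (hx : chq X qx = true) (hy : chq Y qy = true)
    {r s : ℝ} (h1 : |(qx : ℝ) / 10 ^ 30 - r| ≤ 5 / 10 ^ 28) (hq : |(qy : ℝ) / 10 ^ 30| ≤ 3)
    (h2 : |1732050807568877293527446341505872366 / 10 ^ 36 * ((qy : ℝ) / 10 ^ 30) - s| ≤ 5 / 10 ^ 28) :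
    ‖cw X Y (-(856 / 1000)) (515 / 1000) - ⟨r, s⟩‖ ≤ 2 / 10 ^ 27 := by
  have kx := chq_sound hx
  have ky := chq_sound hy
  have e : cw X Y (-(856 / 1000)) (515 / 1000) - ⟨r, s⟩ =
      ⟨nx X (-(856 / 1000)) (515 / 1000) - r, s3 * nx Y (-(856 / 1000)) (515 / 1000) - s⟩ := rfl
  rw [e]
  have p1 : |nx X (-(856 / 1000)) (515 / 1000) - r| ≤ 6 / 10 ^ 28 := by
    have e1 : nx X (-(856 / 1000)) (515 / 1000) - r = (nx X (-(856 / 1000)) (515 / 1000) - qx / 10 ^ 30) +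
      (qx / 10 ^ 30 - r) := by ring
    rw [e1]
    refine (abs_add_le _ _).trans ?_
    norm_num at kx h1 ⊢
    linarith
  refine (norm_mk_le3 p1 (s3_mul_near ky hq h2)).trans ?_
  norm_num

lemma zc_zero : (zc 0).re = -(856 / 1000) ∧ (zc 0).im = 515 / 1000 := by
  constructor <;> simp [zc]

lemma cu_zero : dist (cnv P0 P1 (cu 0)) (stE QA sA0) ≤ 1 / 10 ^ 26 := by
  have c0 : cu 0 = wz P0 (-(856 / 1000)) (515 / 1000) := by
    rw [cu, rot_zero, one_smul, cE0, zc_zero.1, zc_zero.2]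
  have hSR : SR = 2 ^ 96 := rfl
  have p1 : ‖cw WxA WyA (-(856 / 1000)) (515 / 1000) - ⟨sA0.ax0 / SR, sA0.ay0 / SR⟩‖ ≤ 2 / 10 ^ 27 := by
    apply cw_near q1 q2
    · rw [hSR]; norm_num [sA0, abs_le]
    · norm_num [abs_le]
    · rw [hSR]; norm_num [sA0, abs_le]
  have p2 : ‖cw WxB WyB (-(856 / 1000)) (515 / 1000) - ⟨sA0.bx0 / SR, sA0.bt0 / SR⟩‖ ≤ 2 / 10 ^ 27 := by
    apply cw_near q3 q4
    · rw [hSR]; norm_num [sA0, abs_le]
    · norm_num [abs_le]
    · rw [hSR]; norm_num [sA0, abs_le]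
  have p3 : ‖cw WpA WqA (-(856 / 1000)) (515 / 1000) - ⟨8 * (sA0.ax1 / SR), 8 * (sA0.ay1 / SR)⟩‖ ≤ 2 / 10 ^ 27 := by
    apply cw_near q5 q6
    · rw [hSR]; norm_num [sA0, abs_le]
    · norm_num [abs_le]
    · rw [hSR]; norm_num [sA0, abs_le]
  have p4 : ‖cw WpB WqB (-(856 / 1000)) (515 / 1000) - ⟨8 * (sA0.bx1 / SR), 8 * (sA0.bt1 / SR)⟩‖ ≤ 2 / 10 ^ 27 := by
    apply cw_near q7 q8
    · rw [hSR]; norm_num [sA0, abs_le]
    · norm_num [abs_le]
    · rw [hSR]; norm_num [sA0, abs_le]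
  have hs : (P0.sg / P1.sg) * P0.sg⁻¹ = P1.sg⁻¹ := by
    have := P0.sg0.ne'
    have := P1.sg0.ne'
    field_simp
  have hv : ∀ (z : ℂ) (x y : ℝ), (P0.sg / P1.sg) • (P0.sg⁻¹ • z) - ((8 : ℕ) / P1.sg : ℝ) • (⟨x, y⟩ : ℂ) =
      P1.sg⁻¹ • (z - ⟨8 * x, 8 * y⟩) := by
    intro z x y
    rw [smul_smul, hs, smul_sub]
    congr 1
    have := P1.sg0.ne'
    apply Complex.ext
    · simp only [Complex.smul_re, smul_eq_mul]; push_cast; field_simp
    · simp only [Complex.smul_im, smul_eq_mul]; push_cast; field_simp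
  have hs' : ∀ z : ℂ, ‖z‖ ≤ 2 / 10 ^ 27 → ‖P1.sg⁻¹ • z‖ ≤ 1 / 10 ^ 26 := fun z hz => by
    have : P1.sg = 375 / 100 := rfl
    rw [norm_smul, Real.norm_of_nonneg (inv_pos.2 P1.sg0).le, this]
    norm_num at hz ⊢
    linarith
  rw [dist_eq_norm, c0, Prod.norm_def, Prod.norm_def, Prod.norm_def]
  refine max_le (p1.trans (by norm_num)) (max_le (p2.trans (by norm_num)) (max_le ?_ ?_))
  · show ‖(P0.sg / P1.sg) • (P0.sg⁻¹ • cw WpA WqA (-(856 / 1000)) (515 / 1000)) -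
      ((8 : ℕ) / P1.sg : ℝ) • (⟨sA0.ax1 / SR, sA0.ay1 / SR⟩ : ℂ)‖ ≤ _
    rw [hv]
    exact hs' _ p3
  · show ‖(P0.sg / P1.sg) • (P0.sg⁻¹ • cw WpB WqB (-(856 / 1000)) (515 / 1000)) -
      ((8 : ℕ) / P1.sg : ℝ) • (⟨sA0.bx1 / SR, sA0.bt1 / SR⟩ : ℂ)‖ ≤ _
    rw [hv]
    exact hs' _ p4

lemma le0 : LeP P9 P0 := ⟨by norm_num [P9, P0], by norm_num [P9, P0], by norm_num [P9, P0]⟩

lemma exp_84 : Real.exp (351 / 100 * 24) ≤ 4 * 10 ^ 36 := by
  have h1 := Real.exp_one_lt_d9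
  have e : Real.exp (351 / 100 * 24) = Real.exp 1 ^ 84 * Real.exp (24 / 100) := by
    rw [← Real.exp_nat_mul, ← Real.exp_add]
    congr 1
    norm_num
  have h2 : Real.exp (24 / 100) ≤ 128 / 100 := by
    refine (Real.exp_bound' (by norm_num) (by norm_num) (n := 5) (by norm_num)).trans ?_
    norm_num [Finset.sum_range_succ, Nat.factorial]
  rw [e]
  calc Real.exp 1 ^ 84 * Real.exp (24 / 100) ≤ 2.7182818286 ^ 84 * (128 / 100) := by gcongr
    _ ≤ 4 * 10 ^ 36 := by norm_num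

lemma exp_al : Real.exp (alW * (-24)) ≤ 6 / 10 ^ 12 := by
  have h1 := Real.exp_one_gt_d9
  have e : Real.exp (alW * (-24)) ≤ (Real.exp 1 ^ 26)⁻¹ := by
    rw [← Real.exp_nat_mul, ← Real.exp_neg]
    apply Real.exp_le_exp.2
    have := alW_gt
    norm_num at this ⊢
    linarith
  refine e.trans ?_
  have h2 : (2.7182818283 : ℝ) ^ 26 ≤ Real.exp 1 ^ 26 := by gcongr
  refine (inv_anti₀ (by norm_num) h2).trans ?_
  norm_num

/-- every solution which starts near the curve escapes -/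
theorem escape_cu {m : Fin 3 → ℝ} (hm : NearM (1 / 10 ^ 62) m) {Y : ℝ → E}
    (hY : ∀ t, -24 ≤ t → HasDerivAt Y (fld P9 m (Y t)) t) {y0 : E} (h0 : Y (-24) = cnv P0 P9 y0)
    (hd : dist y0 (cu (-24)) ≤ 6 / 10 ^ 58) {t : ℝ} (ht : -24 ≤ t) :
    Far P9 0 (Y t) ∧ (63 / 8 ≤ t → 2 + 60 / 100 * (t - 63 / 8) ≤ ‖(Y t).1‖) := by
  have hm6 : NearM (1 / 10 ^ 6) m := hm.mono (by norm_num)
  obtain ⟨α, hα0, hα⟩ := TB.exists_forward (fld P0 m) _ (fld_lip lip0 hm6) y0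
  set y : ℝ → E := fun t => α (t - -24) with hy
  have hyd : ∀ t, -24 ≤ t → HasDerivAt y (fld P0 m (y t)) t := by
    intro t ht
    exact (hα (t - -24) (by linarith)).comp_sub_const t (-24)
  have hy0 : y (-24) = y0 := by simp only [hy, sub_self, hα0]
  have hcmp : ∀ t ∈ Icc (-24 : ℝ) 0, dist (y t) (cu t) ≤ 95 / 10 ^ 22 := by
    intro t ht
    have h1 := cu_cmp (c := 6 / 10 ^ 58) hm (by norm_num) (by norm_num) (fun s hs => hyd s hs.1) (by rw [hy0]; exact hd) ht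
    have h2 : Real.exp (351 / 100 * (t - -24)) ≤ 4 * 10 ^ 36 :=
      (Real.exp_le_exp.2 (by linarith [ht.2])).trans exp_84
    have h3 : Real.exp (4 * alW * t) ≤ 1 := Real.exp_le_one_iff.2
      (mul_nonpos_of_nonneg_of_nonpos (by linarith [alW_gt]) ht.2)
    have h4 := exp_al
    have h5 : (6 / 10 ^ 58 + 200 * (2 * (1 / 10 ^ 62) + 2 / 10 ^ 52 * Real.exp (alW * -24))) *
        Real.exp (351 / 100 * (t - -24)) ≤ (6 / 10 ^ 58 + 200 * (2 * (1 / 10 ^ 62) + 2 / 10 ^ 52 * (6 / 10 ^ 12))) *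
        (4 * 10 ^ 36) := by
      have := Real.exp_pos (351 / 100 * (t - -24))
      gcongr
    norm_num at h1 h5 ⊢
    linarith
  have hfar : ∀ t ∈ Icc (-24 : ℝ) 0, Far P0 0 (y t) := by
    intro t ht
    have h1 := (cu_defect hm ht.2).2
    exact (h1.of_dist (hcmp t ht)).mono (by norm_num)
  have hg : ∀ t ∈ Icc (-24 : ℝ) 0, Y t = cnv P0 P9 (y t) := fun t ht =>
    glue le0 lip9 hm6 (fun t ht => hY t ht.1) (fun t ht => hyd t ht.1) hfar (by rw [hy0]; exact h0) ht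
  rcases le_or_gt t 0 with h1 | h1
  · refine ⟨?_, fun h2 => by linarith⟩
    rw [hg t ⟨ht, h1⟩, far_cnv]
    exact (hfar t ⟨ht, h1⟩).leP le0
  · have h2 : Y 0 = cnv P1 P9 (cnv P0 P1 (y 0)) := by
      rw [cnv_cnv]; exact hg 0 ⟨by norm_num, le_rfl⟩
    have h3 : dist (cnv P0 P1 (y 0)) (stE QA sA0) ≤ 1 / 10 ^ 20 := by
      have k1 := hcmp 0 ⟨by norm_num, le_rfl⟩
      have k2 := cnv_dist P0 P1 (y 0) (cu 0) (c := 1) le_rfl (by simp only [P0, P1]; norm_num)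
      have k3 := dist_triangle (cnv P0 P1 (y 0)) (cnv P0 P1 (cu 0)) (stE QA sA0)
      have k4 := cu_zero
      norm_num at k1 k2 k4 ⊢
      linarith
    exact phases (hm.mono (by norm_num)) (fun t ht => hY t (by linarith)) h2 h3 h1.le

end Pool.Agent.T9h50.TR
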