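import Pool.Agent.T9h50.TR.Wsd3

/-!
# The defect of the approximate solutions on the unstable manifold
-/

set_option autoImplicit false
set_option exponentiation.threshold 3000

open scoped NNReal ComplexConjugate Topology
open Complex Set Filter

namespace Pool.Agent.T9h50.TR

open Pool.Agent.T9h50.TL (pkb pk2 ev2 nrm2 Len pk2_cons pk2_nil pkb_cons pkb_nil nrm2_cons chk2 Rep2 geob geob_nonneg)

open Pool.Agent.T9h50.TB (E kd kd_eq fI fI_eq fN fN_eq evR dR nrm nrm_cons hasDerivAt_evR abs_evR_le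
  combine hasDerivAt_mk)

lemma div_bound {x b s : ℝ} (hs : 0 < s) {ρ lo hi l h : ℝ} (hρ : 0 ≤ ρ)
    (hx : |x| ≤ 2500 * (lo * ρ + hi * ρ ^ 4)) (hlo : lo ≤ s * l) (hhi : hi ≤ s * h) (hb : b = x / s) :
    |b| ≤ 2500 * (l * ρ + h * ρ ^ 4) := by
  rw [hb, abs_div, abs_of_pos hs, div_le_iff₀ hs]
  refine hx.trans ?_
  have h1 : lo * ρ ≤ s * l * ρ := by gcongr
  have h2 : hi * ρ ^ 4 ≤ s * h * ρ ^ 4 := by gcongr
  nlinarith

lemma loG_le : (loG : ℝ) ≤ SWR ^ 4 * (1 / 10 ^ 57) := by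
  have h : loG * 10 ^ 57 ≤ SW ^ 4 := Nat.div_mul_le_self _ _
  have h2 : (loG : ℝ) * 10 ^ 57 ≤ (SW : ℝ) ^ 4 := by exact_mod_cast h
  rw [SW_cast] at h2
  rw [mul_one_div, le_div_iff₀ (by positivity)]; exact h2

lemma hiG_le : (hiG : ℝ) ≤ SWR ^ 4 * (1 / 10 ^ 25) := by
  have h : hiG * 10 ^ 25 ≤ SW ^ 4 := Nat.div_mul_le_self _ _
  have h2 : (hiG : ℝ) * 10 ^ 25 ≤ (SW : ℝ) ^ 4 := by exact_mod_cast h
  rw [SW_cast] at h2
  rw [mul_one_div, le_div_iff₀ (by positivity)]; exact h2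

lemma loV_le : (loV : ℝ) ≤ SWR ^ 2 * (1 / 10 ^ 56) := by
  have h : loV * 10 ^ 56 ≤ SW ^ 2 := Nat.div_mul_le_self _ _
  have h2 : (loV : ℝ) * 10 ^ 56 ≤ (SW : ℝ) ^ 2 := by exact_mod_cast h
  rw [SW_cast] at h2
  rw [mul_one_div, le_div_iff₀ (by positivity)]; exact h2

lemma loR_le : (loR : ℝ) ≤ (2 * SWR ^ 5) * (1 / 10 ^ 56) := by
  have h : loR * 10 ^ 56 ≤ 2 * SW ^ 5 := Nat.div_mul_le_self _ _
  have h2 : (loR : ℝ) * 10 ^ 56 ≤ 2 * (SW : ℝ) ^ 5 := by exact_mod_cast h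
  rw [SW_cast] at h2
  rw [mul_one_div, le_div_iff₀ (by positivity)]; exact h2

lemma hiR_le : (hiR : ℝ) ≤ (2 * SWR ^ 5) * (2 / 10 ^ 24) := by
  have h : hiR * 10 ^ 24 ≤ 4 * SW ^ 5 := Nat.div_mul_le_self _ _
  have h2 : (hiR : ℝ) * 10 ^ 24 ≤ 4 * (SW : ℝ) ^ 5 := by exact_mod_cast h
  rw [SW_cast] at h2
  have : 2 * SWR ^ 5 * (2 / 10 ^ 24) = 4 * SWR ^ 5 / 10 ^ 24 := by ring
  rw [this, le_div_iff₀ (by positivity)]; exact h2

/-- the normalised acceleration -/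
noncomputable def nFA (xa xc xb ga gc gb : ℝ) : ℝ :=
  3 / 2 * ((gb * gb * gb) * xb - (gc * gc * gc) * xc) - 3 / 2 * ((ga * ga * ga) * xa)
noncomputable def nFB (xa xc xb ga gc gb : ℝ) : ℝ :=
  0 / 2 * ((ga * ga * ga) * xa - (gc * gc * gc) * xc) - 6 / 2 * ((gb * gb * gb) * xb)

/-- all the estimates -/
structure GW' (u v ρ : ℝ) : Prop where
  ga : |nx WgA u v * nx WgA u v * (nx WxA u v * nx WxA u v + 3 * (nx WyA u v * nx WyA u v)) - 1| ≤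
    2500 * (1 / 10 ^ 57 * ρ + 1 / 10 ^ 25 * ρ ^ 4)
  gc : |nx WgC u v * nx WgC u v * ((nx WxA u v + nx WxB u v) * (nx WxA u v + nx WxB u v) +
    3 * ((nx WyA u v + nx WyB u v) * (nx WyA u v + nx WyB u v))) - 1| ≤
    2500 * (1 / 10 ^ 57 * ρ + 1 / 10 ^ 25 * ρ ^ 4)
  gb : |nx WgB u v * nx WgB u v * (nx WxB u v * nx WxB u v + 3 * (nx WyB u v * nx WyB u v)) - 1| ≤
    2500 * (1 / 10 ^ 57 * ρ + 1 / 10 ^ 25 * ρ ^ 4)
  xa : |nd WxA u v - (nx WpA u v + 3 * nx WyA u v)| ≤ 2500 * (1 / 10 ^ 56 * ρ + 1 / 10 ^ 56 * ρ ^ 4)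
  ya : |nd WyA u v - (nx WqA u v - nx WxA u v)| ≤ 2500 * (1 / 10 ^ 56 * ρ + 1 / 10 ^ 56 * ρ ^ 4)
  xb : |nd WxB u v - (nx WpB u v + 3 * nx WyB u v)| ≤ 2500 * (1 / 10 ^ 56 * ρ + 1 / 10 ^ 56 * ρ ^ 4)
  yb : |nd WyB u v - (nx WqB u v - nx WxB u v)| ≤ 2500 * (1 / 10 ^ 56 * ρ + 1 / 10 ^ 56 * ρ ^ 4)
  pa : |nd WpA u v - 3 * nx WqA u v - nFA (nx WxA u v) (nx WxA u v + nx WxB u v) (nx WxB u v)
    (nx WgA u v) (nx WgC u v) (nx WgB u v)| ≤ 2500 * (1 / 10 ^ 56 * ρ + 2 / 10 ^ 24 * ρ ^ 4)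
  qa : |nd WqA u v + nx WpA u v - nFA (nx WyA u v) (nx WyA u v + nx WyB u v) (nx WyB u v)
    (nx WgA u v) (nx WgC u v) (nx WgB u v)| ≤ 2500 * (1 / 10 ^ 56 * ρ + 2 / 10 ^ 24 * ρ ^ 4)
  pb : |nd WpB u v - 3 * nx WqB u v - nFB (nx WxA u v) (nx WxA u v + nx WxB u v) (nx WxB u v)
    (nx WgA u v) (nx WgC u v) (nx WgB u v)| ≤ 2500 * (1 / 10 ^ 56 * ρ + 2 / 10 ^ 24 * ρ ^ 4)
  qb : |nd WqB u v + nx WpB u v - nFB (nx WyA u v) (nx WyA u v + nx WyB u v) (nx WyB u v)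
    (nx WgA u v) (nx WgC u v) (nx WgB u v)| ≤ 2500 * (1 / 10 ^ 56 * ρ + 2 / 10 ^ 24 * ρ ^ 4)

lemma pw_add (V W : ℤ) : Int.add V W = V + W := rfl

theorem gw' {u v ρ : ℝ} (h0 : 0 ≤ ρ) (h1 : ρ ≤ 1) (hu : |u| ≤ ρ) (hv : |v| ≤ ρ) : GW' u v ρ := by
  have hS := SWR_pos
  have hS' := hS.ne'
  have rxa := ok_rep ok_xA
  have rya := ok_rep ok_yA
  have rxb := ok_rep ok_xB
  have ryb := ok_rep ok_yB
  have rpa := ok_rep ok_pA
  have rqa := ok_rep ok_qA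
  have rpb := ok_rep ok_pB
  have rqb := ok_rep ok_qB
  have rga := ok_rep ok_gA
  have rgc := ok_rep ok_gC
  have rgb := ok_rep ok_gB
  have e179 : (2 : ℕ) ^ 194 ≤ 2 ^ 195 := by norm_num
  have rxc : RW (Int.add (pw WxA) (pw WxB)) (2 ^ 195) 12 (fun u v => ev2 WxA u v + ev2 WxB u v) :=
    Rep2.mono (rxa.add rxb) (by norm_num) (by norm_num)
  have ryc : RW (Int.add (pw WyA) (pw WyB)) (2 ^ 195) 12 (fun u v => ev2 WyA u v + ev2 WyB u v) :=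
    Rep2.mono (rya.add ryb) (by norm_num) (by norm_num)
  have cubR : ∀ {V : ℤ} {f : ℝ → ℝ → ℝ}, RW V (2 ^ 194) 12 f →
      RW (cub V) (2 ^ 194 * 2 ^ 194 * 2 ^ 194) (12 + 12 + 12) (fun u v => f u v * f u v * f u v) :=
    fun h => (h.mul h).mul h
  have fA : ∀ {xa xc xb : ℤ} {fa fc fb : ℝ → ℝ → ℝ}, RW xa (2 ^ 194) 12 fa → RW xc (2 ^ 195) 12 fc →
      RW xb (2 ^ 194) 12 fb → RW (fAW xa xc xb) (2 ^ 790) 50 (fun u v =>
        3 * (fb u v * (ev2 WgB u v * ev2 WgB u v * ev2 WgB u v) -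
          fc u v * (ev2 WgC u v * ev2 WgC u v * ev2 WgC u v)) -
        3 * (fa u v * (ev2 WgA u v * ev2 WgA u v * ev2 WgA u v))) := by
    intro xa xc xb fa fc fb ha hc hb
    have r := ((((hb.mul (cubR rgb)).sub (hc.mul (cubR rgc)) (by norm_num)).smul 3 (by norm_num)).sub
      ((ha.mul (cubR rga)).smul 3 (by norm_num)) (by norm_num))
    refine (Rep2.mono r ?_ (by norm_num)).cgr2 fun u v => by push_cast; rfl
    rw [show (3 : ℤ).natAbs = 3 from rfl]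
    norm_num
  have fB : ∀ {xa xc xb : ℤ} {fa fc fb : ℝ → ℝ → ℝ}, RW xa (2 ^ 194) 12 fa → RW xc (2 ^ 195) 12 fc →
      RW xb (2 ^ 194) 12 fb → RW (fBW xa xc xb) (2 ^ 790) 50 (fun u v =>
        0 * (fa u v * (ev2 WgA u v * ev2 WgA u v * ev2 WgA u v) -
          fc u v * (ev2 WgC u v * ev2 WgC u v * ev2 WgC u v)) -
        6 * (fb u v * (ev2 WgB u v * ev2 WgB u v * ev2 WgB u v))) := by
    intro xa xc xb fa fc fb ha hc hb
    have r := ((((ha.mul (cubR rga)).sub (hc.mul (cubR rgc)) (by norm_num)).smul 0 (by norm_num)).sub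
      ((hb.mul (cubR rgb)).smul 6 (by norm_num)) (by norm_num))
    refine (Rep2.mono r ?_ (by norm_num)).cgr2 fun u v => by push_cast; rfl
    rw [show (0 : ℤ).natAbs = 0 from rfl, show (6 : ℤ).natAbs = 6 from rfl]
    norm_num
  constructor
  · refine div_bound (pow_pos hS 4) h0 (ckG_sound rga (rxa.mono e179 le_rfl) (rya.mono e179 le_rfl)
      w_ga h0 h1 hu hv) loG_le hiG_le ?_
    rw [SW_cast]; simp only [nx]; field_simp
  · refine div_bound (pow_pos hS 4) h0 (ckG_sound rgc rxc ryc w_gc h0 h1 hu hv) loG_le hiG_le ?_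
    rw [SW_cast]; simp only [nx]; field_simp
  · refine div_bound (pow_pos hS 4) h0 (ckG_sound rgb (rxb.mono e179 le_rfl) (ryb.mono e179 le_rfl)
      w_gb h0 h1 hu hv) loG_le hiG_le ?_
    rw [SW_cast]; simp only [nx]; field_simp
  · refine div_bound (pow_pos hS 2) h0 (ckX_sound ok_xA rpa rya w_xa h0 h1 hu hv) loV_le loV_le ?_
    rw [SW_cast]; simp only [nx, nd]; field_simp
  · refine div_bound (pow_pos hS 2) h0 (ckY_sound ok_yA rqa rxa w_ya h0 h1 hu hv) loV_le loV_le ?_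
    rw [SW_cast]; simp only [nx, nd]; field_simp
  · refine div_bound (pow_pos hS 2) h0 (ckX_sound ok_xB rpb ryb w_xb h0 h1 hu hv) loV_le loV_le ?_
    rw [SW_cast]; simp only [nx, nd]; field_simp
  · refine div_bound (pow_pos hS 2) h0 (ckY_sound ok_yB rqb rxb w_yb h0 h1 hu hv) loV_le loV_le ?_
    rw [SW_cast]; simp only [nx, nd]; field_simp
  · refine div_bound (mul_pos (by norm_num : (0:ℝ) < 2) (pow_pos hS 5)) h0
      (ckP_sound ok_pA rqa (fA rxa rxc rxb) w_pa h0 h1 hu hv) loR_le hiR_le ?_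
    rw [SW_cast]; simp only [nx, nd, nFA]; field_simp
  · refine div_bound (mul_pos (by norm_num : (0:ℝ) < 2) (pow_pos hS 5)) h0
      (ckQ_sound ok_qA rpa (fA rya ryc ryb) w_qa h0 h1 hu hv) loR_le hiR_le ?_
    rw [SW_cast]; simp only [nx, nd, nFA]; field_simp
  · refine div_bound (mul_pos (by norm_num : (0:ℝ) < 2) (pow_pos hS 5)) h0
      (ckP_sound ok_pB rqb (fB rxa rxc rxb) w_pb h0 h1 hu hv) loR_le hiR_le ?_
    rw [SW_cast]; simp only [nx, nd, nFB]; field_simp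
  · refine div_bound (mul_pos (by norm_num : (0:ℝ) < 2) (pow_pos hS 5)) h0
      (ckQ_sound ok_qB rpb (fB rya ryc ryb) w_qb h0 h1 hu hv) loR_le hiR_le ?_
    rw [SW_cast]; simp only [nx, nd, nFB]; field_simp

end Pool.Agent.T9h50.TR
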